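import Mathlib
import Pool.Agent.Y335.FL.Order

/-!
# Shortest path forests in graphs of girth twelve
-/

set_option autoImplicit false
set_option linter.unusedSectionVars false

namespace Pool.Agent.V11186.FV

open Finset Pool.Agent.TH676.Z Pool.Agent.Y335.FL

section forest

variable {V : Type} [Fintype V] [DecidableEq V] {G : SimpleGraph V}

/-- two short walks with the same ends have a common edge in every cut separating the ends -/
theorem common_edge (h12 : ∀ (w : V) (c : G.Walk w w), c.IsCycle → 12 ≤ c.length) {u v : V}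
    (p q : G.Walk u v) (hl : p.length + q.length ≤ 11) (S : Set V) (hu : u ∈ S) (hv : v ∉ S) :
    ∃ x y, x ∈ S ∧ y ∉ S ∧ s(x, y) ∈ p.edges ∧ s(x, y) ∈ q.edges := by
  classical
  have k1 := p.length_bypass_le_length
  have k2 := q.length_bypass_le_length
  have e : p.bypass = q.bypass := Ord.uniq h12 p.bypass_isPath q.bypass_isPath (by omega)
  obtain ⟨d, hd, h1, h2⟩ := p.bypass.exists_boundary_dart S hu hv
  have h3 : s(d.fst, d.snd) ∈ p.bypass.edges := by
    unfold SimpleGraph.Walk.edges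
    exact List.mem_map.2 ⟨d, hd, rfl⟩
  refine ⟨d.fst, d.snd, h1, h2, p.edges_bypass_subset_edges h3, ?_⟩
  rw [e] at h3
  exact q.edges_bypass_subset_edges h3

/-- there is a walk of length at most `l` whose edges join vertices of the same class -/
def IW (G : SimpleGraph V) (c : V → V) (l : ℕ) (u u' : V) : Prop :=
  ∃ w : G.Walk u u', w.length ≤ l ∧ ∀ x y, s(x, y) ∈ w.edges → c x = c y

variable {c : V → V}

theorem IW.refl (u : V) : IW G c 0 u u := ⟨SimpleGraph.Walk.nil, by simp, by simp⟩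

theorem IW.mono {l l' : ℕ} {u u' : V} (h : IW G c l u u') (hl : l ≤ l') : IW G c l' u u' := by
  obtain ⟨w, h1, h2⟩ := h
  exact ⟨w, h1.trans hl, h2⟩

theorem IW.symm {l : ℕ} {u u' : V} (h : IW G c l u u') : IW G c l u' u := by
  obtain ⟨w, h1, h2⟩ := h
  refine ⟨w.reverse, by rwa [SimpleGraph.Walk.length_reverse], fun x y hxy => ?_⟩
  rw [SimpleGraph.Walk.edges_reverse, List.mem_reverse] at hxy
  exact h2 x y hxy

theorem IW.trans {l m : ℕ} {u v w : V} (h : IW G c l u v) (h' : IW G c m v w) :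
    IW G c (l + m) u w := by
  obtain ⟨p, h1, h2⟩ := h
  obtain ⟨q, h3, h4⟩ := h'
  refine ⟨p.append q, by rw [SimpleGraph.Walk.length_append]; omega, fun x y hxy => ?_⟩
  rw [SimpleGraph.Walk.edges_append, List.mem_append] at hxy
  rcases hxy with h | h
  · exact h2 x y h
  · exact h4 x y h

theorem IW.edge {u v : V} (h : G.Adj u v) (hc : c u = c v) : IW G c 1 u v := by
  refine ⟨SimpleGraph.Walk.cons h SimpleGraph.Walk.nil, by simp, fun x y hxy => ?_⟩
  simp only [SimpleGraph.Walk.edges_cons, SimpleGraph.Walk.edges_nil, List.mem_cons,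
    List.not_mem_nil, or_false, Sym2.eq_iff] at hxy
  rcases hxy with ⟨rfl, rfl⟩ | ⟨rfl, rfl⟩
  · exact hc
  · exact hc.symm

/-- two edges between the same classes are far from each other -/
theorem cross_unique (h12 : ∀ (w : V) (c : G.Walk w w), c.IsCycle → 12 ≤ c.length)
    {u v u' v' : V} (h : G.Adj u v) (h' : G.Adj u' v') (hu : c u = c u') (hv : c v = c v')
    (hne : c u ≠ c v) {l m : ℕ} (h1 : IW G c l u u') (h2 : IW G c m v v') (hl : l + m ≤ 9) :
    u = u' ∧ v = v' := by
  obtain ⟨w1, a1, b1⟩ := h1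
  obtain ⟨w2, a2, b2⟩ := h2
  obtain ⟨x, y, hx, hy, m1, m2⟩ := common_edge h12 (SimpleGraph.Walk.cons h w2)
    (w1.append (SimpleGraph.Walk.cons h' SimpleGraph.Walk.nil)) (by
      rw [SimpleGraph.Walk.length_append]
      simp only [SimpleGraph.Walk.length_cons, SimpleGraph.Walk.length_nil]
      omega) {z | c z = c u} rfl (by
      show ¬ c v' = c u
      rw [← hv]
      exact fun h => hne h.symm)
  have hx' : c x = c u := hx
  have hy' : c y ≠ c u := hy
  rw [SimpleGraph.Walk.edges_cons, List.mem_cons] at m1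
  rw [SimpleGraph.Walk.edges_append, List.mem_append] at m2
  simp only [SimpleGraph.Walk.edges_cons, SimpleGraph.Walk.edges_nil, List.mem_cons,
    List.not_mem_nil, or_false] at m2
  rcases m1 with m1 | m1
  · rcases m2 with m2 | m2
    · exact absurd ((b1 x y m2).symm.trans hx') hy'
    · rw [Sym2.eq_iff] at m1 m2
      rcases m1 with ⟨rfl, rfl⟩ | ⟨rfl, rfl⟩
      · rcases m2 with ⟨e1, e2⟩ | ⟨e1, e2⟩
        · exact ⟨e1, e2⟩
        · exfalso
          apply hne
          rw [e1]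
          exact hv.symm
      · exact absurd hx'.symm hne
  · exact absurd ((b2 x y m1).symm.trans hx') hy'

/-- no short triangle of classes -/
theorem no_triangle (h12 : ∀ (w : V) (c : G.Walk w w), c.IsCycle → 12 ≤ c.length)
    {u1 v1 u2 v2 u3 v3 : V} (h12' : G.Adj u1 v2) (h23 : G.Adj u2 v3) (h31 : G.Adj u3 v1)
    (c12 : c u1 ≠ c u2) (c23 : c u2 ≠ c u3) (c13 : c u1 ≠ c u3) {l1 l2 l3 : ℕ}
    (e1 : c v1 = c u1) (e2 : c v2 = c u2)
    (w1 : IW G c l1 v1 u1) (w2 : IW G c l2 v2 u2) (w3 : IW G c l3 v3 u3)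
    (hl : l1 + l2 + l3 ≤ 8) : False := by
  obtain ⟨w1, a1, b1⟩ := w1
  obtain ⟨w2, a2, b2⟩ := w2
  obtain ⟨w3, a3, b3⟩ := w3
  obtain ⟨x, y, hx, hy, m1, m2⟩ := common_edge h12
    (SimpleGraph.Walk.cons h31 SimpleGraph.Walk.nil)
    (w3.reverse.append (SimpleGraph.Walk.cons h23.symm (w2.reverse.append
      (SimpleGraph.Walk.cons h12'.symm w1.reverse)))) (by
      simp only [SimpleGraph.Walk.length_append, SimpleGraph.Walk.length_cons,
        SimpleGraph.Walk.length_nil, SimpleGraph.Walk.length_reverse]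
      omega) {z | c z = c u3} rfl (by
      show ¬ c v1 = c u3
      rw [e1]
      exact c13)
  have hx' : c x = c u3 := hx
  have hy' : c y ≠ c u3 := hy
  simp only [SimpleGraph.Walk.edges_cons, SimpleGraph.Walk.edges_nil, List.mem_cons,
    List.not_mem_nil, or_false, Sym2.eq_iff] at m1
  simp only [SimpleGraph.Walk.edges_append, SimpleGraph.Walk.edges_cons,
    SimpleGraph.Walk.edges_reverse, List.mem_append, List.mem_cons, List.mem_reverse,
    Sym2.eq_iff] at m2
  rcases m1 with ⟨k1, k2⟩ | ⟨k1, k2⟩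
  · have hy1 : c y = c u1 := by rw [k2]; exact e1
    rcases m2 with h | (⟨h, h'⟩ | ⟨h, h'⟩) | h | (⟨h, h'⟩ | ⟨h, h'⟩) | h
    · exact c13 (hy1.symm.trans ((b3 _ _ h).symm.trans hx'))
    · exact c12 (hy1.symm.trans (by rw [h']))
    · exact c23 (by rw [← hx', h])
    · exact c13 (hy1.symm.trans ((b2 _ _ h).symm.trans hx'))
    · exact c23 (by rw [← hx', h, e2])
    · exact c13 (by rw [← hx', h])
    · exact c13 (hy1.symm.trans ((b1 _ _ h).symm.trans hx'))
  · have hx1 : c x = c u1 := by rw [k1]; exact e1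
    exact absurd (hx1.symm.trans hx') c13

/-- a shortest path forest: `d` distance, `c` root, `p` parent -/
structure Forest (G : SimpleGraph V) (r : ℕ) (S : Finset V) (d : V → ℕ) (c p : V → V) :
    Prop where
  le : ∀ x, (∃ y, G.Adj x y) → d x ≤ r
  adj : ∀ x, (∃ y, G.Adj x y) → 0 < d x → G.Adj x (p x)
  dp : ∀ x, (∃ y, G.Adj x y) → 0 < d x → d (p x) + 1 = d x
  cp : ∀ x, (∃ y, G.Adj x y) → 0 < d x → c (p x) = c x
  zero : ∀ x, (∃ y, G.Adj x y) → d x = 0 → c x = x
  mem : ∀ x, (∃ y, G.Adj x y) → c x ∈ S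
  root : ∀ x ∈ S, d x = 0

theorem exists_forest (r : ℕ) (S : Finset V)
    (h : ∀ x, (∃ y, G.Adj x y) → ∃ s ∈ S, ∃ w : G.Walk x s, w.length ≤ r) :
    ∃ (d : V → ℕ) (c p : V → V), Forest G r S d c p := by
  classical
  set A : V → Set ℕ := fun x => {n | ∃ s ∈ S, ∃ w : G.Walk x s, w.length = n} with hA
  set d : V → ℕ := fun x => sInf (A x) with hd
  have hmem : ∀ x, (∃ y, G.Adj x y) → d x ∈ A x := by
    intro x hx
    obtain ⟨s, hs, w, -⟩ := h x hx
    exact Nat.sInf_mem ⟨w.length, s, hs, w, rfl⟩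
  have hle : ∀ x s, s ∈ S → ∀ w : G.Walk x s, d x ≤ w.length := fun x s hs w =>
    Nat.sInf_le ⟨s, hs, w, rfl⟩
  have hpex : ∀ x, ∃ y, (∃ y, G.Adj x y) → 0 < d x → G.Adj x y ∧ d y + 1 = d x := by
    intro x
    by_cases hx : ∃ y, G.Adj x y
    · obtain ⟨s, hs, w, hw⟩ := hmem x hx
      cases w with
      | nil =>
        refine ⟨x, fun _ h0 => ?_⟩
        simp only [SimpleGraph.Walk.length_nil] at hw
        omega
      | cons hadj w' =>
        rename_i y
        refine ⟨y, fun _ h0 => ⟨hadj, ?_⟩⟩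
        rw [SimpleGraph.Walk.length_cons] at hw
        have h1 := hle y s hs w'
        obtain ⟨s', hs', w'', hw''⟩ := hmem y ⟨x, hadj.symm⟩
        have h2 := hle x s' hs' (SimpleGraph.Walk.cons hadj w'')
        rw [SimpleGraph.Walk.length_cons] at h2
        omega
    · exact ⟨x, fun h => absurd h hx⟩
  choose p hp using hpex
  set c : V → V := fun x => p^[d x] x with hc
  have hcp : ∀ x, (∃ y, G.Adj x y) → 0 < d x → c (p x) = c x := by
    intro x hx h0
    have h1 := (hp x hx h0).2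
    rw [hc]
    simp only
    rw [← h1, Function.iterate_succ_apply]
  have hmemc : ∀ n x, d x = n → (∃ y, G.Adj x y) → c x ∈ S := by
    intro n
    induction n with
    | zero =>
      intro x hx0 hx
      obtain ⟨s, hs, w, hw⟩ := hmem x hx
      rw [hx0] at hw
      have e := SimpleGraph.Walk.eq_of_length_eq_zero hw
      rw [hc]
      simp only
      rw [hx0, Function.iterate_zero, id, e]
      exact hs
    | succ n ih =>
      intro x hxn hx
      obtain ⟨k1, k2⟩ := hp x hx (by omega)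
      rw [← hcp x hx (by omega)]
      exact ih (p x) (by omega) ⟨x, k1.symm⟩
  refine ⟨d, c, p, ⟨fun x hx => ?_, fun x hx h0 => (hp x hx h0).1, fun x hx h0 => (hp x hx h0).2,
    hcp, fun x hx h0 => ?_, fun x hx => hmemc _ x rfl hx, fun x hx => ?_⟩⟩
  · obtain ⟨s, hs, w, hw⟩ := h x hx
    exact (hle x s hs w).trans hw
  · rw [hc]
    simp only
    rw [h0, Function.iterate_zero, id]
  · have := hle x x hx SimpleGraph.Walk.nil
    simpa using this

variable {r : ℕ} {S : Finset V} {d : V → ℕ} {p : V → V}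

theorem Forest.tree (F : Forest G r S d c p) : ∀ (n : ℕ) (x : V), d x = n → (∃ y, G.Adj x y) →
    ∃ w : G.Walk x (c x), w.length = n ∧ ∀ a b, s(a, b) ∈ w.edges →
      c a = c b ∧ ((b = p a ∧ 0 < d a) ∨ (a = p b ∧ 0 < d b)) := by
  intro n
  induction n with
  | zero =>
    intro x hx0 hx
    have e := F.zero x hx hx0
    refine ⟨SimpleGraph.Walk.nil.copy rfl e.symm, by simp, fun a b h => ?_⟩
    simp at h
  | succ n ih =>
    intro x hxn hx
    have h0 : 0 < d x := by omega
    have k1 := F.adj x hx h0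
    have k2 := F.dp x hx h0
    have k3 := F.cp x hx h0
    obtain ⟨w, hw, hw2⟩ := ih (p x) (by omega) ⟨x, k1.symm⟩
    refine ⟨(SimpleGraph.Walk.cons k1 w).copy rfl k3, ?_, fun a b h => ?_⟩
    · rw [SimpleGraph.Walk.length_copy, SimpleGraph.Walk.length_cons, hw]
    · rw [SimpleGraph.Walk.edges_copy, SimpleGraph.Walk.edges_cons, List.mem_cons] at h
      rcases h with h | h
      · rw [Sym2.eq_iff] at h
        rcases h with ⟨rfl, rfl⟩ | ⟨rfl, rfl⟩
        · exact ⟨k3.symm, Or.inl ⟨rfl, h0⟩⟩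
        · exact ⟨k3, Or.inr ⟨rfl, h0⟩⟩
      · exact hw2 a b h

/-- walks inside a class -/
theorem Forest.iw (F : Forest G r S d c p) {x y : V} (hx : ∃ z, G.Adj x z)
    (hy : ∃ z, G.Adj y z) (hxy : c x = c y) : IW G c (d x + d y) x y := by
  obtain ⟨w, h1, h2⟩ := F.tree _ x rfl hx
  obtain ⟨w', h1', h2'⟩ := F.tree _ y rfl hy
  have k1 : IW G c (d x) x (c x) := ⟨w, h1.le, fun a b h => (h2 a b h).1⟩
  have k2 : IW G c (d y) y (c y) := ⟨w', h1'.le, fun a b h => (h2' a b h).1⟩
  rw [← hxy] at k2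
  exact k1.trans k2.symm

/-- edges inside a class are edges of the forest -/
theorem Forest.same (F : Forest G r S d c p) (hr : r ≤ 5)
    (h12 : ∀ (w : V) (c : G.Walk w w), c.IsCycle → 12 ≤ c.length) {x y : V} (h : G.Adj x y)
    (hc : c x = c y) : (y = p x ∧ 0 < d x) ∨ (x = p y ∧ 0 < d y) := by
  obtain ⟨w, h1, h2⟩ := F.tree _ x rfl ⟨y, h⟩
  obtain ⟨w', h1', h2'⟩ := F.tree _ y rfl ⟨x, h.symm⟩
  have k1 := F.le x ⟨y, h⟩
  have k2 := F.le y ⟨x, h.symm⟩
  obtain ⟨a, b, ha, hb, m1, m2⟩ := common_edge h12 (SimpleGraph.Walk.cons h SimpleGraph.Walk.nil)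
    (w.append (w'.reverse.copy hc.symm rfl)) (by
      simp only [SimpleGraph.Walk.length_append, SimpleGraph.Walk.length_cons,
        SimpleGraph.Walk.length_nil, SimpleGraph.Walk.length_reverse,
        SimpleGraph.Walk.length_copy]
      omega) {z | z = x} rfl (fun hh => h.ne (Eq.symm hh))
  simp only [SimpleGraph.Walk.edges_cons, SimpleGraph.Walk.edges_nil, List.mem_cons,
    List.not_mem_nil, or_false, Sym2.eq_iff] at m1
  simp only [SimpleGraph.Walk.edges_append, SimpleGraph.Walk.edges_reverse,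
    SimpleGraph.Walk.edges_copy, List.mem_append, List.mem_reverse] at m2
  have key : (b = p a ∧ 0 < d a) ∨ (a = p b ∧ 0 < d b) := by
    rcases m2 with m2 | m2
    · exact (h2 a b m2).2
    · exact (h2' a b m2).2
  rcases m1 with ⟨rfl, rfl⟩ | ⟨rfl, rfl⟩
  · exact key
  · exact absurd ha h.ne.symm

end forest

end Pool.Agent.V11186.FV
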