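import Mathlib
import Pool.Agent.Y358.IN.Dirac
import Pool.Agent.V11186.FV.Forest

/-!
# Graphs which are covered by few balls
-/

set_option autoImplicit false
set_option linter.unusedSectionVars false

namespace Pool.Agent.V11186.FV

open Finset Pool.Agent.TH676.Z Pool.Agent.Y335.FL Pool.Agent.Y358.IN

section balls

variable {V : Type} [Fintype V] [DecidableEq V] {G : SimpleGraph V}

theorem two_of (h3 : Three G.Adj) {x : V} (hx : ∃ y, G.Adj x y) (z : V) :
    ∃ y1 y2, y1 ≠ y2 ∧ G.Adj x y1 ∧ G.Adj x y2 ∧ y1 ≠ z ∧ y2 ≠ z := by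
  obtain ⟨y, hy⟩ := hx
  obtain ⟨a, b, c, h1, h2, h4, n1, n2, n3⟩ := h3 x y hy
  by_cases e1 : a = z
  · exact ⟨b, c, n3, h2, h4, fun h => n1 (e1.trans h.symm), fun h => n2 (e1.trans h.symm)⟩
  · by_cases e2 : b = z
    · exact ⟨a, c, n2, h1, h4, e1, fun h => n3 (e2.trans h.symm)⟩
    · exact ⟨a, b, n1, h1, h2, e1, e2⟩

theorem one_of (h3 : Three G.Adj) {x : V} (hx : ∃ y, G.Adj x y) (z z' : V) :
    ∃ y, G.Adj x y ∧ y ≠ z ∧ y ≠ z' := by
  obtain ⟨y1, y2, h0, h1, h2, h4, h5⟩ := two_of h3 hx z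
  by_cases e : y1 = z'
  · exact ⟨y2, h2, h5, fun h => h0 (e.trans h.symm)⟩
  · exact ⟨y1, h1, h4, e⟩

variable {c : V → V} {r : ℕ} {S : Finset V} {d : V → ℕ} {p : V → V}

theorem Forest.c_adj (F : Forest G r S d c p) {x : V} (hx : ∃ y, G.Adj x y) :
    ∃ z, G.Adj (c x) z := by
  obtain ⟨y, hy⟩ := hx
  obtain ⟨w, -, -⟩ := F.tree _ x rfl ⟨y, hy⟩
  exact Ord.nbr hy w

theorem Forest.d_c (F : Forest G r S d c p) {x : V} (hx : ∃ y, G.Adj x y) : d (c x) = 0 :=
  F.root _ (F.mem x hx)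

/-- the roots which are not isolated -/
noncomputable def B0 (G : SimpleGraph V) (d : V → ℕ) : Finset V := by
  classical exact univ.filter (fun x => (∃ y, G.Adj x y) ∧ d x = 0)

theorem mem_B0 {x : V} : x ∈ B0 G d ↔ (∃ y, G.Adj x y) ∧ d x = 0 := by
  classical
  unfold B0
  simp

theorem Forest.B0_le (F : Forest G r S d c p) : (B0 G d).card ≤ S.card := by
  refine card_le_card fun x hx => ?_
  obtain ⟨h1, h2⟩ := mem_B0.1 hx
  rw [← F.zero x h1 h2]
  exact F.mem x h1

open Classical in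
/-- counting of the edges -/
theorem Forest.count (F : Forest G r S d c p) (hr : r ≤ 5) (hm : St_moore)
    (h12 : ∀ (w : V) (c : G.Walk w w), c.IsCycle → 12 ≤ c.length) (hg : Girth G.Adj 12)
    (h3 : Three G.Adj) (hex : ∃ x y, G.Adj x y) :
    ∃ n : ℕ, 126 ≤ n ∧ (B0 G d).card ≤ n ∧ 3 * n + 2 * (B0 G d).card ≤ 2 * n +
      (univ.filter (fun q : V × V => G.Adj q.1 q.2 ∧ c q.1 ≠ c q.2)).card := by
  classical
  set B : Finset V := univ.filter (fun v => ∃ y, G.Adj v y) with hB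
  have hB126 : 126 ≤ B.card := by
    have := hm V G.Adj (fun a b h => h.symm) (fun a h => G.loopless.irrefl _ h) hg h3 hex
    rw [hB]
    exact this
  set R : Finset V := B.filter (fun x => 0 < d x) with hR
  have hmR : ∀ x, x ∈ R ↔ (∃ y, G.Adj x y) ∧ 0 < d x := by
    intro x
    rw [hR, mem_filter, hB, mem_filter]
    simp
  have hsplit : (B0 G d).card + R.card = B.card := by
    rw [← card_filter_add_card_filter_not (s := B) (fun x => d x = 0)]
    congr 1
    · congr 1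
      ext x
      rw [mem_B0, mem_filter, hB, mem_filter]
      simp
    · congr 1
      refine filter_congr fun x _ => ?_
      exact Nat.pos_iff_ne_zero
  refine ⟨B.card, hB126, by omega, ?_⟩
  have h1 : 3 * B.card ≤ (univ.filter (fun q : V × V => G.Adj q.1 q.2)).card := by
    have hsub : B.sigma (fun x => univ.filter (fun y => G.Adj x y)) ⊆
        (univ : Finset V).sigma (fun x => univ.filter (fun y => G.Adj x y)) :=
      sigma_mono (subset_univ _) (fun _ => Subset.refl _)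
    have e1 : (univ.filter (fun q : V × V => G.Adj q.1 q.2)).card =
        ∑ x, (univ.filter (fun y => G.Adj x y)).card := by
      rw [card_filter, ← univ_product_univ, sum_product]
      exact sum_congr rfl fun x _ => by rw [card_filter]
    rw [e1]
    calc 3 * B.card = ∑ _x ∈ B, 3 := by rw [sum_const, smul_eq_mul, mul_comm]
      _ ≤ ∑ x ∈ B, (univ.filter (fun y => G.Adj x y)).card := by
        refine sum_le_sum fun x hx => ?_
        obtain ⟨y, hy⟩ := (mem_filter.1 hx).2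
        obtain ⟨a, b, e, h1, h2, h4, n1, n2, n3⟩ := h3 x y hy
        have h5 : ({a, b, e} : Finset V) ⊆ univ.filter (fun y => G.Adj x y) := by
          intro z hz
          simp only [mem_insert, mem_singleton] at hz
          rw [mem_filter]
          rcases hz with rfl | rfl | rfl
          · exact ⟨mem_univ _, h1⟩
          · exact ⟨mem_univ _, h2⟩
          · exact ⟨mem_univ _, h4⟩
        have h6 : ({a, b, e} : Finset V).card = 3 := by
          rw [card_insert_of_notMem, card_pair n3]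
          simp [n1, n2]
        rw [← h6]
        exact card_le_card h5
      _ ≤ _ := sum_le_sum_of_subset (subset_univ _)
  have h2 : (univ.filter (fun q : V × V => G.Adj q.1 q.2)).card ≤
      (univ.filter (fun q : V × V => G.Adj q.1 q.2 ∧ c q.1 = c q.2)).card +
      (univ.filter (fun q : V × V => G.Adj q.1 q.2 ∧ c q.1 ≠ c q.2)).card := by
    refine le_trans (card_le_card fun q hq => ?_) (card_union_le _ _)
    have hq' := (mem_filter.1 hq).2
    by_cases h : c q.1 = c q.2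
    · exact mem_union_left _ (mem_filter.2 ⟨mem_univ _, hq', h⟩)
    · exact mem_union_right _ (mem_filter.2 ⟨mem_univ _, hq', h⟩)
  have h4 : (univ.filter (fun q : V × V => G.Adj q.1 q.2 ∧ c q.1 = c q.2)).card ≤ 2 * R.card := by
    have hsub : univ.filter (fun q : V × V => G.Adj q.1 q.2 ∧ c q.1 = c q.2) ⊆
        R.image (fun x => (x, p x)) ∪ R.image (fun x => (p x, x)) := by
      rintro ⟨x, y⟩ hq
      obtain ⟨-, hq1, hq2⟩ := mem_filter.1 hq
      rcases F.same hr h12 hq1 hq2 with ⟨e, h0⟩ | ⟨e, h0⟩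
      · refine mem_union_left _ (mem_image.2 ⟨x, (hmR x).2 ⟨⟨y, hq1⟩, h0⟩, ?_⟩)
        simp only at e ⊢
        rw [e]
      · refine mem_union_right _ (mem_image.2 ⟨y, (hmR y).2 ⟨⟨x, hq1.symm⟩, h0⟩, ?_⟩)
        simp only at e ⊢
        rw [e]
    refine (card_le_card hsub).trans ((card_union_le _ _).trans ?_)
    have k1 : (R.image (fun x => (x, p x))).card ≤ R.card := card_image_le
    have k2 : (R.image (fun x => (p x, x))).card ≤ R.card := card_image_le
    omega
  omega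

open Classical in
/-- balls of radius at most two: at most one edge between two classes -/
theorem Forest.cross_le (F : Forest G r S d c p) (hr : r ≤ 2)
    (h12 : ∀ (w : V) (c : G.Walk w w), c.IsCycle → 12 ≤ c.length) :
    (univ.filter (fun q : V × V => G.Adj q.1 q.2 ∧ c q.1 ≠ c q.2)).card ≤
      (B0 G d).card * (B0 G d).card - (B0 G d).card := by
  rw [← offDiag_card]
  refine card_le_card_of_injOn (fun q => (c q.1, c q.2)) ?_ ?_
  · intro q hq
    obtain ⟨-, h1, h2⟩ := mem_filter.1 hq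
    refine mem_coe.2 (mem_offDiag.2 ⟨mem_B0.2 ⟨F.c_adj ⟨_, h1⟩, F.d_c ⟨_, h1⟩⟩,
      mem_B0.2 ⟨F.c_adj ⟨_, h1.symm⟩, F.d_c ⟨_, h1.symm⟩⟩, h2⟩)
  · intro q hq q' hq' h
    obtain ⟨-, h1, h2⟩ := mem_filter.1 (mem_coe.1 hq)
    obtain ⟨-, h1', h2'⟩ := mem_filter.1 (mem_coe.1 hq')
    have e1 : c q.1 = c q'.1 := (Prod.ext_iff.1 h).1
    have e2 : c q.2 = c q'.2 := (Prod.ext_iff.1 h).2
    have a1 := F.le q.1 ⟨_, h1⟩
    have a2 := F.le q.2 ⟨_, h1.symm⟩
    have a3 := F.le q'.1 ⟨_, h1'⟩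
    have a4 := F.le q'.2 ⟨_, h1'.symm⟩
    obtain ⟨k1, k2⟩ := cross_unique h12 h1 h1' e1 e2 h2 (F.iw ⟨_, h1⟩ ⟨_, h1'⟩ e1)
      (F.iw ⟨_, h1.symm⟩ ⟨_, h1'.symm⟩ e2) (by omega)
    exact Prod.ext k1 k2

theorem Forest.two (F : Forest G r S d c p) (hr : r ≤ 2) (hm : St_moore)
    (h12 : ∀ (w : V) (c : G.Walk w w), c.IsCycle → 12 ≤ c.length) (hg : Girth G.Adj 12)
    (h3 : Three G.Adj) (hex : ∃ x y, G.Adj x y) (hS : S.card ≤ 12) : False := by
  classical
  obtain ⟨n, h1, h2, h4⟩ := F.count (by omega) hm h12 hg h3 hex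
  have h5 := F.cross_le hr h12
  have h6 := F.B0_le
  have h7 : (B0 G d).card ≤ 12 := h6.trans hS
  generalize (B0 G d).card = b at *
  have h8 : b * b ≤ 12 * b := Nat.mul_le_mul_right b h7
  have h9 : b ≤ b * b := by nlinarith
  have h10 : 3 * n + 2 * b ≤ 2 * n + (b * b - b) := h4.trans (by omega)
  have h11 : b * b ≤ 12 * b := h8
  have h13 : 12 * b ≤ 144 := by omega
  omega

/-- the classes adjacent to `x` -/
noncomputable def Kc (G : SimpleGraph V) (S : Finset V) (c : V → V) (x : V) : Finset V := by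
  classical exact S.filter (fun a => a ≠ c x ∧ ∃ y, G.Adj x y ∧ c y = a)

theorem mem_Kc {x a : V} : a ∈ Kc G S c x ↔ a ∈ S ∧ a ≠ c x ∧ ∃ y, G.Adj x y ∧ c y = a := by
  classical
  unfold Kc
  simp

theorem Kc_sub (x : V) : Kc G S c x ⊆ S.erase (c x) := fun a ha => by
  obtain ⟨h1, h2, -⟩ := mem_Kc.1 ha
  exact mem_erase.2 ⟨h2, h1⟩

theorem Forest.Kc_two (F : Forest G r S d c p) (hr : r ≤ 4)
    (h12 : ∀ (w : V) (c : G.Walk w w), c.IsCycle → 12 ≤ c.length) {x y1 y2 : V}
    (h1 : G.Adj x y1) (h2 : G.Adj x y2) (hne : y1 ≠ y2) (hc1 : c y1 ≠ c x) (hc2 : c y2 ≠ c x) :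
    2 ≤ (Kc G S c x).card := by
  have hcc : c y1 ≠ c y2 := by
    intro h
    have a1 := F.le y1 ⟨_, h1.symm⟩
    have a2 := F.le y2 ⟨_, h2.symm⟩
    exact hne (cross_unique h12 h1 h2 rfl h (Ne.symm hc1) (IW.refl x)
      (F.iw ⟨_, h1.symm⟩ ⟨_, h2.symm⟩ h) (by omega)).2
  rw [← card_pair hcc]
  refine card_le_card fun a ha => ?_
  simp only [mem_insert, mem_singleton] at ha
  rcases ha with rfl | rfl
  · exact mem_Kc.2 ⟨F.mem _ ⟨_, h1.symm⟩, hc1, _, h1, rfl⟩
  · exact mem_Kc.2 ⟨F.mem _ ⟨_, h2.symm⟩, hc2, _, h2, rfl⟩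

theorem Forest.Kc_disj (F : Forest G r S d c p)
    (h12 : ∀ (w : V) (c : G.Walk w w), c.IsCycle → 12 ≤ c.length) {u u' : V} {l : ℕ}
    (hc : c u = c u') (hne : u ≠ u') (hw : IW G c l u u') (hl : l + 2 * r ≤ 9) :
    Disjoint (Kc G S c u) (Kc G S c u') := by
  rw [disjoint_left]
  intro a ha ha'
  obtain ⟨-, h1, y, hy, hya⟩ := mem_Kc.1 ha
  obtain ⟨-, h1', y', hy', hya'⟩ := mem_Kc.1 ha'
  have a1 := F.le y ⟨_, hy.symm⟩
  have a2 := F.le y' ⟨_, hy'.symm⟩
  have hcy : c y = c y' := hya.trans hya'.symm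
  exact hne (cross_unique h12 hy hy' hc hcy (by rw [hya]; exact h1.symm) hw
    (F.iw ⟨_, hy.symm⟩ ⟨_, hy'.symm⟩ hcy) (by omega)).1

/-- two balls of radius four -/
theorem Forest.four (F : Forest G r S d c p) (hr : r ≤ 4) (hm : St_moore)
    (h12 : ∀ (w : V) (c : G.Walk w w), c.IsCycle → 12 ≤ c.length) (hg : Girth G.Adj 12)
    (h3 : Three G.Adj) (hex : ∃ x y, G.Adj x y) (hS : S.card ≤ 2) : False := by
  classical
  set B : Finset V := univ.filter (fun v => ∃ y, G.Adj v y) with hB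
  have hmB : ∀ x, x ∈ B ↔ ∃ y, G.Adj x y := fun x => by simp [hB]
  have hB126 : 126 ≤ B.card := by
    have := hm V G.Adj (fun a b h => h.symm) (fun a h => G.loopless.irrefl _ h) hg h3 hex
    rw [hB]
    exact this
  have hne : B.Nonempty := card_pos.1 (by omega)
  obtain ⟨x, hxB, hmax⟩ := B.exists_max_image d hne
  have hx := (hmB x).1 hxB
  by_cases h0 : d x = 0
  · have hsub : B ⊆ S := by
      intro y hy
      have h1 := hmax y hy
      have hy' := (hmB y).1 hy
      rw [← F.zero y hy' (by omega)]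
      exact F.mem y hy'
    have := card_le_card hsub
    omega
  · obtain ⟨y1, y2, hn, a1, a2, n1, n2⟩ := two_of h3 hx (p x)
    have hcr : ∀ y, G.Adj x y → y ≠ p x → c y ≠ c x := by
      intro y hy hyp hc
      rcases F.same (by omega) h12 hy hc.symm with ⟨e, -⟩ | ⟨e, h5⟩
      · exact hyp e
      · have h6 := F.dp y ⟨_, hy.symm⟩ h5
        have h7 := hmax y ((hmB y).2 ⟨_, hy.symm⟩)
        rw [← e] at h6
        omega
    have k1 := F.Kc_two hr h12 a1 a2 hn (hcr y1 a1 n1) (hcr y2 a2 n2)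
    have k2 := card_le_card (Kc_sub (G := G) (S := S) (c := c) x)
    rw [card_erase_of_mem (F.mem x hx)] at k2
    omega

/-- one ball of radius five -/
theorem Forest.five (F : Forest G r S d c p) (hr : r ≤ 5) (hm : St_moore)
    (h12 : ∀ (w : V) (c : G.Walk w w), c.IsCycle → 12 ≤ c.length) (hg : Girth G.Adj 12)
    (h3 : Three G.Adj) (hex : ∃ x y, G.Adj x y) (hS : S.card ≤ 1) : False := by
  classical
  obtain ⟨n, h1, h2, h4⟩ := F.count hr hm h12 hg h3 hex
  have h5 : (univ.filter (fun q : V × V => G.Adj q.1 q.2 ∧ c q.1 ≠ c q.2)) = ∅ := by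
    rw [filter_eq_empty_iff]
    rintro ⟨x, y⟩ - ⟨hxy, hne⟩
    exact hne (card_le_one.1 hS _ (F.mem x ⟨_, hxy⟩) _ (F.mem y ⟨_, hxy.symm⟩))
  rw [h5, card_empty] at h4
  omega

/-- four balls of radius three -/
theorem Forest.three (F : Forest G r S d c p) (hr : r ≤ 3) (hm : St_moore)
    (h12 : ∀ (w : V) (c : G.Walk w w), c.IsCycle → 12 ≤ c.length) (hg : Girth G.Adj 12)
    (h3 : Three G.Adj) (hex : ∃ x y, G.Adj x y) (hS : S.card ≤ 4) : False := by
  classical
  have hK3 : ∀ x, (∃ y, G.Adj x y) → (S.erase (c x)).card ≤ 3 := by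
    intro x hx
    rw [card_erase_of_mem (F.mem x hx)]
    omega
  have hcross : ∀ x y, G.Adj x y → y ≠ p x → (c y ≠ c x ∨ (x = p y ∧ 0 < d y)) := by
    intro x y hy hyp
    by_cases hc : c y = c x
    · rcases F.same (by omega) h12 hy hc.symm with ⟨e, -⟩ | h
      · exact absurd e hyp
      · exact Or.inr h
    · exact Or.inl hc
  have hchild : ∀ x y, G.Adj x y → x = p y → 0 < d y → d y = d x + 1 ∧ c y = c x ∧
      IW G c 1 x y := by
    intro x y hy e h0
    have k1 := F.dp y ⟨_, hy.symm⟩ h0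
    have k2 := F.cp y ⟨_, hy.symm⟩ h0
    rw [← e] at k1 k2
    exact ⟨by omega, k2.symm, IW.edge hy k2⟩
  have hi : ∀ y, (∃ z, G.Adj y z) → d y = 3 → 2 ≤ (Kc G S c y).card := by
    intro y hy h0
    obtain ⟨y1, y2, hn, a1, a2, n1, n2⟩ := two_of h3 hy (p y)
    have hcr : ∀ z, G.Adj y z → z ≠ p y → c z ≠ c y := by
      intro z hz hzp
      rcases hcross y z hz hzp with h | ⟨e, h5⟩
      · exact h
      · have h6 := (hchild y z hz e h5).1
        have h7 := F.le z ⟨_, hz.symm⟩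
        omega
    exact F.Kc_two (by omega) h12 a1 a2 hn (hcr y1 a1 n1) (hcr y2 a2 n2)
  have hii : ∀ w, (∃ z, G.Adj w z) → d w = 2 → 1 ≤ (Kc G S c w).card := by
    intro w hw h0
    by_contra hcon
    have hK0 : Kc G S c w = ∅ := card_eq_zero.1 (by omega)
    obtain ⟨y1, y2, hn, a1, a2, n1, n2⟩ := two_of h3 hw (p w)
    have hcr : ∀ z, G.Adj w z → z ≠ p w → (w = p z ∧ 0 < d z) := by
      intro z hz hzp
      rcases hcross w z hz hzp with h | h
      · exfalso
        have : c z ∈ Kc G S c w := mem_Kc.2 ⟨F.mem z ⟨_, hz.symm⟩, h, z, hz, rfl⟩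
        rw [hK0] at this
        exact notMem_empty _ this
      · exact h
    obtain ⟨e1, f1⟩ := hcr y1 a1 n1
    obtain ⟨e2, f2⟩ := hcr y2 a2 n2
    obtain ⟨g1, c1, w1⟩ := hchild w y1 a1 e1 f1
    obtain ⟨g2, c2, w2⟩ := hchild w y2 a2 e2 f2
    have k1 := hi y1 ⟨_, a1.symm⟩ (by omega)
    have k2 := hi y2 ⟨_, a2.symm⟩ (by omega)
    have k3 := F.Kc_disj h12 (c1.trans c2.symm) hn (w1.symm.trans w2) (by omega)
    have k4 := card_union_of_disjoint k3
    have k5 : Kc G S c y1 ∪ Kc G S c y2 ⊆ S.erase (c w) := by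
      refine union_subset ?_ ?_
      · rw [← c1]; exact Kc_sub _
      · rw [← c2]; exact Kc_sub _
    have k6 := card_le_card k5
    have k7 := hK3 w hw
    omega
  have hno : ∀ x, (∃ z, G.Adj x z) → d x ≤ 2 := by
    intro x hx
    by_contra hlt
    have hx3 : d x = 3 := by
      have := F.le x hx
      omega
    set w := p x with hw
    have xw := F.adj x hx (by omega)
    have dw := F.dp x hx (by omega)
    have cw := F.cp x hx (by omega)
    rw [← hw] at xw dw cw
    have hwn : ∃ z, G.Adj w z := ⟨_, xw.symm⟩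
    set a := p w with ha
    have wa := F.adj w hwn (by omega)
    have da := F.dp w hwn (by omega)
    have ca := F.cp w hwn (by omega)
    rw [← ha] at wa da ca
    have han : ∃ z, G.Adj a z := ⟨_, wa.symm⟩
    have Ixw : IW G c 1 x w := IW.edge xw cw.symm
    have Iwa : IW G c 1 w a := IW.edge wa ca.symm
    have kx := hi x hx hx3
    have kw := hii w hwn (by omega)
    have dis1 := F.Kc_disj h12 cw.symm xw.ne Ixw (by omega)
    have k1 := card_union_of_disjoint dis1
    have sub1 : Kc G S c x ∪ Kc G S c w ⊆ S.erase (c x) := by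
      refine union_subset (Kc_sub _) ?_
      rw [← cw]; exact Kc_sub _
    -- a further class
    have key : ∀ z, (∃ t, G.Adj z t) → c z = c x → z ≠ x → z ≠ w → IW G c 3 x z → IW G c 2 w z →
        1 ≤ (Kc G S c z).card → False := by
      intro z hz hcz hzx hzw I1 I2 hk
      have d1 := F.Kc_disj h12 hcz.symm hzx.symm I1 (by omega)
      have d2 := F.Kc_disj h12 (cw.trans hcz.symm) hzw.symm I2 (by omega)
      have d3 : Disjoint (Kc G S c x ∪ Kc G S c w) (Kc G S c z) :=
        disjoint_union_left.2 ⟨d1, d2⟩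
      have k2 := card_union_of_disjoint d3
      have k3 : (Kc G S c x ∪ Kc G S c w) ∪ Kc G S c z ⊆ S.erase (c x) := by
        refine union_subset sub1 ?_
        rw [← hcz]; exact Kc_sub _
      have k4 := card_le_card k3
      have k5 := hK3 x hx
      omega
    obtain ⟨z, hz, hz1, hz2⟩ := one_of h3 han (p a) w
    have hax : a ≠ x := fun h => by rw [h] at da; omega
    rcases hcross a z hz hz1 with h | ⟨e, h5⟩
    · refine key a han (ca.trans cw) hax wa.ne.symm ((Ixw.trans Iwa).mono (by omega))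
        (Iwa.mono (by omega)) ?_
      have : c z ∈ Kc G S c a := mem_Kc.2 ⟨F.mem z ⟨_, hz.symm⟩, h, z, hz, rfl⟩
      exact card_pos.2 ⟨_, this⟩
    · obtain ⟨g1, c1, w1⟩ := hchild a z hz e h5
      have hzx : z ≠ x := fun h => by rw [h] at g1; omega
      exact key z ⟨_, hz.symm⟩ (c1.trans (ca.trans cw)) hzx hz2
        (((Ixw.trans Iwa).trans w1).mono (by omega)) ((Iwa.trans w1).mono (by omega))
        (hii z ⟨_, hz.symm⟩ (by omega))
  have F2 : Forest G 2 S d c p := ⟨hno, F.adj, F.dp, F.cp, F.zero, F.mem, F.root⟩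
  exact F2.two le_rfl hm h12 hg h3 hex (by omega)

end balls

end Pool.Agent.V11186.FV
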