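import Mathlib
import Pool.Agent.Y358.IN.Dirac

/-!
# Small sets of vertices span few edges in graphs of girth twelve; deletion of few vertices
-/

set_option autoImplicit false
set_option linter.unusedSectionVars false

namespace Pool.Agent.V11186.FV

open Finset Pool.Agent.TH676.Z Pool.Agent.Y335.FL Pool.Agent.Y358.IN

section dens

variable {V : Type} [Fintype V] [DecidableEq V]

/-- the number of neighbours in `U` -/
def dU (G : SimpleGraph V) [DecidableRel G.Adj] (U : Finset V) (x : V) : ℕ :=
  (U.filter (fun y => G.Adj x y)).card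

/-- **Density.** At most `125` vertices span less than `3/2` edges per vertex. -/
theorem dens (ha : St_ahl) (G : SimpleGraph V) [DecidableRel G.Adj] (hg : Girth G.Adj 12) :
    ∀ U : Finset V, U.Nonempty → U.card ≤ 125 → ∑ x ∈ U, dU G U x < 3 * U.card := by
  by_contra hcon
  push Not at hcon
  have hex : ∃ m, ∃ U : Finset V, U.card = m ∧ U.Nonempty ∧ U.card ≤ 125 ∧
      3 * U.card ≤ ∑ x ∈ U, dU G U x := by
    obtain ⟨U, h1, h2, h3⟩ := hcon
    exact ⟨_, U, rfl, h1, h2, h3⟩
  classical
  obtain ⟨U, hU, hne, h125, h3⟩ := Nat.find_spec hex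
  have hmin : ∀ U' : Finset V, U'.card < U.card → U'.Nonempty →
      ∑ x ∈ U', dU G U' x < 3 * U'.card := by
    intro U' h1 h2
    by_contra h4
    push Not at h4
    rw [hU] at h1
    exact Nat.find_min hex h1 ⟨U', rfl, h2, by omega, h4⟩
  have hdeg : ∀ v ∈ U, 2 ≤ dU G U v := by
    intro v hv
    by_contra hlt
    push Not at hlt
    have hsum : ∑ x ∈ U, dU G U x ≤ ∑ x ∈ U.erase v, dU G (U.erase v) x + 2 * dU G U v := by
      rw [← add_sum_erase _ _ hv]
      have h1 : ∀ x ∈ U.erase v, dU G U x = dU G (U.erase v) x + (if G.Adj v x then 1 else 0) := by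
        intro x hx
        unfold dU
        have h2 : U.filter (fun y => G.Adj x y) = (insert v (U.erase v)).filter
            (fun y => G.Adj x y) := by rw [insert_erase hv]
        rw [h2, filter_insert]
        by_cases h4 : G.Adj x v
        · rw [if_pos h4, if_pos h4.symm, card_insert_of_notMem]
          simp
        · rw [if_neg h4, if_neg (fun h => h4 h.symm), add_zero]
      rw [sum_congr rfl h1, sum_add_distrib]
      have h5 : ∑ x ∈ U.erase v, (if G.Adj v x then 1 else 0) = dU G U v := by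
        rw [sum_boole, Nat.cast_id]
        unfold dU
        congr 1
        ext x
        simp only [mem_filter, mem_erase]
        exact ⟨fun h => ⟨h.1.2, h.2⟩, fun h => ⟨⟨h.2.ne', h.1⟩, h.2⟩⟩
      rw [h5]
      omega
    by_cases h6 : (U.erase v).Nonempty
    · have h7 := hmin (U.erase v) (card_erase_lt_of_mem hv) h6
      have h8 := card_erase_of_mem hv
      have h9 : 0 < U.card := card_pos.2 hne
      omega
    · rw [not_nonempty_iff_eq_empty] at h6
      rw [h6, sum_empty] at hsum
      have h9 : 0 < U.card := card_pos.2 hne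
      omega
  let G' : SimpleGraph U :=
    { Adj := fun a b => G.Adj a b
      symm := ⟨fun a b (h : G.Adj a b) => h.symm⟩
      loopless := ⟨fun a h => G.loopless.irrefl _ h⟩ }
  have hGA : ∀ a b : U, G'.Adj a b ↔ G.Adj a b := fun a b => Iff.rfl
  haveI : Nonempty U := hne.to_subtype
  have hdegeq : ∀ a : U, G'.degree a = dU G U a := by
    intro a
    rw [← G'.card_neighborFinset_eq_degree]
    unfold dU
    refine card_bij (fun b _ => (b : V)) ?_ ?_ ?_
    · intro b hb
      rw [SimpleGraph.mem_neighborFinset] at hb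
      exact mem_filter.2 ⟨b.2, hb⟩
    · intro b _ c _ h
      exact Subtype.ext h
    · intro b hb
      obtain ⟨h1, h2⟩ := mem_filter.1 hb
      exact ⟨⟨b, h1⟩, by rw [SimpleGraph.mem_neighborFinset]; exact h2, rfl⟩
  have hahl := ha U G' (fun a => by rw [hdegeq]; exact hdeg a a.2) (by
    intro k hk v hv h
    exact hg k hk (fun i => (v i : V)) (fun i j hij => hv (Subtype.ext hij)) h)
  have hsum : ∑ a : U, (G'.degree a : ℝ) = 2 * (G'.edgeFinset.card : ℝ) := by
    exact_mod_cast G'.sum_degrees_eq_twice_card_edges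
  have hN : (Fintype.card U : ℝ) = (U.card : ℝ) := by rw [Fintype.card_coe]
  have hN0 : (0 : ℝ) < (U.card : ℝ) := by exact_mod_cast card_pos.2 hne
  have h2m : 3 * (U.card : ℝ) ≤ 2 * (G'.edgeFinset.card : ℝ) := by
    rw [← hsum]
    have h1 : ∑ a : U, (G'.degree a : ℝ) = ((∑ x ∈ U, dU G U x : ℕ) : ℝ) := by
      rw [Nat.cast_sum, ← sum_coe_sort U]
      exact sum_congr rfl fun a _ => by rw [hdegeq]
    rw [h1]
    exact_mod_cast h3
  rw [hN] at hahl
  have hx2 : 2 ≤ 2 * (G'.edgeFinset.card : ℝ) / (U.card : ℝ) - 1 := by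
    have : 3 ≤ 2 * (G'.edgeFinset.card : ℝ) / (U.card : ℝ) := by rwa [le_div_iff₀ hN0]
    linarith
  have h126 := poly2 hx2 hahl
  have h5 : (U.card : ℝ) ≤ 125 := by exact_mod_cast h125
  nlinarith

/-- sets of any size with few edges leaving them -/
theorem choose_set (G : SimpleGraph V) [DecidableRel G.Adj] (R : Finset V) (D : ℕ) (hD : D ≤ 2)
    (hR : ∀ x ∈ R, dU G R x ≤ D) : ∀ T : ℕ, T ≤ R.card →
    ∃ R' ⊆ R, R'.card = T ∧ ∑ x ∈ R', dU G (R \ R') x ≤ D := by
  intro T
  induction T with
  | zero => exact fun _ => ⟨∅, empty_subset _, card_empty, by simp⟩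
  | succ T ih =>
    intro hT
    obtain ⟨R', hsub, hcard, hout⟩ := ih (by omega)
    have hmono : ∀ (y : V) (x : V), dU G (R \ insert y R') x ≤ dU G (R \ R') x := by
      intro y x
      refine card_le_card (filter_subset_filter _ ?_)
      exact sdiff_subset_sdiff (Subset.refl _) (subset_insert _ _)
    by_cases h0 : ∃ x0 ∈ R', ∃ y ∈ R \ R', G.Adj x0 y
    · obtain ⟨x0, hx0, y, hy, hadj⟩ := h0
      obtain ⟨hyR, hyR'⟩ := mem_sdiff.1 hy
      refine ⟨insert y R', insert_subset hyR hsub, by rw [card_insert_of_notMem hyR', hcard], ?_⟩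
      rw [sum_insert hyR']
      have h1 : dU G (R \ insert y R') y + 1 ≤ D := by
        refine le_trans ?_ (hR y hyR)
        unfold dU
        refine card_lt_card ⟨filter_subset_filter _ sdiff_subset, fun h => ?_⟩
        have h2 := h (mem_filter.2 ⟨hsub hx0, hadj.symm⟩)
        exact (mem_sdiff.1 (mem_filter.1 h2).1).2 (mem_insert_of_mem hx0)
      have h2 : ∑ x ∈ R', dU G (R \ insert y R') x + 1 ≤ ∑ x ∈ R', dU G (R \ R') x := by
        refine sum_lt_sum (fun x _ => hmono y x) ⟨x0, hx0, ?_⟩
        unfold dU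
        refine card_lt_card ⟨filter_subset_filter _
          (sdiff_subset_sdiff (Subset.refl _) (subset_insert _ _)), fun h => ?_⟩
        have h3 := h (mem_filter.2 ⟨hy, hadj⟩)
        exact (mem_sdiff.1 (mem_filter.1 h3).1).2 (mem_insert_self _ _)
      omega
    · obtain ⟨y, hy⟩ : (R \ R').Nonempty := by
        apply card_pos.1
        rw [card_sdiff_of_subset hsub]
        omega
      obtain ⟨hyR, hyR'⟩ := mem_sdiff.1 hy
      refine ⟨insert y R', insert_subset hyR hsub, by rw [card_insert_of_notMem hyR', hcard], ?_⟩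
      rw [sum_insert hyR']
      have h1 : dU G (R \ insert y R') y ≤ D :=
        le_trans (card_le_card (filter_subset_filter _ sdiff_subset)) (hR y hyR)
      have h2 : ∑ x ∈ R', dU G (R \ insert y R') x = 0 := by
        refine sum_eq_zero fun x hx => ?_
        unfold dU
        rw [card_eq_zero, filter_eq_empty_iff]
        intro z hz hadj
        push Not at h0
        exact h0 x hx z (sdiff_subset_sdiff (Subset.refl _) (subset_insert _ _) hz) hadj
      omega

/-- **Deletion of few vertices.** -/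
theorem del_main (ha : St_ahl) (hm : St_moore) (G : SimpleGraph V) [DecidableRel G.Adj]
    (hg : Girth G.Adj 12) (h3 : Three G.Adj) (hex : ∃ x y, G.Adj x y) (S : Finset V) (D k : ℕ)
    (hD : D ≤ 2) (hk : D = 0 ∧ k ≤ 62 ∨ D = 1 ∧ k ≤ 49 ∨ D = 2 ∧ k ≤ 30) (hS : S.card ≤ k)
    (hR : ∀ x ∉ S, dU G Sᶜ x ≤ D) : False := by
  classical
  set B : Finset V := univ.filter (fun v => ∃ y, G.Adj v y) with hB
  have hB126 : 126 ≤ B.card := hm V G.Adj (fun a b h => h.symm)
    (fun a h => G.loopless.irrefl _ h) hg h3 hex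
  set R : Finset V := B \ S with hRdef
  have hR1 : ∀ x ∈ R, dU G R x ≤ D := by
    intro x hx
    refine le_trans (card_le_card (filter_subset_filter _ ?_)) (hR x (mem_sdiff.1 hx).2)
    intro y hy
    exact mem_compl.2 (mem_sdiff.1 hy).2
  have hBR : B.card ≤ S.card + R.card := by
    have h1 : B ⊆ S ∪ R := by
      intro x hx
      by_cases h : x ∈ S
      · exact mem_union_left _ h
      · exact mem_union_right _ (mem_sdiff.2 ⟨hx, h⟩)
    exact (card_le_card h1).trans (card_union_le _ _)
  have hdeg : ∀ x ∈ R, 3 ≤ dU G univ x := by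
    intro x hx
    obtain ⟨y, hy⟩ := (mem_filter.1 (mem_sdiff.1 hx).1).2
    obtain ⟨a, b, c, h1, h2, h4, n1, n2, n3⟩ := h3 x y hy
    have h5 : ({a, b, c} : Finset V) ⊆ univ.filter (fun y => G.Adj x y) := by
      intro z hz
      simp only [mem_insert, mem_singleton] at hz
      rw [mem_filter]
      rcases hz with rfl | rfl | rfl
      · exact ⟨mem_univ _, h1⟩
      · exact ⟨mem_univ _, h2⟩
      · exact ⟨mem_univ _, h4⟩
    have h6 : ({a, b, c} : Finset V).card = 3 := by
      rw [card_insert_of_notMem, card_pair n3]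
      simp [n1, n2]
    rw [← h6]
    exact card_le_card h5
  -- the size of the subset
  obtain ⟨T, hT1, hT2, hT3, hT0⟩ : ∃ T : ℕ, 3 * S.card + D ≤ (3 - D) * T ∧ S.card + T ≤ 125 ∧
      T ≤ R.card ∧ 0 < T := by
    rcases hk with ⟨rfl, hk⟩ | ⟨rfl, hk⟩ | ⟨rfl, hk⟩
    · exact ⟨S.card + 1, by omega, by omega, by omega, by omega⟩
    · exact ⟨(3 * S.card + 2) / 2, by omega, by omega, by omega, by omega⟩
    · exact ⟨3 * S.card + 2, by omega, by omega, by omega, by omega⟩
  obtain ⟨R', hsub, hcard, hout⟩ := choose_set G R D hD hR1 T hT3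
  have hdisj : Disjoint S R' := by
    rw [disjoint_right]
    intro x hx
    exact (mem_sdiff.1 (hsub hx)).2
  set U : Finset V := S ∪ R' with hU
  have hUc : U.card = S.card + T := by rw [hU, card_union_of_disjoint hdisj, hcard]
  have hUne : U.Nonempty := by
    rw [← card_pos, hUc]
    omega
  have hd := dens ha G hg U hUne (by rw [hUc]; exact hT2)
  -- counting
  have h1 : ∑ x ∈ U, dU G U x = ∑ x ∈ S, dU G U x + ∑ x ∈ R', dU G U x := by
    rw [hU, sum_union hdisj]
  have h2 : ∑ x ∈ R', dU G S x ≤ ∑ x ∈ S, dU G U x := by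
    have h5 : ∑ x ∈ R', dU G S x = ∑ x ∈ S, dU G R' x := by
      unfold dU
      simp only [card_filter]
      rw [sum_comm]
      refine sum_congr rfl fun x _ => sum_congr rfl fun y _ => ?_
      exact if_congr (G.adj_comm _ _) rfl rfl
    rw [h5]
    exact sum_le_sum fun x _ => card_le_card (filter_subset_filter _ subset_union_right)
  have h4 : ∀ x ∈ R', 6 ≤ dU G U x + dU G S x + dU G R x + dU G (R \ R') x := by
    intro x hx
    have k1 := hdeg x (hsub hx)
    have k2 : dU G univ x ≤ dU G S x + dU G R x := by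
      unfold dU
      rw [← card_union_of_disjoint]
      · refine card_le_card fun y hy => ?_
        have hxy := (mem_filter.1 hy).2
        by_cases h : y ∈ S
        · exact mem_union_left _ (mem_filter.2 ⟨h, hxy⟩)
        · refine mem_union_right _ (mem_filter.2 ⟨mem_sdiff.2 ⟨?_, h⟩, hxy⟩)
          exact mem_filter.2 ⟨mem_univ _, x, hxy.symm⟩
      · rw [disjoint_left]
        intro y hy hy'
        exact (mem_sdiff.1 (mem_filter.1 hy').1).2 (mem_filter.1 hy).1
    have k3 : dU G univ x ≤ dU G U x + dU G (R \ R') x := by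
      unfold dU
      refine le_trans (card_le_card fun y hy => ?_) (card_union_le _ _)
      have hxy := (mem_filter.1 hy).2
      by_cases h : y ∈ U
      · exact mem_union_left _ (mem_filter.2 ⟨h, hxy⟩)
      · refine mem_union_right _ (mem_filter.2 ⟨mem_sdiff.2 ⟨mem_sdiff.2 ⟨?_, ?_⟩, ?_⟩, hxy⟩)
        · exact mem_filter.2 ⟨mem_univ _, x, hxy.symm⟩
        · exact fun h' => h (mem_union_left _ h')
        · exact fun h' => h (mem_union_right _ h')
    omega
  have h5 : 6 * T ≤ ∑ x ∈ R', (dU G U x + dU G S x + dU G R x + dU G (R \ R') x) := by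
    have := sum_le_sum h4
    rw [sum_const, hcard, smul_eq_mul] at this
    omega
  rw [sum_add_distrib, sum_add_distrib, sum_add_distrib] at h5
  have h6 : ∑ x ∈ R', dU G R x ≤ D * T := by
    have := sum_le_sum (s := R') fun x hx => hR1 x (hsub hx)
    rw [sum_const, hcard, smul_eq_mul] at this
    rw [mul_comm]
    exact this
  rw [h1, hUc] at hd
  rcases hk with ⟨rfl, hk⟩ | ⟨rfl, hk⟩ | ⟨rfl, hk⟩ <;> omega

end dens

section cls

variable {V E : Type} [Fintype V] [DecidableEq V] [Fintype E] [DecidableEq E]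

/-- the proper edges at `x` with both ends outside `S` -/
def An (src dst : E → V) (S : Finset V) (x : V) : Finset E :=
  univ.filter (fun e => src e ∉ S ∧ dst e ∉ S ∧ src e ≠ dst e ∧ (src e = x ∨ dst e = x))

theorem mem_An {src dst : E → V} {S : Finset V} {x : V} {e : E} : e ∈ An src dst S x ↔
    src e ∉ S ∧ dst e ∉ S ∧ src e ≠ dst e ∧ (src e = x ∨ dst e = x) := by simp [An]

/-- deletion of at most `k` vertices leaves maximum degree at most `D` -/
def ClD (k D : ℕ) (src dst : E → V) : Prop := ∃ S : Finset V, S.card ≤ k ∧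
  ∀ x ∉ S, (An src dst S x).card ≤ D

theorem ccD (k D : ℕ) (hD : D ≤ 2) : CC (V := V) (E := E) (ClD k D) := by
  rintro src dst e ⟨S, hS, hx⟩ hne
  refine ⟨S.image (ctr (src e) (dst e)), card_image_le.trans hS, fun x hxS => ?_⟩
  have himg : ∀ y : V, ctr (src e) (dst e) y ∉ S.image (ctr (src e) (dst e)) → y ∉ S :=
    fun y h h' => h (mem_image_of_mem _ h')
  have hcu : ctr (src e) (dst e) (src e) = src e := by
    unfold ctr
    rw [if_neg hne]
  have hcv : ctr (src e) (dst e) (dst e) = src e := by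
    unfold ctr
    rw [if_pos rfl]
  have hback : ∀ y z : V, z ≠ src e → ctr (src e) (dst e) y = z → y = z := by
    intro y z hz hy
    unfold ctr at hy
    split_ifs at hy with h
    · exact absurd hy.symm hz
    · exact hy
  by_cases hxu : x = src e
  · subst hxu
    have hu : src e ∉ S := fun h => hxS (mem_image.2 ⟨_, h, hcu⟩)
    have hv : dst e ∉ S := fun h => hxS (mem_image.2 ⟨_, h, hcv⟩)
    have h1 : An (ctr (src e) (dst e) ∘ src) (ctr (src e) (dst e) ∘ dst)
        (S.image (ctr (src e) (dst e))) (src e) ⊆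
        (An src dst S (src e) ∪ An src dst S (dst e)).erase e := by
      intro d hd
      obtain ⟨a, b, c, h⟩ := mem_An.1 hd
      have h2 : src d ≠ dst d := fun h => c (by simp [h])
      have h3 : ∀ y : V, ctr (src e) (dst e) y = src e → y = src e ∨ y = dst e := by
        intro y hy
        unfold ctr at hy
        split_ifs at hy with h
        · exact Or.inr h
        · exact Or.inl hy
      rw [mem_erase, mem_union, mem_An, mem_An]
      refine ⟨?_, ?_⟩
      · rintro rfl
        exact c (by simp only [Function.comp_apply]; rw [hcu, hcv])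
      · rcases h with h | h
        · rcases h3 _ h with h4 | h4
          · exact Or.inl ⟨himg _ a, himg _ b, h2, Or.inl h4⟩
          · exact Or.inr ⟨himg _ a, himg _ b, h2, Or.inl h4⟩
        · rcases h3 _ h with h4 | h4
          · exact Or.inl ⟨himg _ a, himg _ b, h2, Or.inr h4⟩
          · exact Or.inr ⟨himg _ a, himg _ b, h2, Or.inr h4⟩
    have he1 : e ∈ An src dst S (src e) := mem_An.2 ⟨hu, hv, hne, Or.inl rfl⟩
    have he2 : e ∈ An src dst S (dst e) := mem_An.2 ⟨hu, hv, hne, Or.inr rfl⟩
    have h2 := card_le_card h1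
    rw [card_erase_of_mem (mem_union_left _ he1)] at h2
    have h3 : 0 < (An src dst S (src e) ∩ An src dst S (dst e)).card :=
      card_pos.2 ⟨e, mem_inter.2 ⟨he1, he2⟩⟩
    have h4 : 0 < (An src dst S (src e) ∪ An src dst S (dst e)).card :=
      card_pos.2 ⟨e, mem_union_left _ he1⟩
    have h5 := card_union_add_card_inter (An src dst S (src e)) (An src dst S (dst e))
    have h6 := hx _ hu
    have h7 := hx _ hv
    omega
  · by_cases hxS' : x ∈ S
    · -- then `x` is the contracted vertex, which is isolated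
      have hxv : x = dst e := by
        by_contra h
        apply hxS
        refine mem_image.2 ⟨x, hxS', ?_⟩
        unfold ctr
        rw [if_neg h]
      have : An (ctr (src e) (dst e) ∘ src) (ctr (src e) (dst e) ∘ dst)
        (S.image (ctr (src e) (dst e))) x = ∅ := by
        rw [eq_empty_iff_forall_notMem]
        intro d hd
        obtain ⟨a, b, c, h⟩ := mem_An.1 hd
        rcases h with h | h
        · exact himg _ a ((hback _ _ hxu h).symm ▸ hxS')
        · exact himg _ b ((hback _ _ hxu h).symm ▸ hxS')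
      rw [this, card_empty]
      exact Nat.zero_le _
    · refine le_trans (card_le_card fun d hd => ?_) (hx x hxS')
      obtain ⟨a, b, c, h⟩ := mem_An.1 hd
      refine mem_An.2 ⟨himg _ a, himg _ b, fun h => c (by simp [h]), ?_⟩
      rcases h with h | h
      · exact Or.inl (hback _ _ hxu h)
      · exact Or.inr (hback _ _ hxu h)

/-- **Main step.** -/
theorem flow_of_ClD (hc : St_contract) (ha : St_ahl) (hm : St_moore) (k D : ℕ) (hD : D ≤ 2)
    (hk : D = 0 ∧ k ≤ 62 ∨ D = 1 ∧ k ≤ 49 ∨ D = 2 ∧ k ≤ 30)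
    (src dst : E → V) (hcl : ClD k D src dst) (hbr : Br src dst ∅ ∅) : FlowOn src dst ∅ ∅ := by
  classical
  by_contra hn
  obtain ⟨s, d, ⟨S, hS, hx⟩, hM⟩ := exists_minC (ccD k D hD) src dst hcl hbr hn
  have h3 := threeC hc hM
  have hgi := girthC hc hM
  by_cases hl : ∀ e, s e = d e
  · exact hM.nf (flow_of_loops hl)
  push Not at hl
  obtain ⟨e, he⟩ := hl
  let G : SimpleGraph V :=
    { Adj := Adj s d
      symm := ⟨fun a b h => GiAux.adj_symm h⟩
      loopless := ⟨fun a h => h.1 rfl⟩ }
  refine del_main ha hm G hgi h3 ⟨s e, d e, he, e, Or.inl ⟨rfl, rfl⟩⟩ S D k hD hk hS ?_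
  intro x hxS
  refine le_trans ?_ (hx x hxS)
  unfold dU
  have hch : ∀ y ∈ Sᶜ.filter (fun y => G.Adj x y), ∃ f : E, Jn s d f x y := by
    intro y hy
    obtain ⟨-, f, hf⟩ := (mem_filter.1 hy).2
    exact ⟨f, hf⟩
  haveI : Nonempty E := ⟨e⟩
  choose! ed hed using hch
  refine card_le_card_of_injOn ed ?_ ?_
  · intro y hy
    have hj := hed y hy
    obtain ⟨h1, h2⟩ := mem_filter.1 hy
    have hne : x ≠ y := h2.1
    rw [mem_compl] at h1
    rcases hj with ⟨a, b⟩ | ⟨a, b⟩
    · exact mem_coe.2 (mem_An.2 ⟨by rw [a]; exact hxS, by rw [b]; exact h1, by rw [a, b]; exact hne,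
        Or.inl a⟩)
    · exact mem_coe.2 (mem_An.2 ⟨by rw [a]; exact h1, by rw [b]; exact hxS,
        by rw [a, b]; exact hne.symm, Or.inr b⟩)
  · intro y hy z hz hyz
    have hj := hed y hy
    have hj' := hed z hz
    rw [← hyz] at hj'
    have n1 : x ≠ y := (mem_filter.1 hy).2.1
    have n2 : x ≠ z := (mem_filter.1 hz).2.1
    rcases hj with ⟨a, b⟩ | ⟨a, b⟩ <;> rcases hj' with ⟨a', b'⟩ | ⟨a', b'⟩
    · exact b.symm.trans b'
    · exact absurd (b'.symm.trans b) n1
    · exact absurd (b.symm.trans b') (fun h => n2 h)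
    · exact a.symm.trans a'

end cls

end Pool.Agent.V11186.FV
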