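import Mathlib
import Pool.Agent.Y358.IN.Dirac2
import Pool.Agent.V11186.FV.Dens
import Pool.Agent.V11186.FV.Balls

/-!
# Multiple domination
-/

set_option autoImplicit false
set_option linter.unusedSectionVars false

namespace Pool.Agent.V11186.FV

open Finset Pool.Agent.TH676.Z Pool.Agent.Y335.FL Pool.Agent.Y358.IN

section dom

variable {V : Type} [Fintype V] [DecidableEq V]

theorem dU_insert_sum (G : SimpleGraph V) [DecidableRel G.Adj] (U : Finset V) (v : V)
    (hv : v ∉ U) : ∑ x ∈ insert v U, dU G (insert v U) x = ∑ x ∈ U, dU G U x + 2 * dU G U v := by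
  rw [sum_insert hv]
  have h0 : dU G (insert v U) v = dU G U v := by
    unfold dU
    rw [filter_insert, if_neg (G.loopless.irrefl v)]
  have h1 : ∀ x ∈ U, dU G (insert v U) x = dU G U x + (if G.Adj v x then 1 else 0) := by
    intro x hx
    unfold dU
    rw [filter_insert]
    by_cases h4 : G.Adj x v
    · rw [if_pos h4, if_pos h4.symm, card_insert_of_notMem]
      exact fun h => hv (mem_filter.1 h).1
    · rw [if_neg h4, if_neg (fun h => h4 h.symm), add_zero]
  rw [h0, sum_congr rfl h1, sum_add_distrib]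
  have h5 : ∑ x ∈ U, (if G.Adj v x then 1 else 0) = dU G U v := by
    rw [sum_boole, Nat.cast_id]
    rfl
  rw [h5]
  ring

/-- density with a surplus -/
theorem dens_gen (ha : St_ahl) (G : SimpleGraph V) [DecidableRel G.Adj] (hg : Girth G.Adj 12)
    (δ : ℕ) (hδ : δ ≤ 1) : ∀ U : Finset V, U.Nonempty → 3 * U.card + δ ≤ ∑ x ∈ U, dU G U x →
    126 + δ ≤ U.card := by
  classical
  by_contra hcon
  push Not at hcon
  have hex : ∃ m, ∃ U : Finset V, U.card = m ∧ U.Nonempty ∧ U.card < 126 + δ ∧
      3 * U.card + δ ≤ ∑ x ∈ U, dU G U x := by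
    obtain ⟨U, h1, h2, h3⟩ := hcon
    exact ⟨_, U, rfl, h1, h3, h2⟩
  obtain ⟨U, hU, hne, h125, h3⟩ := Nat.find_spec hex
  have hmin : ∀ U' : Finset V, U'.card < U.card → U'.Nonempty →
      ∑ x ∈ U', dU G U' x < 3 * U'.card + δ := by
    intro U' h1 h2
    by_contra h4
    push Not at h4
    rw [hU] at h1
    exact Nat.find_min hex h1 ⟨U', rfl, h2, by omega, h4⟩
  have hdeg : ∀ v ∈ U, 2 ≤ dU G U v := by
    intro v hv
    by_contra hlt
    push Not at hlt
    have hsum := dU_insert_sum G (U.erase v) v (notMem_erase v U)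
    rw [insert_erase hv] at hsum
    have hle : dU G (U.erase v) v ≤ dU G U v :=
      card_le_card (filter_subset_filter _ (erase_subset _ _))
    by_cases h6 : (U.erase v).Nonempty
    · have h7 := hmin (U.erase v) (card_erase_lt_of_mem hv) h6
      have h8 := card_erase_of_mem hv
      have h9 : 0 < U.card := card_pos.2 hne
      omega
    · rw [not_nonempty_iff_eq_empty] at h6
      rw [h6, sum_empty] at hsum
      have h9 : 0 < U.card := card_pos.2 hne
      have h10 : dU G ∅ v = 0 := by simp [dU]
      omega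
  let G' : SimpleGraph U :=
    { Adj := fun a b => G.Adj a b
      symm := ⟨fun a b (h : G.Adj a b) => h.symm⟩
      loopless := ⟨fun a h => G.loopless.irrefl _ h⟩ }
  haveI : Nonempty U := hne.to_subtype
  have hdegeq : ∀ a : U, G'.degree a = dU G U a := by
    intro a
    rw [← G'.card_neighborFinset_eq_degree]
    unfold dU
    refine card_bij (fun b _ => (b : V)) ?_ ?_ ?_
    · intro b hb
      rw [SimpleGraph.mem_neighborFinset] at hb
      exact mem_filter.2 ⟨b.2, hb⟩
    · intro b _ c _ h
      exact Subtype.ext h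
    · intro b hb
      obtain ⟨h1, h2⟩ := mem_filter.1 hb
      exact ⟨⟨b, h1⟩, by rw [SimpleGraph.mem_neighborFinset]; exact h2, rfl⟩
  have hahl := ha U G' (fun a => by rw [hdegeq]; exact hdeg a a.2) (by
    intro k hk v hv h
    exact hg k hk (fun i => (v i : V)) (fun i j hij => hv (Subtype.ext hij)) h)
  have hsum : ∑ a : U, (G'.degree a : ℝ) = 2 * (G'.edgeFinset.card : ℝ) := by
    exact_mod_cast G'.sum_degrees_eq_twice_card_edges
  have hN : (Fintype.card U : ℝ) = (U.card : ℝ) := by rw [Fintype.card_coe]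
  have hN0 : (0 : ℝ) < (U.card : ℝ) := by exact_mod_cast card_pos.2 hne
  have h2m : 3 * (U.card : ℝ) + δ ≤ 2 * (G'.edgeFinset.card : ℝ) := by
    rw [← hsum]
    have h1 : ∑ a : U, (G'.degree a : ℝ) = ((∑ x ∈ U, dU G U x : ℕ) : ℝ) := by
      rw [Nat.cast_sum, ← sum_coe_sort U]
      exact sum_congr rfl fun a _ => by rw [hdegeq]
    rw [h1]
    exact_mod_cast h3
  rw [hN] at hahl
  set M : ℝ := 2 * (G'.edgeFinset.card : ℝ) with hM
  have hδ0 : (0 : ℝ) ≤ δ := Nat.cast_nonneg _
  have hx3 : 3 ≤ M / (U.card : ℝ) := by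
    rw [le_div_iff₀ hN0]
    linarith
  have h126 := poly2 (show 2 ≤ M / (U.card : ℝ) - 1 by linarith) hahl
  rcases Nat.eq_zero_or_pos δ with h0 | h0
  · subst h0
    have h5 : (U.card : ℝ) ≤ 125 := by exact_mod_cast (show U.card ≤ 125 by omega)
    linarith
  · have h1 : δ = 1 := by omega
    subst h1
    have h5 : (U.card : ℝ) ≤ 126 := by exact_mod_cast (show U.card ≤ 126 by omega)
    have h6 : 3 < M / (U.card : ℝ) := by
      rw [lt_div_iff₀ hN0]
      push_cast at h2m
      linarith
    linarith

/-- the set-up for the domination results -/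
structure Dm (G : SimpleGraph V) [DecidableRel G.Adj] (B S : Finset V) (j : ℕ) : Prop where
  mB : ∀ x, x ∈ B ↔ ∃ y, G.Adj x y
  hj : ∀ x ∈ B \ S, j ≤ dU G S x
  deg : ∀ x ∈ B, 3 ≤ dU G univ x

variable {G : SimpleGraph V} [DecidableRel G.Adj] {B S : Finset V} {j : ℕ}

theorem sum_swap (X Y : Finset V) : ∑ x ∈ X, dU G Y x = ∑ x ∈ Y, dU G X x := by
  unfold dU
  simp only [card_filter]
  rw [sum_comm]
  refine sum_congr rfl fun x _ => sum_congr rfl fun y _ => ?_
  exact if_congr (G.adj_comm _ _) rfl rfl

/-- edges spanned by `S ∪ R'` -/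
theorem span_ge (R' : Finset V) (hd : Disjoint S R') :
    2 * ∑ x ∈ R', dU G S x + ∑ x ∈ R', dU G R' x ≤ ∑ x ∈ S ∪ R', dU G (S ∪ R') x := by
  rw [sum_union hd]
  have h1 : ∑ x ∈ R', dU G S x ≤ ∑ x ∈ S, dU G (S ∪ R') x := by
    rw [sum_swap]
    exact sum_le_sum fun x _ => card_le_card (filter_subset_filter _ subset_union_right)
  have h2 : ∑ x ∈ R', dU G S x + ∑ x ∈ R', dU G R' x ≤ ∑ x ∈ R', dU G (S ∪ R') x := by
    rw [← sum_add_distrib]
    refine sum_le_sum fun x _ => ?_
    unfold dU
    rw [filter_union, card_union_of_disjoint (disjoint_filter_filter hd)]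
  omega

/-- every vertex outside `S` has three neighbours in `S` -/
theorem Dm.three (D : Dm G B S 3) (ha : St_ahl) (hg : Girth G.Adj 12) (hB : 126 ≤ B.card)
    (hS : S.card ≤ 62) : False := by
  have h1 : B.card ≤ S.card + (B \ S).card := by
    have := card_le_card (show B ⊆ S ∪ (B \ S) by
      intro x hx
      by_cases h : x ∈ S
      · exact mem_union_left _ h
      · exact mem_union_right _ (mem_sdiff.2 ⟨hx, h⟩))
    exact this.trans (card_union_le _ _)
  obtain ⟨R', hsub, hcard⟩ := exists_subset_card_eq (show 63 ≤ (B \ S).card by omega)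
  have hd : Disjoint S R' := by
    rw [disjoint_right]
    intro x hx
    exact (mem_sdiff.1 (hsub hx)).2
  have h2 := span_ge (G := G) R' hd
  have h3 : 3 * 63 ≤ ∑ x ∈ R', dU G S x := by
    have := sum_le_sum (s := R') fun x hx => D.hj x (hsub hx)
    rw [sum_const, hcard, smul_eq_mul] at this
    omega
  have hc : (S ∪ R').card = S.card + 63 := by rw [card_union_of_disjoint hd, hcard]
  have h4 := dens_gen ha G hg 0 (by omega) (S ∪ R') (by
    rw [← card_pos, hc]; omega) (by rw [hc]; omega)
  omega

/-- a large subset with many edges -/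
theorem Dm.pairs (D : Dm G B S 2) : ∀ t : ℕ, 2 * t ≤ (B \ S).card →
    ∃ R' ⊆ B \ S, R'.card = 2 * t ∧ 2 * t ≤ ∑ x ∈ R', dU G R' x +
      2 * (R'.filter (fun x => 3 ≤ dU G S x)).card := by
  intro t
  induction t with
  | zero => exact fun _ => ⟨∅, empty_subset _, by simp, by simp⟩
  | succ t ih =>
    intro ht
    obtain ⟨R', hsub, hcard, hW⟩ := ih (by omega)
    -- the effect of one more vertex
    have hins : ∀ (A : Finset V) (y : V), y ∉ A → ∑ x ∈ A, dU G A x +
        2 * (A.filter (fun x => 3 ≤ dU G S x)).card + 2 * dU G A y +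
        2 * (if 3 ≤ dU G S y then 1 else 0) ≤ ∑ x ∈ insert y A, dU G (insert y A) x +
        2 * ((insert y A).filter (fun x => 3 ≤ dU G S x)).card := by
      intro A y hy
      rw [dU_insert_sum G A y hy, filter_insert]
      by_cases h : 3 ≤ dU G S y
      · rw [if_pos h, if_pos h, card_insert_of_notMem (fun h' => hy (mem_filter.1 h').1)]
        omega
      · rw [if_neg h, if_neg h]
        omega
    have hne : ∀ A : Finset V, A.card < (B \ S).card → A ⊆ B \ S → ∃ y ∈ B \ S, y ∉ A := by
      intro A hA hAs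
      by_contra h
      push Not at h
      have := card_le_card (show B \ S ⊆ A from h)
      omega
    by_cases h1 : ∃ y ∈ B \ S, y ∉ R' ∧ (3 ≤ dU G S y ∨ 1 ≤ dU G R' y)
    · obtain ⟨y, hy, hyR, hy3⟩ := h1
      have c1 : (insert y R').card = 2 * t + 1 := by rw [card_insert_of_notMem hyR, hcard]
      obtain ⟨z, hz, hzR⟩ := hne (insert y R') (by omega) (insert_subset hy hsub)
      have k1 := hins R' y hyR
      have k2 := hins (insert y R') z hzR
      refine ⟨insert z (insert y R'), insert_subset hz (insert_subset hy hsub), by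
        rw [card_insert_of_notMem hzR]; omega, ?_⟩
      rcases hy3 with h | h
      · rw [if_pos h] at k1
        omega
      · omega
    · push Not at h1
      obtain ⟨y, hy, hyR⟩ := hne R' (by omega) hsub
      obtain ⟨h2, h3⟩ := h1 y hy hyR
      have hdeg := D.deg y (mem_sdiff.1 hy).1
      -- a neighbour outside `S`
      obtain ⟨z, hz, hzS⟩ : ∃ z, G.Adj y z ∧ z ∉ S := by
        by_contra h
        push Not at h
        have : dU G univ y ≤ dU G S y := by
          refine card_le_card fun z hz => ?_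
          have := (mem_filter.1 hz).2
          exact mem_filter.2 ⟨h z this, this⟩
        omega
      have hzB : z ∈ B \ S := mem_sdiff.2 ⟨(D.mB z).2 ⟨y, hz.symm⟩, hzS⟩
      have hzR : z ∉ R' := by
        intro h
        have : 0 < dU G R' y := card_pos.2 ⟨z, mem_filter.2 ⟨h, hz⟩⟩
        omega
      have hzy : z ∉ insert y R' := by
        rw [mem_insert, not_or]
        exact ⟨hz.ne.symm, hzR⟩
      have k1 := hins R' y hyR
      have k2 := hins (insert y R') z hzy
      have k3 : 1 ≤ dU G (insert y R') z :=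
        card_pos.2 ⟨y, mem_filter.2 ⟨mem_insert_self _ _, hz.symm⟩⟩
      refine ⟨insert z (insert y R'), insert_subset hzB (insert_subset hy hsub), by
        rw [card_insert_of_notMem hzy, card_insert_of_notMem hyR]; omega, ?_⟩
      omega

/-- every vertex outside `S` has two neighbours in `S` -/
theorem Dm.two (D : Dm G B S 2) (ha : St_ahl) (hg : Girth G.Adj 12) (hB : 126 ≤ B.card)
    (hS : S.card ≤ 50) : False := by
  have h1 : B.card ≤ S.card + (B \ S).card := by
    have := card_le_card (show B ⊆ S ∪ (B \ S) by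
      intro x hx
      by_cases h : x ∈ S
      · exact mem_union_left _ h
      · exact mem_union_right _ (mem_sdiff.2 ⟨hx, h⟩))
    exact this.trans (card_union_le _ _)
  obtain ⟨R', hsub, hcard, hW⟩ := D.pairs 38 (by omega)
  have hd : Disjoint S R' := by
    rw [disjoint_right]
    intro x hx
    exact (mem_sdiff.1 (hsub hx)).2
  have h2 := span_ge (G := G) R' hd
  have h3 : 2 * 76 + (R'.filter (fun x => 3 ≤ dU G S x)).card ≤ ∑ x ∈ R', dU G S x := by
    have h4 : ∀ x ∈ R', 2 + (if 3 ≤ dU G S x then 1 else 0) ≤ dU G S x := by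
      intro x hx
      have := D.hj x (hsub hx)
      split_ifs with h
      · omega
      · omega
    have := sum_le_sum h4
    rw [sum_add_distrib, sum_const, hcard, smul_eq_mul, ← card_filter] at this
    omega
  have hc : (S ∪ R').card = S.card + 76 := by rw [card_union_of_disjoint hd, hcard]
  have h4 := dens_gen ha G hg 1 (by omega) (S ∪ R') (by
    rw [← card_pos, hc]; omega) (by rw [hc]; omega)
  omega

end dom

end Pool.Agent.V11186.FV
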