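import Mathlib
import Pool.Agent.V11186.FV.Dom

/-!
# Domination
-/

set_option autoImplicit false
set_option linter.unusedSectionVars false

namespace Pool.Agent.V11186.FV

open Finset Pool.Agent.TH676.Z Pool.Agent.Y335.FL Pool.Agent.Y358.IN

/-- the numerical contradiction -/
theorem numeric {n P b : ℝ} (hb0 : 0 ≤ b) (hb : b ≤ 31) (hn : 126 ≤ n) (h1 : 3 * n ≤ P)
    (h2 : 4 * (n - b) ≤ P) (h3 : 2 * P ≤ 4 * (n - b) + b ^ 2)
    (h4 : 2 * ∑ i ∈ range 6, (P / n - 1) ^ i ≤ n) : False := by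
  have hn0 : 0 < n := by linarith
  have hbb : b ^ 2 ≤ 31 * b := by nlinarith
  have hn272 : n ≤ 272 := by nlinarith
  set y : ℝ := P / n - 3 with hy
  have hPn : P = (y + 3) * n := by
    rw [hy]
    field_simp
    ring
  have hy0 : 0 ≤ y := by
    have : 3 ≤ P / n := by rwa [le_div_iff₀ hn0]
    linarith
  have e1 : P / n - 1 = 2 + y := by rw [hy]; ring
  rw [e1] at h4
  have h5 : 126 + 258 * y + 222 * y ^ 2 ≤ n := by
    refine le_trans ?_ h4
    rw [sum_range_succ, sum_range_succ, sum_range_succ, sum_range_succ, sum_range_succ,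
      sum_range_succ, sum_range_zero]
    have k3 : 0 ≤ y ^ 3 := by positivity
    have k4 : 0 ≤ y ^ 4 := by positivity
    have k5 : 0 ≤ y ^ 5 := by positivity
    nlinarith
  -- the lower bound for `y`
  set z : ℝ := 1 - 124 / n with hz
  have hzn : (1 - z) * n = 124 := by
    rw [hz]
    field_simp
    ring
  have hz0 : 0 ≤ z := by
    rw [hz]
    have : 124 / n ≤ 1 := by
      rw [div_le_one hn0]
      linarith
    linarith
  have hz1 : z ≤ 11 / 20 := by
    by_contra h
    push Not at h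
    nlinarith
  have hzy : z ≤ y := by
    have h6 : n - 124 ≤ y * n := by nlinarith
    have h7 : z * n = n - 124 := by nlinarith
    by_contra h
    push Not at h
    nlinarith
  have h8 : 126 + 258 * z + 222 * z ^ 2 ≤ n := by nlinarith
  have h9 : (1 - z) * (126 + 258 * z + 222 * z ^ 2) ≤ 124 := by
    rw [← hzn]
    exact mul_le_mul_of_nonneg_left h8 (by linarith)
  have h10 : 0 ≤ z * (11 / 20 - z) := mul_nonneg hz0 (by linarith)
  have h11 : 0 ≤ z ^ 2 * (11 / 20 - z) := mul_nonneg (by positivity) (by linarith)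
  nlinarith

section dom

variable {V : Type} [Fintype V] [DecidableEq V] {G : SimpleGraph V} {c : V → V} {S : Finset V}
  {d : V → ℕ} {p : V → V}

open Classical in
/-- Mantel's bound for the number of edges between the stars -/
theorem Forest.mantel (F : Forest G 1 S d c p)
    (h12 : ∀ (w : V) (c : G.Walk w w), c.IsCycle → 12 ≤ c.length) :
    2 * (univ.filter (fun q : V × V => G.Adj q.1 q.2 ∧ c q.1 ≠ c q.2)).card ≤
      (B0 G d).card ^ 2 := by
  let Q : SimpleGraph (B0 G d) :=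
    { Adj := fun a b => a ≠ b ∧ ∃ x y, G.Adj x y ∧ c x = a ∧ c y = b
      symm := ⟨fun a b h => ⟨h.1.symm, by
        obtain ⟨x, y, h1, h2, h3⟩ := h.2
        exact ⟨y, x, h1.symm, h3, h2⟩⟩⟩
      loopless := ⟨fun a h => h.1 rfl⟩ }
  have hQ : ∀ a b : B0 G d, Q.Adj a b ↔ a ≠ b ∧ ∃ x y, G.Adj x y ∧ c x = a ∧ c y = b :=
    fun a b => Iff.rfl
  have hfree : Q.CliqueFree (2 + 1) := by
    intro t ht
    rw [SimpleGraph.is3Clique_iff] at ht
    obtain ⟨a, b, e, hab, hae, hbe, -⟩ := ht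
    obtain ⟨nab, x1, y1, g1, a1, b1⟩ := hab
    obtain ⟨nae, x2, y2, g2, a2, b2⟩ := hae
    obtain ⟨nbe, x3, y3, g3, a3, b3⟩ := hbe
    have k1 := F.le x1 ⟨_, g1⟩
    have k2 := F.le x2 ⟨_, g2⟩
    have k3 := F.le x3 ⟨_, g3⟩
    have m1 := F.le y1 ⟨_, g1.symm⟩
    have m2 := F.le y2 ⟨_, g2.symm⟩
    have m3 := F.le y3 ⟨_, g3.symm⟩
    exact no_triangle h12 g1 g3 g2.symm
      (by rw [a1, a3]; exact fun h => nab (Subtype.ext h))
      (by rw [a3, b2]; exact fun h => nbe (Subtype.ext h))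
      (by rw [a1, b2]; exact fun h => nae (Subtype.ext h))
      (a2.trans a1.symm) (b1.trans a3.symm)
      (F.iw ⟨_, g2⟩ ⟨_, g1⟩ (a2.trans a1.symm))
      (F.iw ⟨_, g1.symm⟩ ⟨_, g3⟩ (b1.trans a3.symm))
      (F.iw ⟨_, g3.symm⟩ ⟨_, g2.symm⟩ (b3.trans b2.symm)) (by omega)
  have hturan := hfree.card_edgeFinset_le
  simp only [Fintype.card_coe] at hturan
  have hmod : ((B0 G d).card % 2).choose 2 = 0 := by
    have : (B0 G d).card % 2 < 2 := Nat.mod_lt _ (by norm_num)
    exact Nat.choose_eq_zero_of_lt this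
  rw [hmod] at hturan
  have h4e : 4 * Q.edgeFinset.card ≤ (B0 G d).card ^ 2 := by
    have h1 : (B0 G d).card ^ 2 - ((B0 G d).card % 2) ^ 2 ≤ (B0 G d).card ^ 2 := Nat.sub_le _ _
    omega
  have hX : (univ.filter (fun q : V × V => G.Adj q.1 q.2 ∧ c q.1 ≠ c q.2)).card ≤
      2 * Q.edgeFinset.card := by
    rw [← Q.sum_degrees_eq_twice_card_edges]
    have h1 : ∑ a, Q.degree a = (univ.filter (fun q : B0 G d × B0 G d => Q.Adj q.1 q.2)).card := by
      rw [card_filter, ← univ_product_univ, sum_product]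
      refine sum_congr rfl fun a _ => ?_
      rw [← Q.card_neighborFinset_eq_degree, ← card_filter]
      congr 1
      ext b
      simp
    rw [h1]
    -- the map
    have hmem : ∀ x, (∃ y, G.Adj x y) → c x ∈ B0 G d := fun x hx =>
      mem_B0.2 ⟨F.c_adj hx, F.d_c hx⟩
    refine card_le_card_of_surjOn (fun q : B0 G d × B0 G d =>
      if h : ∃ q' : V × V, (G.Adj q'.1 q'.2 ∧ c q'.1 ≠ c q'.2) ∧ c q'.1 = q.1 ∧ c q'.2 = q.2
      then h.choose else ((q.1 : V), (q.2 : V))) ?_
    intro q hq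
    obtain ⟨-, g1, g2⟩ := mem_filter.1 (mem_coe.1 hq)
    refine ⟨(⟨c q.1, hmem _ ⟨_, g1⟩⟩, ⟨c q.2, hmem _ ⟨_, g1.symm⟩⟩), ?_, ?_⟩
    · refine mem_coe.2 (mem_filter.2 ⟨mem_univ _, ?_⟩)
      exact ⟨fun h => g2 (Subtype.ext_iff.1 h), q.1, q.2, g1, rfl, rfl⟩
    · have hex : ∃ q' : V × V, (G.Adj q'.1 q'.2 ∧ c q'.1 ≠ c q'.2) ∧ c q'.1 = c q.1 ∧
          c q'.2 = c q.2 := ⟨q, ⟨g1, g2⟩, rfl, rfl⟩
      simp only
      rw [dif_pos hex]
      obtain ⟨⟨t1, t2⟩, t3, t4⟩ := hex.choose_spec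
      have a1 := F.le q.1 ⟨_, g1⟩
      have a2 := F.le q.2 ⟨_, g1.symm⟩
      have a3 := F.le hex.choose.1 ⟨_, t1⟩
      have a4 := F.le hex.choose.2 ⟨_, t1.symm⟩
      obtain ⟨k1, k2⟩ := cross_unique h12 t1 g1 t3 t4 t2 (F.iw ⟨_, t1⟩ ⟨_, g1⟩ t3)
        (F.iw ⟨_, t1.symm⟩ ⟨_, g1.symm⟩ t4) (by omega)
      exact Prod.ext k1 k2
  omega

/-- a dominating set has at least 32 elements -/
theorem Forest.one (F : Forest G 1 S d c p) (ha : St_ahl) (hm : St_moore)
    (h12 : ∀ (w : V) (c : G.Walk w w), c.IsCycle → 12 ≤ c.length) (hg : Girth G.Adj 12)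
    (h3 : Three G.Adj) (hex : ∃ x y, G.Adj x y) (hS : S.card ≤ 31) : False := by
  classical
  set B : Finset V := univ.filter (fun v => ∃ y, G.Adj v y) with hB
  have hmB : ∀ x, x ∈ B ↔ ∃ y, G.Adj x y := fun x => by simp [hB]
  have hB126 : 126 ≤ B.card := by
    have := hm V G.Adj (fun a b h => h.symm) (fun a h => G.loopless.irrefl _ h) hg h3 hex
    rw [hB]
    exact this
  set R : Finset V := B.filter (fun x => 0 < d x) with hR
  have hmR : ∀ x, x ∈ R ↔ (∃ y, G.Adj x y) ∧ 0 < d x := by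
    intro x
    rw [hR, mem_filter, hmB]
  have hsplit : (B0 G d).card + R.card = B.card := by
    rw [← card_filter_add_card_filter_not (s := B) (fun x => d x = 0)]
    congr 1
    · congr 1
      ext x
      rw [mem_B0, mem_filter, hmB]
    · congr 1
      refine filter_congr fun x _ => ?_
      exact Nat.pos_iff_ne_zero
  have hdeg : ∀ x ∈ B, 3 ≤ dU G univ x := by
    intro x hx
    obtain ⟨y, hy⟩ := (hmB x).1 hx
    obtain ⟨a, b, e, h1, h2, h4, n1, n2, n3⟩ := h3 x y hy
    have h5 : ({a, b, e} : Finset V) ⊆ univ.filter (fun y => G.Adj x y) := by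
      intro z hz
      simp only [mem_insert, mem_singleton] at hz
      rw [mem_filter]
      rcases hz with rfl | rfl | rfl
      · exact ⟨mem_univ _, h1⟩
      · exact ⟨mem_univ _, h2⟩
      · exact ⟨mem_univ _, h4⟩
    have h6 : ({a, b, e} : Finset V).card = 3 := by
      rw [card_insert_of_notMem, card_pair n3]
      simp [n1, n2]
    rw [← h6]
    exact card_le_card h5
  set P : ℕ := ∑ x ∈ B, dU G univ x with hP
  have p1 : 3 * B.card ≤ P := by
    have := sum_le_sum hdeg
    rw [sum_const, smul_eq_mul] at this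
    omega
  have hdis : Disjoint (B0 G d) R := by
    rw [disjoint_left]
    intro x hx hx'
    have h1 := (mem_B0.1 hx).2
    have h2 := ((hmR x).1 hx').2
    omega
  have hBeq : B = B0 G d ∪ R := by
    ext x
    rw [mem_union, mem_B0, hmR, hmB]
    constructor
    · intro h
      rcases Nat.eq_zero_or_pos (d x) with h0 | h0
      · exact Or.inl ⟨h, h0⟩
      · exact Or.inr ⟨h, h0⟩
    · rintro (h | h)
      · exact h.1
      · exact h.1
  have p2 : 4 * R.card ≤ P := by
    have h1 : R.card ≤ ∑ x ∈ B0 G d, dU G univ x := by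
      have hmap : ∀ y ∈ R, p y ∈ B0 G d := by
        intro y hy
        obtain ⟨h1, h2⟩ := (hmR y).1 hy
        have h4 := F.dp y h1 h2
        have h5 := F.le y h1
        exact mem_B0.2 ⟨⟨y, (F.adj y h1 h2).symm⟩, by omega⟩
      rw [card_eq_sum_card_fiberwise hmap]
      refine sum_le_sum fun x _ => card_le_card fun y hy => ?_
      obtain ⟨h1, h2⟩ := mem_filter.1 hy
      obtain ⟨h4, h5⟩ := (hmR y).1 h1
      refine mem_filter.2 ⟨mem_univ _, ?_⟩
      rw [← h2]
      exact (F.adj y h4 h5).symm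
    have h2 : 3 * R.card ≤ ∑ x ∈ R, dU G univ x := by
      have := sum_le_sum (s := R) fun x hx => hdeg x ((hmB x).2 ((hmR x).1 hx).1)
      rw [sum_const, smul_eq_mul] at this
      omega
    rw [hP, hBeq, sum_union hdis]
    omega
  have p3 : P ≤ 2 * R.card +
      (univ.filter (fun q : V × V => G.Adj q.1 q.2 ∧ c q.1 ≠ c q.2)).card := by
    have e1 : P ≤ (univ.filter (fun q : V × V => G.Adj q.1 q.2)).card := by
      rw [card_filter, ← univ_product_univ, sum_product]
      refine le_trans (sum_le_sum_of_subset (subset_univ B)) (sum_le_sum fun x _ => ?_)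
      unfold dU
      rw [card_filter]
    have h2 : (univ.filter (fun q : V × V => G.Adj q.1 q.2)).card ≤
        (univ.filter (fun q : V × V => G.Adj q.1 q.2 ∧ c q.1 = c q.2)).card +
        (univ.filter (fun q : V × V => G.Adj q.1 q.2 ∧ c q.1 ≠ c q.2)).card := by
      refine le_trans (card_le_card fun q hq => ?_) (card_union_le _ _)
      have hq' := (mem_filter.1 hq).2
      by_cases h : c q.1 = c q.2
      · exact mem_union_left _ (mem_filter.2 ⟨mem_univ _, hq', h⟩)
      · exact mem_union_right _ (mem_filter.2 ⟨mem_univ _, hq', h⟩)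
    have h4 : (univ.filter (fun q : V × V => G.Adj q.1 q.2 ∧ c q.1 = c q.2)).card ≤
        2 * R.card := by
      have hsub : univ.filter (fun q : V × V => G.Adj q.1 q.2 ∧ c q.1 = c q.2) ⊆
          R.image (fun x => (x, p x)) ∪ R.image (fun x => (p x, x)) := by
        rintro ⟨x, y⟩ hq
        obtain ⟨-, hq1, hq2⟩ := mem_filter.1 hq
        rcases F.same (by omega) h12 hq1 hq2 with ⟨e, h0⟩ | ⟨e, h0⟩
        · refine mem_union_left _ (mem_image.2 ⟨x, (hmR x).2 ⟨⟨y, hq1⟩, h0⟩, ?_⟩)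
          simp only at e ⊢
          rw [e]
        · refine mem_union_right _ (mem_image.2 ⟨y, (hmR y).2 ⟨⟨x, hq1.symm⟩, h0⟩, ?_⟩)
          simp only at e ⊢
          rw [e]
      refine (card_le_card hsub).trans ((card_union_le _ _).trans ?_)
      have k1 : (R.image (fun x => (x, p x))).card ≤ R.card := card_image_le
      have k2 : (R.image (fun x => (p x, x))).card ≤ R.card := card_image_le
      omega
    omega
  have p4 := F.mantel h12
  have p5 := F.B0_le
  -- the Moore bound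
  obtain ⟨x0, y0, hxy0⟩ := hex
  haveI : Nonempty B := ⟨⟨x0, (hmB x0).2 ⟨y0, hxy0⟩⟩⟩
  let G' : SimpleGraph B :=
    { Adj := fun a b => G.Adj a b
      symm := ⟨fun a b (h : G.Adj a b) => h.symm⟩
      loopless := ⟨fun a h => G.loopless.irrefl _ h⟩ }
  have hdegeq : ∀ a : B, G'.degree a = dU G univ a := by
    intro a
    rw [← G'.card_neighborFinset_eq_degree]
    unfold dU
    refine card_bij (fun b _ => (b : V)) ?_ ?_ ?_
    · intro b hb
      rw [SimpleGraph.mem_neighborFinset] at hb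
      exact mem_filter.2 ⟨mem_univ _, hb⟩
    · intro b _ c _ h
      exact Subtype.ext h
    · intro b hb
      obtain ⟨-, h2⟩ := mem_filter.1 hb
      exact ⟨⟨b, (hmB b).2 ⟨_, h2.symm⟩⟩, by rw [SimpleGraph.mem_neighborFinset]; exact h2, rfl⟩
  have hahl := ha B G' (fun a => by
      rw [hdegeq]
      have := hdeg a a.2
      omega) (by
    intro k hk v hv h
    exact hg k hk (fun i => (v i : V)) (fun i j hij => hv (Subtype.ext hij)) h)
  have hsum : 2 * (G'.edgeFinset.card : ℝ) = (P : ℝ) := by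
    have h1 : ∑ a : B, (G'.degree a : ℝ) = 2 * (G'.edgeFinset.card : ℝ) := by
      exact_mod_cast G'.sum_degrees_eq_twice_card_edges
    rw [← h1, hP, Nat.cast_sum, ← sum_coe_sort B]
    exact sum_congr rfl fun a _ => by rw [hdegeq]
  rw [hsum, Fintype.card_coe] at hahl
  have hRr : (R.card : ℝ) = (B.card : ℝ) - ((B0 G d).card : ℝ) := by
    rw [← hsplit]
    push_cast
    ring
  refine numeric (n := (B.card : ℝ)) (P := (P : ℝ)) (b := ((B0 G d).card : ℝ))
    (Nat.cast_nonneg _) (by exact_mod_cast p5.trans hS) (by exact_mod_cast hB126)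
    (by exact_mod_cast p1) ?_ ?_ hahl
  · rw [← hRr]
    exact_mod_cast p2
  · rw [← hRr]
    have h1 : 2 * P ≤ 4 * R.card + (B0 G d).card ^ 2 := by omega
    exact_mod_cast h1

end dom

end Pool.Agent.V11186.FV
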