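import Mathlib
import Pool.Agent.V11186.FV.Balls
import Pool.Agent.Y358.IN.Dirac2

/-!
# Classes of graphs covered by few balls
-/

set_option autoImplicit false
set_option linter.unusedSectionVars false

namespace Pool.Agent.V11186.FV

open Finset Pool.Agent.TH676.Z Pool.Agent.Y335.FL Pool.Agent.Y358.IN

variable {V E : Type} [Fintype V] [DecidableEq V] [Fintype E] [DecidableEq E]

/-- `s` is reached from `x` with at most `r` edges -/
def Near (src dst : E → V) (r : ℕ) (x s : V) : Prop :=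
  ∃ w : ℕ → V, w 0 = x ∧ w r = s ∧ ∀ i < r, w i = w (i + 1) ∨ ∃ e, Jn src dst e (w i) (w (i + 1))

theorem Near.map {src dst : E → V} {r : ℕ} {x s : V} (f : V → V) (h : Near src dst r x s) :
    Near (f ∘ src) (f ∘ dst) r (f x) (f s) := by
  obtain ⟨w, h0, h1, h2⟩ := h
  refine ⟨f ∘ w, by simp [h0], by simp [h1], fun i hi => ?_⟩
  rcases h2 i hi with h | ⟨e, h | h⟩
  · left
    simp [h]
  · right
    exact ⟨e, Or.inl ⟨by simp [h.1], by simp [h.2]⟩⟩
  · right
    exact ⟨e, Or.inr ⟨by simp [h.1], by simp [h.2]⟩⟩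

/-- all vertices of degree at least three are covered by `k` balls of radius `r` -/
def ClB (k r : ℕ) (src dst : E → V) : Prop := ∃ S : Finset V, S.card ≤ k ∧
  ∀ x, 3 ≤ dg src dst x → ∃ s ∈ S, Near src dst r x s

theorem ccB (k r : ℕ) : CC (V := V) (E := E) (ClB k r) := by
  rintro src dst e ⟨S, hS, hx⟩ hne
  refine ⟨S.image (ctr (src e) (dst e)), card_image_le.trans hS, fun x h3 => ?_⟩
  have hcu : ctr (src e) (dst e) (src e) = src e := by
    unfold ctr
    rw [if_neg hne]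
  have hcv : ctr (src e) (dst e) (dst e) = src e := by
    unfold ctr
    rw [if_pos rfl]
  have hmap : ∀ y, 3 ≤ dg src dst y → ctr (src e) (dst e) y = x →
      ∃ s ∈ S.image (ctr (src e) (dst e)),
        Near (ctr (src e) (dst e) ∘ src) (ctr (src e) (dst e) ∘ dst) r x s := by
    intro y hy hyx
    obtain ⟨s, hs, hn⟩ := hx y hy
    refine ⟨_, mem_image_of_mem _ hs, ?_⟩
    rw [← hyx]
    exact hn.map _
  by_cases hxv : x = dst e
  · exfalso
    rw [hxv, Ord.dg_ctr_v src dst hne] at h3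
    omega
  · by_cases hxu : x = src e
    · subst hxu
      have h5 := Ord.dg_ctr_u src dst e hne
      by_cases h4 : 3 ≤ dg src dst (src e)
      · exact hmap _ h4 hcu
      · exact hmap (dst e) (by omega) hcv
    · refine hmap x (h3.trans (Ord.dg_ctr_other src dst hxu)) ?_
      unfold ctr
      rw [if_neg hxv]

/-- short lazy walks give short walks -/
theorem near_walk {src dst : E → V} (G : SimpleGraph V) (hG : ∀ a b, G.Adj a b ↔ Adj src dst a b)
    (r : ℕ) (w : ℕ → V)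
    (h : ∀ i < r, w i = w (i + 1) ∨ ∃ e, Jn src dst e (w i) (w (i + 1))) :
    ∃ q : G.Walk (w 0) (w r), q.length ≤ r := by
  induction r with
  | zero => exact ⟨SimpleGraph.Walk.nil, by simp⟩
  | succ r ih =>
    obtain ⟨q, hq⟩ := ih fun i hi => h i (by omega)
    by_cases e : w r = w (r + 1)
    · exact ⟨q.copy rfl e, by rw [SimpleGraph.Walk.length_copy]; omega⟩
    · rcases h r (by omega) with h1 | ⟨f, h1⟩
      · exact absurd h1 e
      · have hadj : G.Adj (w r) (w (r + 1)) := (hG _ _).2 ⟨e, f, h1⟩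
        exact ⟨q.concat hadj, by rw [SimpleGraph.Walk.length_concat]; omega⟩

/-- **Main step.** -/
theorem flow_of_ClB (hc : St_contract) (hm : St_moore) (k r : ℕ)
    (hk : k ≤ 12 ∧ r ≤ 2 ∨ k ≤ 4 ∧ r ≤ 3 ∨ k ≤ 2 ∧ r ≤ 4 ∨ k ≤ 1 ∧ r ≤ 5)
    (src dst : E → V) (hcl : ClB k r src dst) (hbr : Br src dst ∅ ∅) : FlowOn src dst ∅ ∅ := by
  classical
  by_contra hn
  obtain ⟨s, d, ⟨S, hS, hx⟩, hM⟩ := exists_minC (ccB k r) src dst hcl hbr hn
  have h3 := threeC hc hM
  have hgi := girthC hc hM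
  by_cases hl : ∀ e, s e = d e
  · exact hM.nf (flow_of_loops hl)
  push Not at hl
  obtain ⟨e, he⟩ := hl
  let G : SimpleGraph V :=
    { Adj := Adj s d
      symm := ⟨fun a b h => GiAux.adj_symm h⟩
      loopless := ⟨fun a h => h.1 rfl⟩ }
  have hG : ∀ a b, G.Adj a b ↔ Adj s d a b := fun a b => Iff.rfl
  have h12 : ∀ (w : V) (c : G.Walk w w), c.IsCycle → 12 ≤ c.length :=
    fun w c hc => Ord.cycle_len hgi G hG c hc
  have hex : ∃ x y, G.Adj x y := ⟨s e, d e, he, e, Or.inl ⟨rfl, rfl⟩⟩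
  obtain ⟨dd, c, p, F⟩ := exists_forest (G := G) r S (by
    rintro x ⟨y, hy⟩
    obtain ⟨t, ht, w, w0, wr, hw⟩ := hx x (Ord.three_dg h3 hy)
    obtain ⟨q, hq⟩ := near_walk G hG r w hw
    exact ⟨t, ht, q.copy w0 wr, by rwa [SimpleGraph.Walk.length_copy]⟩)
  rcases hk with ⟨h1, h2⟩ | ⟨h1, h2⟩ | ⟨h1, h2⟩ | ⟨h1, h2⟩
  · exact F.two h2 hm h12 hgi h3 hex (hS.trans h1)
  · exact F.three h2 hm h12 hgi h3 hex (hS.trans h1)
  · exact F.four h2 hm h12 hgi h3 hex (hS.trans h1)
  · exact F.five h2 hm h12 hgi h3 hex (hS.trans h1)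

end Pool.Agent.V11186.FV
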