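import Mathlib
import Pool.Agent.V11186.FV.Dom1
import Pool.Agent.V11186.FV.Near

/-!
# Multiple domination: nowhere-zero flows
-/

set_option autoImplicit false
set_option linter.unusedSectionVars false

namespace Pool.Agent.V11186.FV

open Finset Pool.Agent.TH676.Z Pool.Agent.Y335.FL Pool.Agent.Y358.IN

variable {V E : Type} [Fintype V] [DecidableEq V] [Fintype E] [DecidableEq E]

/-- the edges joining `x` and `S` -/
def sE (src dst : E → V) (S : Finset V) (x : V) : Finset E :=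
  univ.filter (fun e => (src e = x ∧ dst e ∈ S) ∨ (dst e = x ∧ src e ∈ S))

theorem mem_sE {src dst : E → V} {S : Finset V} {x : V} {e : E} :
    e ∈ sE src dst S x ↔ (src e = x ∧ dst e ∈ S) ∨ (dst e = x ∧ src e ∈ S) := by simp [sE]

/-- all vertices of degree at least three outside `S` are joined to `S` by `j` edges -/
def ClM (k j : ℕ) (src dst : E → V) : Prop := ∃ S : Finset V, S.card ≤ k ∧
  ∀ x ∉ S, 3 ≤ dg src dst x → j ≤ (sE src dst S x).card

theorem ccM (k j : ℕ) : CC (V := V) (E := E) (ClM k j) := by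
  rintro src dst e ⟨S, hS, hx⟩ hne
  refine ⟨S.image (ctr (src e) (dst e)), card_image_le.trans hS, fun x hxS h3 => ?_⟩
  have hcu : ctr (src e) (dst e) (src e) = src e := by
    unfold ctr
    rw [if_neg hne]
  have hcv : ctr (src e) (dst e) (dst e) = src e := by
    unfold ctr
    rw [if_pos rfl]
  have hmap : ∀ y, y ∉ S → 3 ≤ dg src dst y → ctr (src e) (dst e) y = x →
      j ≤ (sE (ctr (src e) (dst e) ∘ src) (ctr (src e) (dst e) ∘ dst)
        (S.image (ctr (src e) (dst e))) x).card := by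
    intro y hyS hy hyx
    refine (hx y hyS hy).trans (card_le_card fun f hf => ?_)
    rw [mem_sE] at hf ⊢
    rcases hf with ⟨h1, h2⟩ | ⟨h1, h2⟩
    · left
      exact ⟨by rw [← hyx, ← h1]; rfl, mem_image_of_mem _ h2⟩
    · right
      exact ⟨by rw [← hyx, ← h1]; rfl, mem_image_of_mem _ h2⟩
  by_cases hxv : x = dst e
  · exfalso
    rw [hxv, Ord.dg_ctr_v src dst hne] at h3
    omega
  · by_cases hxu : x = src e
    · subst hxu
      have hu : src e ∉ S := fun h => hxS (mem_image.2 ⟨_, h, hcu⟩)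
      have hv : dst e ∉ S := fun h => hxS (mem_image.2 ⟨_, h, hcv⟩)
      have h5 := Ord.dg_ctr_u src dst e hne
      by_cases h4 : 3 ≤ dg src dst (src e)
      · exact hmap _ hu h4 hcu
      · exact hmap (dst e) hv (by omega) hcv
    · have hcx : ctr (src e) (dst e) x = x := by
        unfold ctr
        rw [if_neg hxv]
      exact hmap x (fun h => hxS (mem_image.2 ⟨_, h, hcx⟩))
        (h3.trans (Ord.dg_ctr_other src dst hxu)) hcx

/-- **Main step.** -/
theorem flow_of_ClM (hc : St_contract) (ha : St_ahl) (hm : St_moore) (k j : ℕ)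
    (hk : k ≤ 31 ∧ j = 1 ∨ k ≤ 50 ∧ j = 2 ∨ k ≤ 62 ∧ j = 3)
    (src dst : E → V) (hcl : ClM k j src dst) (hbr : Br src dst ∅ ∅) : FlowOn src dst ∅ ∅ := by
  classical
  by_contra hn
  obtain ⟨s, d, ⟨S, hS, hx⟩, hM⟩ := exists_minC (ccM k j) src dst hcl hbr hn
  have h3 := threeC hc hM
  have hgi := girthC hc hM
  by_cases hl : ∀ e, s e = d e
  · exact hM.nf (flow_of_loops hl)
  push Not at hl
  obtain ⟨e, he⟩ := hl
  let G : SimpleGraph V :=
    { Adj := Adj s d
      symm := ⟨fun a b h => GiAux.adj_symm h⟩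
      loopless := ⟨fun a h => h.1 rfl⟩ }
  have hG : ∀ a b, G.Adj a b ↔ Adj s d a b := fun a b => Iff.rfl
  have h12 : ∀ (w : V) (c : G.Walk w w), c.IsCycle → 12 ≤ c.length :=
    fun w c hc => Ord.cycle_len hgi G hG c hc
  have hex : ∃ x y, G.Adj x y := ⟨s e, d e, he, e, Or.inl ⟨rfl, rfl⟩⟩
  -- neighbours in `S`
  have hnb : ∀ x ∉ S, (∃ y, G.Adj x y) → j ≤ dU G S x := by
    rintro x hxS ⟨y, hy⟩
    refine (hx x hxS (Ord.three_dg h3 hy)).trans ?_
    unfold dU
    refine card_le_card_of_injOn (fun f => if s f = x then d f else s f) ?_ ?_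
    · intro f hf
      rw [mem_coe, mem_sE] at hf
      refine mem_coe.2 (mem_filter.2 ?_)
      rcases hf with ⟨h1, h2⟩ | ⟨h1, h2⟩
      · simp only
        rw [if_pos h1]
        exact ⟨h2, fun h => hxS (h ▸ h2), f, Or.inl ⟨h1, rfl⟩⟩
      · have h4 : s f ≠ x := fun h => hxS (h ▸ h2)
        simp only
        rw [if_neg h4]
        exact ⟨h2, h4.symm, f, Or.inr ⟨rfl, h1⟩⟩
    · intro f hf f' hf' hff
      rw [mem_coe, mem_sE] at hf hf'
      have key : ∀ g : E, (s g = x ∧ d g ∈ S) ∨ (d g = x ∧ s g ∈ S) →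
          x ≠ (if s g = x then d g else s g) ∧ Jn s d g x (if s g = x then d g else s g) := by
        intro g hg
        rcases hg with ⟨h1, h2⟩ | ⟨h1, h2⟩
        · rw [if_pos h1]
          exact ⟨fun h => hxS (h ▸ h2), Or.inl ⟨h1, rfl⟩⟩
        · have h4 : s g ≠ x := fun h => hxS (h ▸ h2)
          rw [if_neg h4]
          exact ⟨h4.symm, Or.inr ⟨rfl, h1⟩⟩
      obtain ⟨k1, k2⟩ := key f hf
      obtain ⟨-, k4⟩ := key f' hf'
      have hff' : (if s f = x then d f else s f) = (if s f' = x then d f' else s f') := hff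
      rw [← hff'] at k4
      exact no_par hc hM k1 k2 k4
  set B : Finset V := univ.filter (fun v => ∃ y, G.Adj v y) with hB
  have hmB : ∀ x, x ∈ B ↔ ∃ y, G.Adj x y := fun x => by simp [hB]
  have hB126 : 126 ≤ B.card := by
    have := hm V G.Adj (fun a b h => h.symm) (fun a h => G.loopless.irrefl _ h) hgi h3 hex
    rw [hB]
    convert this
  have hdeg : ∀ x ∈ B, 3 ≤ dU G univ x := by
    intro x hx
    obtain ⟨y, hy⟩ := (hmB x).1 hx
    obtain ⟨a, b, e, h1, h2, h4, n1, n2, n3⟩ := h3 x y hy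
    have h5 : ({a, b, e} : Finset V) ⊆ univ.filter (fun y => G.Adj x y) := by
      intro z hz
      simp only [mem_insert, mem_singleton] at hz
      rw [mem_filter]
      rcases hz with rfl | rfl | rfl
      · exact ⟨mem_univ _, h1⟩
      · exact ⟨mem_univ _, h2⟩
      · exact ⟨mem_univ _, h4⟩
    have h6 : ({a, b, e} : Finset V).card = 3 := by
      rw [card_insert_of_notMem, card_pair n3]
      simp [n1, n2]
    rw [← h6]
    exact card_le_card h5
  have hj : ∀ x ∈ B \ S, j ≤ dU G S x := fun x hx =>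
    hnb x (mem_sdiff.1 hx).2 ((hmB x).1 (mem_sdiff.1 hx).1)
  rcases hk with ⟨h1, rfl⟩ | ⟨h1, rfl⟩ | ⟨h1, rfl⟩
  · obtain ⟨dd, c, p, F⟩ := exists_forest (G := G) 1 S (by
      rintro x ⟨y, hy⟩
      by_cases hxS : x ∈ S
      · exact ⟨x, hxS, SimpleGraph.Walk.nil, by simp⟩
      · obtain ⟨t, ht⟩ := card_pos.1 (hnb x hxS ⟨y, hy⟩)
        obtain ⟨ht1, ht2⟩ := mem_filter.1 ht
        exact ⟨t, ht1, SimpleGraph.Walk.cons ht2 SimpleGraph.Walk.nil, by simp⟩)
    exact F.one ha hm h12 hgi h3 hex (hS.trans h1)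
  · exact (Dm.mk hmB hj hdeg).two ha hgi hB126 (hS.trans h1)
  · exact (Dm.mk hmB hj hdeg).three ha hgi hB126 (hS.trans h1)

end Pool.Agent.V11186.FV
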