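import Mathlib
import Pool.Agent.V11186.FV.Near

/-!
# Vertices which are far from each other
-/

set_option autoImplicit false
set_option linter.unusedSectionVars false

namespace Pool.Agent.V11186.FV

open Finset Pool.Agent.TH676.Z Pool.Agent.Y335.FL Pool.Agent.Y358.IN

section scat

variable {V : Type} [Fintype V] [DecidableEq V] {G : SimpleGraph V}

/-- a path with `n + 1` edges from `u` over `v` to `w` -/
def PV (G : SimpleGraph V) (n : ℕ) (u v w : V) : Prop :=
  ∃ (h : G.Adj u v) (p : G.Walk v w), p.length = n ∧ (SimpleGraph.Walk.cons h p).IsPath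

theorem PV.one {u v : V} (h : G.Adj u v) : PV G 0 u v v :=
  ⟨h, SimpleGraph.Walk.nil, rfl, Ord.edge_path h⟩

theorem PV.step (h12 : ∀ (w : V) (c : G.Walk w w), c.IsCycle → 12 ≤ c.length) {n : ℕ}
    {t u v w : V} (ht : G.Adj t u) (hne : t ≠ v) (h : PV G n u v w) (hn : n ≤ 9) :
    PV G (n + 1) t u w := by
  obtain ⟨h, p, hl, hp⟩ := h
  refine ⟨ht, SimpleGraph.Walk.cons h p, by simp [hl], ?_⟩
  rw [SimpleGraph.Walk.cons_isPath_iff ht]
  refine ⟨hp, fun hmem => ?_⟩
  have hq : ((SimpleGraph.Walk.cons h p).takeUntil t hmem).IsPath := hp.takeUntil hmem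
  have hlen := (SimpleGraph.Walk.cons h p).length_takeUntil_le_length hmem
  rw [SimpleGraph.Walk.length_cons] at hlen
  have e := Ord.uniq h12 hq (Ord.edge_path ht.symm) (by
    simp only [SimpleGraph.Walk.length_cons, SimpleGraph.Walk.length_nil]
    omega)
  have h1 : ((SimpleGraph.Walk.cons h p).takeUntil t hmem).length = 1 := by
    rw [e]
    rfl
  have h2 := SimpleGraph.Walk.getVert_takeUntil (n := 1) hmem (by omega)
  rw [e] at h2
  have h3 : (SimpleGraph.Walk.cons h p).getVert 1 = v := by simp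
  rw [h3] at h2
  exact hne (by simpa using h2)

/-- a nonbacktracking chain -/
inductive Ch (G : SimpleGraph V) : ℕ → V → V → V → Prop
  | one {u v : V} (h : G.Adj u v) : Ch G 0 u v v
  | step {n : ℕ} {t u v w : V} (ht : G.Adj t u) (hne : t ≠ v) (h : Ch G n u v w) :
      Ch G (n + 1) t u w

theorem Ch.pv (h12 : ∀ (w : V) (c : G.Walk w w), c.IsCycle → 12 ≤ c.length) {n : ℕ}
    {u v w : V} (h : Ch G n u v w) : n ≤ 10 → PV G n u v w := by
  induction h with
  | one h => exact fun _ => PV.one h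
  | step ht hne _ ih => exact fun hn => PV.step h12 ht hne (ih (by omega)) (by omega)

/-- the ends of a nonbacktracking chain are far from each other -/
theorem Ch.far (h12 : ∀ (w : V) (c : G.Walk w w), c.IsCycle → 12 ≤ c.length) {n d : ℕ}
    {u v w : V} (h : Ch G n u v w) (h1 : d ≤ n + 1) (h2 : n + 1 + d ≤ 12) (hd : 1 ≤ d)
    (q : G.Walk u w) : d ≤ q.length := by
  classical
  by_contra hlt
  obtain ⟨ha, p, hl, hp⟩ := h.pv h12 (by omega)
  have k1 := q.length_bypass_le_length
  have e := Ord.uniq h12 hp q.bypass_isPath (by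
    rw [SimpleGraph.Walk.length_cons]
    omega)
  have k2 : (SimpleGraph.Walk.cons ha p).length = q.bypass.length := by rw [e]
  rw [SimpleGraph.Walk.length_cons] at k2
  omega

/-! the binary tree: `2` and `3` are adjacent, the children of `n` are `2 n` and `2 n + 1` -/

/-- the darts of the embedded tree -/
def FT (x y : V) (g : Bool → V → V → V) : ℕ → V × V
  | 0 => (y, x)
  | 1 => (y, x)
  | 2 => (y, x)
  | 3 => (x, y)
  | n + 4 => (( FT x y g ((n + 4) / 2)).2, g ((n + 4) % 2 == 1) (FT x y g ((n + 4) / 2)).1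
      (FT x y g ((n + 4) / 2)).2)
  decreasing_by all_goals omega

/-- the vertices of the embedded tree -/
def ft (x y : V) (g : Bool → V → V → V) (n : ℕ) : V := (FT x y g n).2

/-- the other end of the dart -/
def pt (n : ℕ) : ℕ := if n = 2 then 3 else if n = 3 then 2 else n / 2

structure Nxt (G : SimpleGraph V) (g : Bool → V → V → V) : Prop where
  adj : ∀ b u v, G.Adj u v → G.Adj v (g b u v)
  ne : ∀ b u v, G.Adj u v → g b u v ≠ u
  tf : ∀ u v, G.Adj u v → g true u v ≠ g false u v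

theorem exists_nxt (h3 : Three G.Adj) : ∃ g, Nxt G g := by
  classical
  have h : ∀ u v, ∃ q : V × V, G.Adj u v → (G.Adj v q.1 ∧ G.Adj v q.2 ∧ q.1 ≠ q.2 ∧ q.1 ≠ u ∧
      q.2 ≠ u) := by
    intro u v
    by_cases huv : G.Adj u v
    · obtain ⟨y1, y2, h0, h1, h2, h4, h5⟩ := two_of h3 ⟨_, huv.symm⟩ u
      exact ⟨(y1, y2), fun _ => ⟨h1, h2, h0, h4, h5⟩⟩
    · exact ⟨(u, u), fun h => absurd h huv⟩
  choose q hq using h
  refine ⟨fun b u v => if b then (q u v).1 else (q u v).2, ⟨fun b u v h => ?_, fun b u v h => ?_,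
    fun u v h => ?_⟩⟩
  · cases b
    · simpa using (hq u v h).2.1
    · simpa using (hq u v h).1
  · cases b
    · simpa using (hq u v h).2.2.2.2
    · simpa using (hq u v h).2.2.2.1
  · simpa using (hq u v h).2.2.1

variable {x y : V} {g : Bool → V → V → V}

theorem FT_adj (hg : Nxt G g) (hxy : G.Adj x y) : ∀ n, G.Adj (FT x y g n).1 (FT x y g n).2
  | 0 => by unfold FT; exact hxy.symm
  | 1 => by unfold FT; exact hxy.symm
  | 2 => by unfold FT; exact hxy.symm
  | 3 => by unfold FT; exact hxy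
  | n + 4 => by
    have ih := FT_adj hg hxy ((n + 4) / 2)
    rw [FT]
    exact hg.adj _ _ _ ih
  decreasing_by omega

theorem FT_fst (hxy : G.Adj x y) {n : ℕ} (hn : 2 ≤ n) : (FT x y g n).1 = ft x y g (pt n) := by
  unfold ft pt
  match n, hn with
  | 2, _ => simp [FT]
  | 3, _ => simp [FT]
  | n + 4, _ =>
    rw [FT]
    have h1 : ¬ (n + 4 = 2) := by omega
    have h2 : ¬ (n + 4 = 3) := by omega
    rw [if_neg h1, if_neg h2]

theorem ft_step {n : ℕ} (hn : 4 ≤ n) : ft x y g n =
    g (n % 2 == 1) (FT x y g (n / 2)).1 (ft x y g (n / 2)) := by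
  unfold ft
  obtain ⟨m, rfl⟩ := Nat.exists_eq_add_of_le' hn
  rw [FT]

theorem ft_adj (hg : Nxt G g) (hxy : G.Adj x y) {n : ℕ} (hn : 2 ≤ n) :
    G.Adj (ft x y g (pt n)) (ft x y g n) := by
  rw [← FT_fst hxy hn]
  exact FT_adj hg hxy n

/-- adjacency in the tree -/
def ta (a b : ℕ) : Bool := (2 ≤ a && pt a == b && 2 ≤ b) || (2 ≤ b && pt b == a && 2 ≤ a)

theorem ta_adj (hg : Nxt G g) (hxy : G.Adj x y) {a b : ℕ} (h : ta a b = true) :
    G.Adj (ft x y g a) (ft x y g b) := by
  unfold ta at h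
  simp only [Bool.or_eq_true, Bool.and_eq_true, decide_eq_true_eq, beq_iff_eq] at h
  rcases h with ⟨⟨h1, h2⟩, h3⟩ | ⟨⟨h1, h2⟩, h3⟩
  · rw [← h2]
    exact (ft_adj hg hxy h1).symm
  · rw [← h2]
    exact ft_adj hg hxy h1

theorem child_ne (hg : Nxt G g) (hxy : G.Adj x y) {n m : ℕ} (hn : 4 ≤ n) (hm : n / 2 = m) :
    ft x y g n ≠ ft x y g (pt m) := by
  rw [ft_step hn, hm, ← FT_fst hxy (by omega)]
  exact hg.ne _ _ _ (FT_adj hg hxy m)

theorem ta_ne (hg : Nxt G g) (hxy : G.Adj x y) {a m b : ℕ} (h1 : ta a m = true)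
    (h2 : ta m b = true) (hab : a ≠ b) : ft x y g a ≠ ft x y g b := by
  have key : ∀ a, ta a m = true → (4 ≤ a ∧ a / 2 = m ∧ 2 ≤ m) ∨ (a = pt m ∧ 2 ≤ m) := by
    intro a h
    unfold ta at h
    simp only [Bool.or_eq_true, Bool.and_eq_true, decide_eq_true_eq, beq_iff_eq] at h
    rcases h with ⟨⟨h1, h2⟩, h3⟩ | ⟨⟨h1, h2⟩, h3⟩
    · unfold pt at h2
      by_cases e1 : a = 2
      · right
        subst e1
        simp only [if_true] at h2
        subst h2
        exact ⟨by simp [pt], by omega⟩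
      · by_cases e2 : a = 3
        · right
          subst e2
          simp at h2
          subst h2
          exact ⟨by simp [pt], by omega⟩
        · rw [if_neg e1, if_neg e2] at h2
          left
          omega
    · exact Or.inr ⟨h2.symm, h1⟩
  have hs : ta b m = true := by
    unfold ta at h2 ⊢
    rw [Bool.or_comm]
    exact h2
  rcases key a h1 with ⟨a1, a2, a3⟩ | ⟨a1, a2⟩ <;> rcases key b hs with ⟨b1, b2, b3⟩ | ⟨b1, b2⟩
  · rw [ft_step a1, ft_step b1, a2, b2]
    have hadj := FT_adj hg hxy m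
    rcases Nat.mod_two_eq_zero_or_one a with e1 | e1 <;>
      rcases Nat.mod_two_eq_zero_or_one b with e2 | e2
    · omega
    · rw [e1, e2]
      exact (hg.tf _ _ hadj).symm
    · rw [e1, e2]
      exact hg.tf _ _ hadj
    · omega
  · rw [b1]
    exact child_ne hg hxy a1 a2
  · rw [a1]
    exact (child_ne hg hxy b1 b2).symm
  · exact absurd (a1.trans b1.symm) hab

/-- a chain in the tree -/
def okc : List ℕ → Bool
  | a :: b :: c :: l => ta a b && (a != c) && okc (b :: c :: l)
  | [a, b] => ta a b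
  | _ => false

theorem okc_ch (hg : Nxt G g) (hxy : G.Adj x y) : ∀ (l : List ℕ) (a b : ℕ),
    okc (a :: b :: l) = true → Ch G l.length (ft x y g a) (ft x y g b)
      (ft x y g ((a :: b :: l).getLast (by simp)))
  | [], a, b, h => by
    simp only [okc] at h
    exact Ch.one (ta_adj hg hxy h)
  | c :: l, a, b, h => by
    simp only [okc, Bool.and_eq_true, bne_iff_ne, ne_eq] at h
    have ih := okc_ch hg hxy l b c h.2
    have h0 : ta b c = true := by
      cases l with
      | nil => simpa [okc] using h.2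
      | cons d l => 
        have := h.2
        simp only [okc, Bool.and_eq_true] at this
        exact this.1.1
    rw [List.getLast_cons (by simp)]
    exact Ch.step (ta_adj hg hxy h.1.1) (ta_ne hg hxy h.1.1 h0 h.1.2) ih

/-- the path in the tree -/
def tp : ℕ → ℕ → ℕ → List ℕ
  | 0, _, _ => []
  | k + 1, a, b => if a = b then [a] else if b < a then a :: tp k (pt a) b
      else tp k a (pt b) ++ [b]

/-- the tree distance is between `d` and `12 - d` -/
def far (d a b : ℕ) : Bool :=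
  match tp 12 a b with
  | a' :: b' :: l => okc (a' :: b' :: l) && (a' == a) && ((a' :: b' :: l).getLast (by simp) == b) &&
      decide (d ≤ l.length + 1) && decide (l.length + 1 + d ≤ 12)
  | _ => false

theorem far_walk (h12 : ∀ (w : V) (c : G.Walk w w), c.IsCycle → 12 ≤ c.length)
    (hg : Nxt G g) (hxy : G.Adj x y) {d a b : ℕ} (hd : 1 ≤ d) (h : far d a b = true)
    (q : G.Walk (ft x y g a) (ft x y g b)) : d ≤ q.length := by
  unfold far at h
  split at h
  · rename_i a' b' l _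
    simp only [Bool.and_eq_true, beq_iff_eq, decide_eq_true_eq] at h
    obtain ⟨⟨⟨⟨h1, h2⟩, h3⟩, h4⟩, h5⟩ := h
    have hc := okc_ch hg hxy l a' b' h1
    rw [h3, h2] at hc
    exact hc.far h12 h4 h5 hd q
  · exact absurd h (by simp)

/-- the chosen vertices -/
def sel : ℕ → List ℕ
  | 3 => [4, 6, 32, 34, 36, 38, 40, 42, 44, 46, 48, 50, 52, 54, 56, 58, 60, 62]
  | 4 => [2, 24, 26, 28, 30, 32, 34, 36, 38, 40, 42, 44, 46]
  | 5 => [16, 20, 24, 28]
  | 6 => [12, 16, 20]
  | _ => []

end scat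

theorem sel_far : ∀ d, 3 ≤ d → d ≤ 6 → ((sel d).all fun a => (sel d).all fun b =>
    a == b || far d a b) = true ∧ (sel d).Nodup := by
  intro d h1 h2
  interval_cases d <;> decide

section main

variable {V E : Type} [Fintype V] [DecidableEq V] [Fintype E] [DecidableEq E]

/-- there are no `k` vertices of degree at least three with mutual distances at least `d + 1` -/
def ClP (k d : ℕ) (src dst : E → V) : Prop := ¬ ∃ S : Finset V, S.card = k ∧
  (∀ x ∈ S, 3 ≤ dg src dst x) ∧ ∀ x ∈ S, ∀ y ∈ S, x ≠ y → ¬ Near src dst d x y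

theorem ccP (k d : ℕ) : CC (V := V) (E := E) (ClP k d) := by
  rintro src dst e hcl hne ⟨S, hS, hS3, hSf⟩
  apply hcl
  have hcu : ctr (src e) (dst e) (src e) = src e := by
    unfold ctr
    rw [if_neg hne]
  have hcv : ctr (src e) (dst e) (dst e) = src e := by
    unfold ctr
    rw [if_pos rfl]
  have hL : ∀ x ∈ S, ∃ z, 3 ≤ dg src dst z ∧ ctr (src e) (dst e) z = x := by
    intro x hx
    have h3 := hS3 x hx
    by_cases hxv : x = dst e
    · exfalso
      rw [hxv, Ord.dg_ctr_v src dst hne] at h3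
      omega
    · by_cases hxu : x = src e
      · subst hxu
        have h5 := Ord.dg_ctr_u src dst e hne
        by_cases h4 : 3 ≤ dg src dst (src e)
        · exact ⟨_, h4, hcu⟩
        · exact ⟨dst e, by omega, hcv⟩
      · refine ⟨x, h3.trans (Ord.dg_ctr_other src dst hxu), ?_⟩
        unfold ctr
        rw [if_neg hxv]
  choose! L hL1 hL2 using hL
  refine ⟨S.image L, ?_, ?_, ?_⟩
  · rw [card_image_of_injOn, hS]
    intro a ha b hb hab
    have h1 := hL2 a ha
    rw [show L a = L b from hab, hL2 b hb] at h1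
    exact h1.symm
  · intro z hz
    obtain ⟨x, hx, rfl⟩ := mem_image.1 hz
    exact hL1 x hx
  · intro z hz z' hz' hzz hn
    obtain ⟨x, hx, rfl⟩ := mem_image.1 hz
    obtain ⟨x', hx', rfl⟩ := mem_image.1 hz'
    have h1 := hn.map (ctr (src e) (dst e))
    rw [hL2 x hx, hL2 x' hx'] at h1
    exact hSf x hx x' hx' (fun h => hzz (by rw [h])) h1

/-- **Main step.** -/
theorem flow_of_ClP (hc : St_contract) (k d : ℕ)
    (hk : k ≤ 18 ∧ d = 2 ∨ k ≤ 13 ∧ d = 3 ∨ k ≤ 4 ∧ d = 4 ∨ k ≤ 3 ∧ d = 5)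
    (src dst : E → V) (hcl : ClP k d src dst) (hbr : Br src dst ∅ ∅) : FlowOn src dst ∅ ∅ := by
  classical
  by_contra hn
  obtain ⟨s, dd, hx, hM⟩ := exists_minC (ccP k d) src dst hcl hbr hn
  have h3 := threeC hc hM
  have hgi := girthC hc hM
  by_cases hl : ∀ e, s e = dd e
  · exact hM.nf (flow_of_loops hl)
  push Not at hl
  obtain ⟨e, he⟩ := hl
  let G : SimpleGraph V :=
    { Adj := Adj s dd
      symm := ⟨fun a b h => GiAux.adj_symm h⟩
      loopless := ⟨fun a h => h.1 rfl⟩ }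
  have hG : ∀ a b, G.Adj a b ↔ Adj s dd a b := fun a b => Iff.rfl
  have h12 : ∀ (w : V) (c : G.Walk w w), c.IsCycle → 12 ≤ c.length :=
    fun w c hc => Ord.cycle_len hgi G hG c hc
  have hxy : G.Adj (s e) (dd e) := ⟨he, e, Or.inl ⟨rfl, rfl⟩⟩
  obtain ⟨g, hg⟩ := exists_nxt (G := G) h3
  have hd : 2 ≤ d ∧ d ≤ 5 ∧ k ≤ (sel (d + 1)).length := by
    rcases hk with ⟨h1, rfl⟩ | ⟨h1, rfl⟩ | ⟨h1, rfl⟩ | ⟨h1, rfl⟩
    · exact ⟨by omega, by omega, h1⟩
    · exact ⟨by omega, by omega, h1⟩
    · exact ⟨by omega, by omega, h1⟩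
    · exact ⟨by omega, by omega, h1⟩
  obtain ⟨d1, d2, d3⟩ := hd
  obtain ⟨hs, hnd⟩ := sel_far (d + 1) (by omega) (by omega)
  rw [List.all_eq_true] at hs
  have hfar : ∀ a ∈ sel (d + 1), ∀ b ∈ sel (d + 1), a ≠ b →
      ∀ q : G.Walk (ft (s e) (dd e) g a) (ft (s e) (dd e) g b), d + 1 ≤ q.length := by
    intro a ha b hb hab q
    have h1 := hs a ha
    rw [List.all_eq_true] at h1
    have h2 := h1 b hb
    rw [Bool.or_eq_true] at h2
    rcases h2 with h2 | h2
    · exact absurd (by simpa using h2) hab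
    · exact far_walk h12 hg hxy (by omega) h2 q
  have hinj : ∀ a ∈ sel (d + 1), ∀ b ∈ sel (d + 1),
      ft (s e) (dd e) g a = ft (s e) (dd e) g b → a = b := by
    intro a ha b hb h
    by_contra hab
    have := hfar a ha b hb hab ((SimpleGraph.Walk.nil : G.Walk _ _).copy rfl h)
    rw [SimpleGraph.Walk.length_copy, SimpleGraph.Walk.length_nil] at this
    omega
  have hcard : ((sel (d + 1)).toFinset.image (ft (s e) (dd e) g)).card = (sel (d + 1)).length := by
    rw [card_image_of_injOn, List.toFinset_card_of_nodup hnd]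
    intro a ha b hb h
    exact hinj a (List.mem_toFinset.1 ha) b (List.mem_toFinset.1 hb) h
  obtain ⟨S, hS1, hS2⟩ := exists_subset_card_eq (hcard ▸ d3 :
    k ≤ ((sel (d + 1)).toFinset.image (ft (s e) (dd e) g)).card)
  refine hx ⟨S, hS2, ?_, ?_⟩
  · intro z hz
    obtain ⟨a, ha, rfl⟩ := mem_image.1 (hS1 hz)
    exact Ord.three_dg h3 (FT_adj hg hxy a).symm
  · intro z hz z' hz' hzz ⟨w, w0, wr, hw⟩
    obtain ⟨a, ha, rfl⟩ := mem_image.1 (hS1 hz)
    obtain ⟨b, hb, rfl⟩ := mem_image.1 (hS1 hz')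
    obtain ⟨q, hq⟩ := near_walk G hG d w hw
    have := hfar a (List.mem_toFinset.1 ha) b (List.mem_toFinset.1 hb)
      (fun h => hzz (by rw [h])) (q.copy w0 wr)
    rw [SimpleGraph.Walk.length_copy] at this
    omega

end main

end Pool.Agent.V11186.FV
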