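import Mathlib
import Pool.Agent.V11186.FV.Scat

/-!
# Graphs without a large cubic tree as a minor
-/

set_option autoImplicit false
set_option linter.unusedSectionVars false

namespace Pool.Agent.V11186.FV

open Finset Pool.Agent.TH676.Z Pool.Agent.Y335.FL Pool.Agent.Y358.IN

/-- the parent in the tree -/
def par (n : ℕ) : ℕ := if n = 3 then 2 else n / 2

section tm

variable {V E : Type}

/-- a step in the branch set `n` -/
def St (src dst : E → V) (φ : V → ℕ) (n : ℕ) (a b : V) : Prop :=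
  φ a = n ∧ φ b = n ∧ ∃ e, Jn src dst e a b

/-- the cubic tree with 126 vertices is a minor -/
def TM (src dst : E → V) : Prop := ∃ φ : V → ℕ,
  (∀ n, 2 ≤ n → n ≤ 127 → ∃ x, φ x = n) ∧
  (∀ n, 2 ≤ n → n ≤ 127 → ∀ x y, φ x = n → φ y = n →
    Relation.ReflTransGen (St src dst φ n) x y) ∧
  ∀ n, 3 ≤ n → n ≤ 127 → ∃ e a b, Jn src dst e a b ∧ φ a = n ∧ φ b = par n

theorem ccT [Fintype V] [DecidableEq V] [Fintype E] [DecidableEq E] :
    CC (V := V) (E := E) (fun src dst => ¬ TM src dst) := by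
  rintro src dst e hcl hne ⟨φ, h1, h2, h3⟩
  apply hcl
  set f := ctr (src e) (dst e) with hf
  have hcu : f (src e) = src e := by
    rw [hf]
    unfold ctr
    rw [if_neg hne]
  have hcv : f (dst e) = src e := by
    rw [hf]
    unfold ctr
    rw [if_pos rfl]
  have hoth : ∀ x, x ≠ dst e → f x = x := by
    intro x hx
    rw [hf]
    unfold ctr
    rw [if_neg hx]
  have hjn : ∀ {d a b}, Jn (f ∘ src) (f ∘ dst) d a b → ∃ a' b', Jn src dst d a' b' ∧ f a' = a ∧
      f b' = b := by
    rintro d a b (⟨ha, hb⟩ | ⟨ha, hb⟩)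
    · exact ⟨src d, dst d, Or.inl ⟨rfl, rfl⟩, ha, hb⟩
    · exact ⟨dst d, src d, Or.inr ⟨rfl, rfl⟩, hb, ha⟩
  have h0 : ∀ n x y, φ (f x) = n → f x = f y →
      Relation.ReflTransGen (St src dst (φ ∘ f) n) x y := by
    intro n x y hx hxy
    by_cases hxy' : x = y
    · rw [hxy']
    · by_cases hxv : x = dst e
      · subst hxv
        have hy : y = src e := by
          have hyv : y ≠ dst e := fun h => hxy' h.symm
          rw [← hoth y hyv, ← hxy, hcv]
        subst hy
        exact Relation.ReflTransGen.single ⟨hx, by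
          show φ (f (src e)) = n
          rw [← hxy]
          exact hx, e, Or.inr ⟨rfl, rfl⟩⟩
      · by_cases hyv : y = dst e
        · subst hyv
          have hx' : x = src e := by
            rw [← hoth x hxv, hxy, hcv]
          subst hx'
          exact Relation.ReflTransGen.single ⟨hx, by
            show φ (f (dst e)) = n
            rw [← hxy]
            exact hx, e, Or.inl ⟨rfl, rfl⟩⟩
        · exact absurd (by rw [← hoth x hxv, hxy, hoth y hyv]) hxy'
  have hlift : ∀ n a b, Relation.ReflTransGen (St (f ∘ src) (f ∘ dst) φ n) a b → φ a = n →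
      ∀ x y, f x = a → f y = b → Relation.ReflTransGen (St src dst (φ ∘ f) n) x y := by
    intro n a b h hn
    induction h with
    | refl =>
      intro x y hx hy
      exact h0 n x y (by rw [hx]; exact hn) (hx.trans hy.symm)
    | tail _ hbc ih =>
      intro x y hx hy
      obtain ⟨k1, k2, d, hd⟩ := hbc
      obtain ⟨a', b', hj, ha', hb'⟩ := hjn hd
      have i1 := ih x a' hx ha'
      have i2 : St src dst (φ ∘ f) n a' b' := by
        refine ⟨?_, ?_, d, hj⟩
        · show φ (f a') = n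
          rw [ha']
          exact k1
        · show φ (f b') = n
          rw [hb']
          exact k2
      exact (i1.tail i2).trans (h0 n b' y (by rw [hb']; exact k2) (hb'.trans hy.symm))
  have hne' : ∀ n, 2 ≤ n → n ≤ 127 → ∃ a, φ (f a) = n := by
    intro n hn1 hn2
    -- an edge at the branch set
    by_cases h : n = 2
    · obtain ⟨d, a, b, hj, ha, hb⟩ := h3 3 (by omega) (by omega)
      obtain ⟨a', b', -, ha', hb'⟩ := hjn hj
      refine ⟨b', ?_⟩
      rw [hb', hb, h]
      rfl
    · obtain ⟨d, a, b, hj, ha, hb⟩ := h3 n (by omega) hn2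
      obtain ⟨a', b', -, ha', hb'⟩ := hjn hj
      exact ⟨a', by rw [ha', ha]⟩
  refine ⟨φ ∘ f, hne', ?_, ?_⟩
  · intro n hn1 hn2 x y hx hy
    exact hlift n _ _ (h2 n hn1 hn2 (f x) (f y) hx hy) hx x y rfl rfl
  · intro n hn1 hn2
    obtain ⟨d, a, b, hj, ha, hb⟩ := h3 n hn1 hn2
    obtain ⟨a', b', hj', ha', hb'⟩ := hjn hj
    exact ⟨d, a', b', hj', by show φ (f a') = n; rw [ha', ha],
      by show φ (f b') = par n; rw [hb', hb]⟩

end tm

set_option maxRecDepth 100000 in
theorem all_far : ((List.range 128).all fun a => (List.range 128).all fun b =>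
    decide (a < 2) || decide (b ≤ a) || far 1 a b) = true := by decide +kernel

section main

variable {V E : Type} [Fintype V] [DecidableEq V] [Fintype E] [DecidableEq E]

/-- **Main step.** -/
theorem flow_of_TM (hc : St_contract) (src dst : E → V) (hcl : ¬ TM src dst)
    (hbr : Br src dst ∅ ∅) : FlowOn src dst ∅ ∅ := by
  classical
  by_contra hn
  obtain ⟨s, dd, hx, hM⟩ := exists_minC ccT src dst hcl hbr hn
  have h3 := threeC hc hM
  have hgi := girthC hc hM
  by_cases hl : ∀ e, s e = dd e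
  · exact hM.nf (flow_of_loops hl)
  push Not at hl
  obtain ⟨e, he⟩ := hl
  let G : SimpleGraph V :=
    { Adj := Adj s dd
      symm := ⟨fun a b h => GiAux.adj_symm h⟩
      loopless := ⟨fun a h => h.1 rfl⟩ }
  have hG : ∀ a b, G.Adj a b ↔ Adj s dd a b := fun a b => Iff.rfl
  have h12 : ∀ (w : V) (c : G.Walk w w), c.IsCycle → 12 ≤ c.length :=
    fun w c hc => Ord.cycle_len hgi G hG c hc
  have hxy : G.Adj (s e) (dd e) := ⟨he, e, Or.inl ⟨rfl, rfl⟩⟩
  obtain ⟨g, hg⟩ := exists_nxt (G := G) h3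
  set F : ℕ → V := ft (s e) (dd e) g with hF
  have hlt : ∀ a b, 2 ≤ a → a < b → b ≤ 127 → F a ≠ F b := by
    intro a b ha hab hb h
    have h1 := all_far
    rw [List.all_eq_true] at h1
    have h2 := h1 a (List.mem_range.2 (by omega))
    rw [List.all_eq_true] at h2
    have h3 := h2 b (List.mem_range.2 (by omega))
    simp only [Bool.or_eq_true, decide_eq_true_eq] at h3
    rcases h3 with (h3 | h3) | h3
    · omega
    · omega
    · have := far_walk h12 hg hxy (by omega) h3 ((SimpleGraph.Walk.nil : G.Walk _ _).copy rfl h)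
      rw [SimpleGraph.Walk.length_copy, SimpleGraph.Walk.length_nil] at this
      omega
  have hinj : ∀ a b, 2 ≤ a → a ≤ 127 → 2 ≤ b → b ≤ 127 → F a = F b → a = b := by
    intro a b h1 h2 h3 h4 h
    rcases lt_trichotomy a b with h5 | h5 | h5
    · exact absurd h (hlt a b h1 h5 h4)
    · exact h5
    · exact absurd h.symm (hlt b a h3 h5 h2)
  let φ : V → ℕ := fun x => if h : ∃ n, 2 ≤ n ∧ n ≤ 127 ∧ F n = x then Classical.choose h else 0
  have hφ1 : ∀ n, 2 ≤ n → n ≤ 127 → φ (F n) = n := by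
    intro n h1 h2
    have h : ∃ m, 2 ≤ m ∧ m ≤ 127 ∧ F m = F n := ⟨n, h1, h2, rfl⟩
    show (if h : ∃ m, 2 ≤ m ∧ m ≤ 127 ∧ F m = F n then Classical.choose h else 0) = n
    rw [dif_pos h]
    obtain ⟨k1, k2, k3⟩ := Classical.choose_spec h
    exact hinj _ _ k1 k2 h1 h2 k3
  have hφ2 : ∀ n x, 2 ≤ n → φ x = n → x = F n := by
    intro n x h1 h
    by_cases hx : ∃ m, 2 ≤ m ∧ m ≤ 127 ∧ F m = x
    · obtain ⟨m, m1, m2, rfl⟩ := hx
      rw [hφ1 m m1 m2] at h
      rw [h]
    · have : φ x = 0 := dif_neg hx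
      omega
  refine hx ⟨φ, fun n h1 h2 => ⟨F n, hφ1 n h1 h2⟩, ?_, ?_⟩
  · intro n h1 _ x y h4 h5
    rw [hφ2 n x h1 h4, hφ2 n y h1 h5]
  · intro n h1 h2
    have hadj := ft_adj hg hxy (n := n) (by omega)
    have hp : pt n = par n := by
      unfold pt par
      rw [if_neg (by omega)]
    rw [hp] at hadj
    obtain ⟨-, d, hd⟩ := hadj.symm
    refine ⟨d, F n, F (par n), hd, hφ1 n (by omega) h2, hφ1 _ ?_ ?_⟩
    · unfold par
      split_ifs <;> omega
    · unfold par
      split_ifs <;> omega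

end main

end Pool.Agent.V11186.FV
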