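import Mathlib
import Pool.Agent.Y358.IN.Base
import Pool.Agent.Y335.FL.Order

/-!
# Splitting off two edges, and graphs with few vertices of odd degree
-/

set_option autoImplicit false
set_option linter.unusedSectionVars false

namespace Pool.Agent.V11186.FV

open Finset Pool.Agent.TH676.Z Pool.Agent.Y335.FL

variable {V E : Type} [Fintype V] [DecidableEq V] [Fintype E] [DecidableEq E]

/-- indicator of an edge in the boundary of `Y` -/
def xi (src dst : E → V) (Y : Finset V) (e : E) : ℕ := if (src e ∈ Y ↔ dst e ∈ Y) then 0 else 1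

theorem card_crs (src dst : E → V) (Y : Finset V) :
    (crs src dst Y).card = ∑ e, xi src dst Y e := by
  unfold crs xi
  rw [card_filter]
  refine sum_congr rfl fun e _ => ?_
  by_cases h : (src e ∈ Y ↔ dst e ∈ Y)
  · rw [if_neg (not_not.2 h), if_pos h]
  · rw [if_pos h, if_neg h]

theorem mem_crs' {src dst : E → V} {Y : Finset V} {e : E} :
    e ∈ crs src dst Y ↔ ¬ (src e ∈ Y ↔ dst e ∈ Y) := by simp [crs]

variable (src dst : E → V)

theorem submod (Y Z : Finset V) :
    (crs src dst (Y ∩ Z)).card + (crs src dst (Y ∪ Z)).card ≤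
      (crs src dst Y).card + (crs src dst Z).card := by
  simp only [card_crs, ← sum_add_distrib]
  refine sum_le_sum fun e _ => ?_
  unfold xi
  simp only [mem_inter, mem_union]
  by_cases h1 : src e ∈ Y <;> by_cases h2 : src e ∈ Z <;> by_cases h3 : dst e ∈ Y <;>
    by_cases h4 : dst e ∈ Z <;> simp [h1, h2, h3, h4]

/-- if the edge `e` joins the intersection and the outside of the union -/
theorem posimod (Y Z : Finset V) (e0 : E) (h0 : e0 ∈ crs src dst (Y ∩ Z))
    (h1 : e0 ∈ crs src dst (Y ∪ Z)) :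
    (crs src dst (Y \ Z)).card + (crs src dst (Z \ Y)).card + 2 ≤
      (crs src dst Y).card + (crs src dst Z).card := by
  simp only [card_crs, ← sum_add_distrib]
  rw [← add_sum_erase _ _ (mem_univ e0), ← add_sum_erase (a := e0) (s := univ)
    (f := fun e => xi src dst Y e + xi src dst Z e) (mem_univ e0)]
  have k1 : xi src dst (Y \ Z) e0 + xi src dst (Z \ Y) e0 + 2 ≤
      xi src dst Y e0 + xi src dst Z e0 := by
    rw [mem_crs'] at h0 h1
    unfold xi
    simp only [mem_inter, mem_union, mem_sdiff] at *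
    by_cases h1 : src e0 ∈ Y <;> by_cases h2 : src e0 ∈ Z <;> by_cases h3 : dst e0 ∈ Y <;>
      by_cases h4 : dst e0 ∈ Z <;> simp_all
  have k2 : ∑ x ∈ univ.erase e0, (xi src dst (Y \ Z) x + xi src dst (Z \ Y) x) ≤
      ∑ x ∈ univ.erase e0, (xi src dst Y x + xi src dst Z x) := by
    refine sum_le_sum fun e _ => ?_
    unfold xi
    simp only [mem_sdiff]
    by_cases h1 : src e ∈ Y <;> by_cases h2 : src e ∈ Z <;> by_cases h3 : dst e ∈ Y <;>
      by_cases h4 : dst e ∈ Z <;> simp [h1, h2, h3, h4]
  omega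

theorem parity3 (Y Z : Finset V) :
    Even ((crs src dst Y).card + (crs src dst (Y ∩ Z)).card + (crs src dst (Y \ Z)).card) := by
  simp only [card_crs, ← sum_add_distrib]
  refine Finset.sum_induction _ Even (fun a b ha hb => ha.add hb) (by simp) fun e _ => ?_
  unfold xi
  simp only [mem_inter, mem_sdiff]
  by_cases h1 : src e ∈ Y <;> by_cases h2 : src e ∈ Z <;> by_cases h3 : dst e ∈ Y <;>
    by_cases h4 : dst e ∈ Z <;> simp [h1, h2, h3, h4]

/-- the proper edges at `v` -/
theorem mem_sg' {v : V} {e : E} :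
    e ∈ Ord.sg src dst v ↔ src e ≠ dst e ∧ (src e = v ∨ dst e = v) := Ord.mem_sg

theorem sep3 (W Z : Finset V) (v : V) (hv : v ∉ Z) (hW : crs src dst W ⊆ Ord.sg src dst v) :
    (crs src dst (Z \ W)).card + (crs src dst (Z ∩ W)).card ≤ (crs src dst Z).card := by
  simp only [card_crs, ← sum_add_distrib]
  refine sum_le_sum fun e _ => ?_
  have h := @hW e
  rw [mem_crs', mem_sg'] at h
  unfold xi
  simp only [mem_inter, mem_sdiff]
  by_cases h1 : src e ∈ W <;> by_cases h2 : src e ∈ Z <;> by_cases h3 : dst e ∈ W <;>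
    by_cases h4 : dst e ∈ Z <;> simp only [h1, h2, h3, h4, not_true_eq_false, not_false_eq_true,
      and_true, and_false, iff_true, iff_false, true_and, if_true, if_false, not_true, not_false_iff,
      iff_self, forall_true_left, le_refl, zero_add, add_zero, zero_le, forall_const] at h ⊢
  all_goals first
    | omega
    | (exfalso
       obtain ⟨-, h5 | h5⟩ := h
       · exact hv (h5 ▸ h2)
       · exact hv (h5 ▸ h4))

/-- the other end -/
def oth (v : V) (e : E) : V := if src e = v then dst e else src e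

theorem oth_spec {v : V} {e : E} (h : e ∈ Ord.sg src dst v) :
    (src e = v ∧ dst e = oth src dst v e ∨ src e = oth src dst v e ∧ dst e = v) ∧
      oth src dst v e ≠ v := by
  obtain ⟨h1, h2⟩ := (mem_sg' src dst).1 h
  unfold oth
  by_cases h3 : src e = v
  · rw [if_pos h3]
    exact ⟨Or.inl ⟨h3, rfl⟩, fun h4 => h1 (h3.trans h4.symm)⟩
  · rw [if_neg h3]
    exact ⟨Or.inr ⟨rfl, h2.resolve_left h3⟩, h3⟩

theorem cross_iff {v : V} {e : E} (h : e ∈ Ord.sg src dst v) (Y : Finset V) :
    e ∈ crs src dst Y ↔ ¬ (v ∈ Y ↔ oth src dst v e ∈ Y) := by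
  rw [mem_crs']
  rcases (oth_spec src dst h).1 with ⟨h1, h2⟩ | ⟨h1, h2⟩
  · rw [h1, h2]
  · rw [h2, ← h1]
    exact not_congr Iff.comm

/-- the pair is separated from `v` by a cut with three edges -/
def Bad (v : V) (e1 e2 : E) : Prop := ∃ Y : Finset V, v ∉ Y ∧ oth src dst v e1 ∈ Y ∧
  oth src dst v e2 ∈ Y ∧ (crs src dst Y).card = 3

variable {src dst}

theorem two_le (hbr : Br src dst ∅ ∅) {Y : Finset V} {e : E} (he : e ∈ crs src dst Y) :
    2 ≤ (crs src dst Y).card := by
  have h1 := hbr Y (disjoint_empty_right _)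
  rw [sdiff_empty] at h1
  have h2 : 0 < (crs src dst Y).card := card_pos.2 ⟨e, he⟩
  omega

/-- **Splitting lemma.** -/
theorem good_exists (hbr : Br src dst ∅ ∅) {v : V} (hv : 4 ≤ (Ord.sg src dst v).card) :
    ∃ e1 ∈ Ord.sg src dst v, ∃ e2 ∈ Ord.sg src dst v, e1 ≠ e2 ∧ ¬ Bad src dst v e1 e2 := by
  classical
  by_contra hcon
  push Not at hcon
  obtain ⟨e1, he1⟩ : (Ord.sg src dst v).Nonempty := card_pos.1 (by omega)
  have hbad : ∀ e ∈ Ord.sg src dst v, e1 ≠ e → Bad src dst v e1 e := fun e he hne =>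
    hcon e1 he1 e he hne
  have hc : ∀ {Y : Finset V} {e : E}, v ∉ Y → e ∈ Ord.sg src dst v → oth src dst v e ∈ Y →
      e ∈ crs src dst Y := by
    intro Y e h1 h2 h3
    rw [cross_iff src dst h2]
    exact fun h => h1 (h.2 h3)
  by_cases hP : ∃ W : Finset V, v ∉ W ∧ oth src dst v e1 ∈ W ∧ (crs src dst W).card = 3 ∧
      crs src dst W ⊆ Ord.sg src dst v
  · obtain ⟨W, hvW, h1W, hW3, hWs⟩ := hP
    obtain ⟨e4, he4, he4W⟩ : ∃ e ∈ Ord.sg src dst v, e ∉ crs src dst W := by
      by_contra h
      push Not at h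
      have := card_le_card (show Ord.sg src dst v ⊆ crs src dst W from h)
      omega
    have h4W : oth src dst v e4 ∉ W := fun h => he4W (hc hvW he4 h)
    have hne : e1 ≠ e4 := by
      rintro rfl
      exact h4W h1W
    obtain ⟨Z, hvZ, h1Z, h4Z, hZ3⟩ := hbad e4 he4 hne
    have k1 := two_le hbr (hc (Y := Z \ W) (fun h => hvZ (mem_sdiff.1 h).1) he4
      (mem_sdiff.2 ⟨h4Z, h4W⟩))
    have k2 := two_le hbr (hc (Y := Z ∩ W) (fun h => hvZ (mem_inter.1 h).1) he1
      (mem_inter.2 ⟨h1Z, h1W⟩))
    have k3 := sep3 src dst W Z v hvZ hWs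
    omega
  · have hthree : ∀ (Y : Finset V) (e2 e3 : E), e2 ∈ Ord.sg src dst v → e3 ∈ Ord.sg src dst v →
        e1 ≠ e2 → e1 ≠ e3 → e2 ≠ e3 → v ∉ Y → oth src dst v e1 ∈ Y → oth src dst v e2 ∈ Y →
        oth src dst v e3 ∈ Y → (crs src dst Y).card ≤ 3 → False := by
      intro Y e2 e3 h2 h3 n12 n13 n23 hvY o1 o2 o3 hY
      have hsub : ({e1, e2, e3} : Finset E) ⊆ crs src dst Y := by
        intro e he
        simp only [mem_insert, mem_singleton] at he
        rcases he with rfl | rfl | rfl
        · exact hc hvY he1 o1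
        · exact hc hvY h2 o2
        · exact hc hvY h3 o3
      have hc3 : ({e1, e2, e3} : Finset E).card = 3 := by
        rw [card_insert_of_notMem, card_pair n23]
        simp [n12, n13]
      have heq := eq_of_subset_of_card_le hsub (by omega)
      apply hP
      refine ⟨Y, hvY, o1, by rw [← heq, hc3], ?_⟩
      rw [← heq]
      intro e he
      simp only [mem_insert, mem_singleton] at he
      rcases he with rfl | rfl | rfl <;> assumption
    obtain ⟨e2, he2⟩ : ((Ord.sg src dst v).erase e1).Nonempty := by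
      apply card_pos.1
      rw [card_erase_of_mem he1]
      omega
    obtain ⟨e3, he3⟩ : (((Ord.sg src dst v).erase e1).erase e2).Nonempty := by
      apply card_pos.1
      rw [card_erase_of_mem he2, card_erase_of_mem he1]
      omega
    obtain ⟨n12, he2⟩ := mem_erase.1 he2
    obtain ⟨n23, he3⟩ := mem_erase.1 he3
    obtain ⟨n13, he3⟩ := mem_erase.1 he3
    obtain ⟨Y, hvY, h1Y, h2Y, hY3⟩ := hbad e2 he2 n12.symm
    obtain ⟨Z, hvZ, h1Z, h3Z, hZ3⟩ := hbad e3 he3 n13.symm
    have h3Y : oth src dst v e3 ∉ Y := fun h => hthree Y e2 e3 he2 he3 n12.symm n13.symm n23.symm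
      hvY h1Y h2Y h hY3.le
    have h2Z : oth src dst v e2 ∉ Z := fun h => hthree Z e2 e3 he2 he3 n12.symm n13.symm n23.symm
      hvZ h1Z h h3Z hZ3.le
    have hvU : v ∉ Y ∪ Z := by simp [hvY, hvZ]
    have hvI : v ∉ Y ∩ Z := fun h => hvY (mem_inter.1 h).1
    have k1 := two_le hbr (hc (Y := Y \ Z) (fun h => hvY (mem_sdiff.1 h).1) he2
      (mem_sdiff.2 ⟨h2Y, h2Z⟩))
    have k2 := two_le hbr (hc (Y := Z \ Y) (fun h => hvZ (mem_sdiff.1 h).1) he3
      (mem_sdiff.2 ⟨h3Z, h3Y⟩))
    have hI := hc hvI he1 (mem_inter.2 ⟨h1Y, h1Z⟩)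
    have hU := hc hvU he1 (mem_union_left _ h1Y)
    have k3 := two_le hbr hI
    have k4 := posimod src dst Y Z e1 hI hU
    have k5 := submod src dst Y Z
    obtain ⟨m, hm⟩ := parity3 src dst Y Z
    have k6 : (crs src dst (Y ∪ Z)).card ≤ 3 := by omega
    exact hthree (Y ∪ Z) e2 e3 he2 he3 n12.symm n13.symm n23.symm hvU (mem_union_left _ h1Y)
      (mem_union_left _ h2Y) (mem_union_right _ h3Z) k6


/-! ### the split graph -/

section split

variable (src dst : E → V) (v : V) (e1 e2 : E)

/-- the first ends of the edges of the split graph -/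
def spS : E → V := Function.update (Function.update src e1 (oth src dst v e1)) e2 v

/-- the second ends of the edges of the split graph -/
def spD : E → V := Function.update (Function.update dst e1 (oth src dst v e2)) e2 v

variable {src dst v e1 e2}

theorem sp_other {e : E} (h1 : e ≠ e1) (h2 : e ≠ e2) :
    spS src dst v e1 e2 e = src e ∧ spD src dst v e1 e2 e = dst e := by
  unfold spS spD
  rw [Function.update_of_ne h2, Function.update_of_ne h1, Function.update_of_ne h2,
    Function.update_of_ne h1]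
  exact ⟨rfl, rfl⟩

theorem sp_two : spS src dst v e1 e2 e2 = v ∧ spD src dst v e1 e2 e2 = v := by
  unfold spS spD
  rw [Function.update_self, Function.update_self]
  exact ⟨rfl, rfl⟩

theorem sp_one (hne : e1 ≠ e2) :
    spS src dst v e1 e2 e1 = oth src dst v e1 ∧ spD src dst v e1 e2 e1 = oth src dst v e2 := by
  unfold spS spD
  rw [Function.update_of_ne hne, Function.update_self, Function.update_of_ne hne,
    Function.update_self]
  exact ⟨rfl, rfl⟩

theorem xi_sg {e : E} (h : e ∈ Ord.sg src dst v) (Y : Finset V) :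
    xi src dst Y e = if (v ∈ Y ↔ oth src dst v e ∈ Y) then 0 else 1 := by
  unfold xi
  rcases (oth_spec src dst h).1 with ⟨h1, h2⟩ | ⟨h1, h2⟩
  · rw [h1, h2]
  · rw [h2, ← h1]
    by_cases h3 : src e ∈ Y <;> by_cases h4 : v ∈ Y <;> simp [h3, h4]

theorem cut_rel (he1 : e1 ∈ Ord.sg src dst v) (he2 : e2 ∈ Ord.sg src dst v) (hne : e1 ≠ e2)
    (Y : Finset V) :
    (crs (spS src dst v e1 e2) (spD src dst v e1 e2) Y).card +
      (if (v ∈ Y ↔ oth src dst v e1 ∈ Y) then 0 else 1) +
      (if (v ∈ Y ↔ oth src dst v e2 ∈ Y) then 0 else 1) =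
    (crs src dst Y).card + (if (oth src dst v e1 ∈ Y ↔ oth src dst v e2 ∈ Y) then 0 else 1) := by
  have h1 : ∑ e, (xi (spS src dst v e1 e2) (spD src dst v e1 e2) Y e +
      (if e = e1 then (if (v ∈ Y ↔ oth src dst v e1 ∈ Y) then 0 else 1) else 0) +
      (if e = e2 then (if (v ∈ Y ↔ oth src dst v e2 ∈ Y) then 0 else 1) else 0)) =
      ∑ e, (xi src dst Y e +
        (if e = e1 then (if (oth src dst v e1 ∈ Y ↔ oth src dst v e2 ∈ Y) then 0 else 1)
          else 0)) := by
    refine sum_congr rfl fun e _ => ?_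
    by_cases k1 : e = e1
    · subst k1
      rw [if_pos rfl, if_neg hne, if_pos rfl, add_zero, ← xi_sg he1]
      rw [add_comm]
      congr 1
      unfold xi
      rw [(sp_one hne).1, (sp_one hne).2]
    · by_cases k2 : e = e2
      · subst k2
        rw [if_neg k1, if_pos rfl, if_neg k1, add_zero, add_zero, ← xi_sg he2]
        unfold xi
        rw [sp_two.1, sp_two.2, if_pos Iff.rfl, zero_add]
      · rw [if_neg k1, if_neg k2, if_neg k1]
        unfold xi
        rw [(sp_other k1 k2).1, (sp_other k1 k2).2]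
  simpa [sum_add_distrib, ← card_crs, sum_ite_eq'] using h1

theorem card_compl (Y : Finset V) : (crs src dst Yᶜ).card = (crs src dst Y).card := by
  congr 1
  ext e
  rw [mem_crs', mem_crs', mem_compl, mem_compl, not_iff_not]
  exact not_iff_not

theorem split_br (hbr : Br src dst ∅ ∅) (he1 : e1 ∈ Ord.sg src dst v)
    (he2 : e2 ∈ Ord.sg src dst v) (hne : e1 ≠ e2) (hgood : ¬ Bad src dst v e1 e2) :
    Br (spS src dst v e1 e2) (spD src dst v e1 e2) ∅ ∅ := by
  intro Y _
  rw [sdiff_empty]
  intro h1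
  have h2 := cut_rel he1 he2 hne Y
  rw [h1] at h2
  have h3 := hbr Y (disjoint_empty_right _)
  rw [sdiff_empty] at h3
  by_cases k0 : v ∈ Y <;> by_cases k1 : oth src dst v e1 ∈ Y <;>
    by_cases k2 : oth src dst v e2 ∈ Y <;> simp [k0, k1, k2] at h2
  · exact h3 h2.symm
  · exact h3 (by omega)
  · exact h3 (by omega)
  · apply hgood
    refine ⟨Yᶜ, ?_, ?_, ?_, ?_⟩
    · simpa using k0
    · simpa using k1
    · simpa using k2
    · rw [card_compl]
      omega
  · exact hgood ⟨Y, k0, k1, k2, by omega⟩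
  · exact h3 (by omega)
  · exact h3 (by omega)
  · exact h3 h2.symm

theorem dg_crs (src dst : E → V) (x : V) : dg src dst x = (crs src dst {x}).card := by
  unfold dg crs
  congr 1
  ext e
  simp only [mem_filter, mem_univ, true_and, mem_singleton]
  by_cases h1 : src e = x <;> by_cases h2 : dst e = x
  · simp [h1, h2]
  · subst h1
    have h3 : src e ≠ dst e := fun h => h2 h.symm
    simp [h2, h3]
  · subst h2
    simp [h1]
  · simp [h1, h2]

theorem odd_rel (he1 : e1 ∈ Ord.sg src dst v) (he2 : e2 ∈ Ord.sg src dst v) (hne : e1 ≠ e2)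
    (x : V) : Odd (dg (spS src dst v e1 e2) (spD src dst v e1 e2) x) ↔ Odd (dg src dst x) := by
  rw [dg_crs, dg_crs]
  have h2 := cut_rel he1 he2 hne {x}
  rw [Nat.odd_iff, Nat.odd_iff]
  by_cases k0 : v ∈ ({x} : Finset V) <;> by_cases k1 : oth src dst v e1 ∈ ({x} : Finset V) <;>
    by_cases k2 : oth src dst v e2 ∈ ({x} : Finset V) <;>
    simp only [k0, k1, k2, iff_true, iff_false, not_true_eq_false, not_false_eq_true, if_true,
      if_false] at h2 <;> omega

theorem nl_lt (he1 : e1 ∈ Ord.sg src dst v) (he2 : e2 ∈ Ord.sg src dst v) :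
    (Crit.nl (spS src dst v e1 e2) (spD src dst v e1 e2)).card < (Crit.nl src dst).card := by
  apply card_lt_card
  refine ⟨fun e he => ?_, fun h => ?_⟩
  · rw [Crit.mem_nl] at he ⊢
    by_cases k1 : e = e1
    · rw [k1]
      exact ((mem_sg' src dst).1 he1).1
    · by_cases k2 : e = e2
      · rw [k2]
        exact ((mem_sg' src dst).1 he2).1
      · rwa [(sp_other k1 k2).1, (sp_other k1 k2).2] at he
  · have h1 := h (Crit.mem_nl.2 ((mem_sg' src dst).1 he2).1)
    rw [Crit.mem_nl, sp_two.1, sp_two.2] at h1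
    exact h1 rfl

/-- a flow of the split graph gives a flow -/
theorem flow_split (he1 : e1 ∈ Ord.sg src dst v) (he2 : e2 ∈ Ord.sg src dst v) (hne : e1 ≠ e2)
    (h : FlowOn (spS src dst v e1 e2) (spD src dst v e1 e2) ∅ ∅) : FlowOn src dst ∅ ∅ := by
  obtain ⟨f, hf, -, hf0⟩ := h
  have hg : f e1 ≠ 0 := hf0 e1 (notMem_empty _) (notMem_empty _)
  set g : E → ZMod 5 := fun e => if e = e1 then (if src e1 = v then - f e1 else f e1) else
    if e = e2 then (if src e2 = v then f e1 else - f e1) else f e with hgdef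
  refine ⟨g, fun x => ?_, fun e he => absurd he (notMem_empty e), fun e _ _ => ?_⟩
  · rw [← hf x]
    unfold bd
    rw [← sub_eq_zero, ← sum_sub_distrib]
    rw [← sum_subset (subset_univ ({e1, e2} : Finset E))]
    · rw [sum_pair hne, (sp_one hne).1, (sp_one hne).2, sp_two.1, sp_two.2]
      have g1 : g e1 = if src e1 = v then - f e1 else f e1 := by simp [hgdef]
      have g2 : g e2 = if src e2 = v then f e1 else - f e1 := by simp [hgdef, hne.symm]
      rw [g1, g2]
      obtain ⟨a1, b1⟩ := oth_spec src dst he1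
      obtain ⟨a2, b2⟩ := oth_spec src dst he2
      have key1 : (if src e1 = x then (if src e1 = v then - f e1 else f e1) else 0) -
          (if dst e1 = x then (if src e1 = v then - f e1 else f e1) else 0) =
          (if oth src dst v e1 = x then f e1 else 0) - (if v = x then f e1 else 0) := by
        rcases a1 with ⟨h1, h2⟩ | ⟨h1, h2⟩
        · rw [if_pos h1, h1, ← h2]
          split_ifs <;> ring
        · have hs : src e1 ≠ v := by rw [h1]; exact b1
          rw [if_neg hs, h2, ← h1]
      have key2 : (if src e2 = x then (if src e2 = v then f e1 else - f e1) else 0) -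
          (if dst e2 = x then (if src e2 = v then f e1 else - f e1) else 0) =
          (if v = x then f e1 else 0) - (if oth src dst v e2 = x then f e1 else 0) := by
        rcases a2 with ⟨h1, h2⟩ | ⟨h1, h2⟩
        · rw [if_pos h1, h1, ← h2]
        · have hs : src e2 ≠ v := by rw [h1]; exact b2
          rw [if_neg hs, h2, ← h1]
          split_ifs <;> ring
      rw [key1, key2]
      ring
    · intro e _ he
      simp only [mem_insert, mem_singleton, not_or] at he
      rw [(sp_other he.1 he.2).1, (sp_other he.1 he.2).2]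
      have g3 : g e = f e := by simp [hgdef, he.1, he.2]
      rw [g3, sub_self]
  · rw [hgdef]
    simp only
    split_ifs
    · simpa using hg
    · exact hg
    · exact hg
    · simpa using hg
    · exact hf0 e (notMem_empty _) (notMem_empty _)

end split

/-- **Few vertices of odd degree.** -/
theorem flow_odd (ho : St_order) : ∀ (n : ℕ) (src dst : E → V), (Crit.nl src dst).card = n →
    (univ.filter (fun x => Odd (dg src dst x))).card ≤ 125 → Br src dst ∅ ∅ →
    FlowOn src dst ∅ ∅ := by
  intro n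
  induction n using Nat.strong_induction_on with
  | _ n ih =>
    intro src dst hn hodd hbr
    by_cases h4 : ∃ v, 4 ≤ dg src dst v
    · obtain ⟨v, hv⟩ := h4
      obtain ⟨e1, he1, e2, he2, hne, hgood⟩ := good_exists hbr (v := v) (by
        rw [← Ord.dg_eq]
        exact hv)
      refine flow_split he1 he2 hne (ih _ (hn ▸ nl_lt he1 he2) _ _ rfl ?_
        (split_br hbr he1 he2 hne hgood))
      have : (univ.filter (fun x => Odd (dg (spS src dst v e1 e2) (spD src dst v e1 e2) x))) =
          univ.filter (fun x => Odd (dg src dst x)) :=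
        filter_congr fun x _ => odd_rel he1 he2 hne x
      rw [this]
      exact hodd
    · push Not at h4
      refine ho V E src dst (le_trans (card_le_card ?_) hodd) hbr
      intro x hx
      rw [mem_filter] at hx ⊢
      refine ⟨mem_univ _, ?_⟩
      have h5 := h4 x
      have h6 : dg src dst x = 3 := by omega
      rw [h6]
      decide

end Pool.Agent.V11186.FV
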