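import Pool.Agent.V11186.FV.CSound2
import Pool.Agent.V11186.FV.CertA
import Pool.Agent.V11186.FV.CertB
import Pool.Agent.V11186.FV.CertC0
import Pool.Agent.V11186.FV.CertC1
import Pool.Agent.V11186.FV.CertD0
import Pool.Agent.V11186.FV.CertD1
import Pool.Agent.V11186.FV.CertD2
import Pool.Agent.V11186.FV.CertD3

/-!
# A circuit with at least fifty edges
-/

set_option autoImplicit false
set_option linter.unusedSectionVars false
set_option maxRecDepth 100000

namespace Pool.Agent.V11186.FV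

open Finset Pool.Agent.TH676.Z Pool.Agent.Y335.FL Pool.Agent.Y358.IN

namespace CS

theorem rng_use {g : ℕ → Bool} {a0 n a : ℕ} (h : rng g a0 n = true) (h1 : a0 ≤ a)
    (h2 : a < a0 + n) : g a = true := by
  have := rng_spec n h (a - a0) (by omega)
  rwa [show a0 + (a - a0) = a by omega] at this

theorem cert39 (a : ℕ) (h1 : 11 ≤ a) (h2 : a + 10 ≤ 39) :
    sb (List.range (39 + 1)) 39 a = true := by
  have e : List.range (39 + 1) = [0, 1, 2, 3, 4, 5, 6, 7, 8, 9, 10, 11, 12, 13, 14, 15, 16, 17, 18, 19, 20, 21, 22, 23, 24, 25, 26, 27, 28, 29, 30, 31, 32, 33, 34, 35, 36, 37, 38, 39] := by decide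
  rw [e]
  exact rng_use c39_0 (by omega) (by omega)

theorem cert40 (a : ℕ) (h1 : 11 ≤ a) (h2 : a + 10 ≤ 40) :
    sb (List.range (40 + 1)) 40 a = true := by
  have e : List.range (40 + 1) = [0, 1, 2, 3, 4, 5, 6, 7, 8, 9, 10, 11, 12, 13, 14, 15, 16, 17, 18, 19, 20, 21, 22, 23, 24, 25, 26, 27, 28, 29, 30, 31, 32, 33, 34, 35, 36, 37, 38, 39, 40] := by decide
  rw [e]
  exact rng_use c40_0 (by omega) (by omega)

theorem cert41 (a : ℕ) (h1 : 11 ≤ a) (h2 : a + 10 ≤ 41) :
    sb (List.range (41 + 1)) 41 a = true := by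
  have e : List.range (41 + 1) = [0, 1, 2, 3, 4, 5, 6, 7, 8, 9, 10, 11, 12, 13, 14, 15, 16, 17, 18, 19, 20, 21, 22, 23, 24, 25, 26, 27, 28, 29, 30, 31, 32, 33, 34, 35, 36, 37, 38, 39, 40, 41] := by decide
  rw [e]
  exact rng_use c41_0 (by omega) (by omega)

theorem cert42 (a : ℕ) (h1 : 11 ≤ a) (h2 : a + 10 ≤ 42) :
    sb (List.range (42 + 1)) 42 a = true := by
  have e : List.range (42 + 1) = [0, 1, 2, 3, 4, 5, 6, 7, 8, 9, 10, 11, 12, 13, 14, 15, 16, 17, 18, 19, 20, 21, 22, 23, 24, 25, 26, 27, 28, 29, 30, 31, 32, 33, 34, 35, 36, 37, 38, 39, 40, 41, 42] := by decide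
  rw [e]
  exact rng_use c42_0 (by omega) (by omega)

theorem cert43 (a : ℕ) (h1 : 11 ≤ a) (h2 : a + 10 ≤ 43) :
    sb (List.range (43 + 1)) 43 a = true := by
  have e : List.range (43 + 1) = [0, 1, 2, 3, 4, 5, 6, 7, 8, 9, 10, 11, 12, 13, 14, 15, 16, 17, 18, 19, 20, 21, 22, 23, 24, 25, 26, 27, 28, 29, 30, 31, 32, 33, 34, 35, 36, 37, 38, 39, 40, 41, 42, 43] := by decide
  rw [e]
  exact rng_use c43_0 (by omega) (by omega)

theorem cert44 (a : ℕ) (h1 : 11 ≤ a) (h2 : a + 10 ≤ 44) :
    sb (List.range (44 + 1)) 44 a = true := by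
  have e : List.range (44 + 1) = [0, 1, 2, 3, 4, 5, 6, 7, 8, 9, 10, 11, 12, 13, 14, 15, 16, 17, 18, 19, 20, 21, 22, 23, 24, 25, 26, 27, 28, 29, 30, 31, 32, 33, 34, 35, 36, 37, 38, 39, 40, 41, 42, 43, 44] := by decide
  rw [e]
  exact rng_use c44_0 (by omega) (by omega)

theorem cert45 (a : ℕ) (h1 : 11 ≤ a) (h2 : a + 10 ≤ 45) :
    sb (List.range (45 + 1)) 45 a = true := by
  have e : List.range (45 + 1) = [0, 1, 2, 3, 4, 5, 6, 7, 8, 9, 10, 11, 12, 13, 14, 15, 16, 17, 18, 19, 20, 21, 22, 23, 24, 25, 26, 27, 28, 29, 30, 31, 32, 33, 34, 35, 36, 37, 38, 39, 40, 41, 42, 43, 44, 45] := by decide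
  rw [e]
  by_cases k0 : a < 19
  · exact rng_use c45_0 (by omega) (by omega)
  by_cases k1 : a < 30
  · exact rng_use c45_1 (by omega) (by omega)
  exact rng_use c45_2 (by omega) (by omega)

theorem cert46 (a : ℕ) (h1 : 11 ≤ a) (h2 : a + 10 ≤ 46) :
    sb (List.range (46 + 1)) 46 a = true := by
  have e : List.range (46 + 1) = [0, 1, 2, 3, 4, 5, 6, 7, 8, 9, 10, 11, 12, 13, 14, 15, 16, 17, 18, 19, 20, 21, 22, 23, 24, 25, 26, 27, 28, 29, 30, 31, 32, 33, 34, 35, 36, 37, 38, 39, 40, 41, 42, 43, 44, 45, 46] := by decide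
  rw [e]
  by_cases k0 : a < 17
  · exact rng_use c46_0 (by omega) (by omega)
  by_cases k1 : a < 21
  · exact rng_use c46_1 (by omega) (by omega)
  by_cases k2 : a < 28
  · exact rng_use c46_2 (by omega) (by omega)
  by_cases k3 : a < 32
  · exact rng_use c46_3 (by omega) (by omega)
  by_cases k4 : a < 36
  · exact rng_use c46_4 (by omega) (by omega)
  exact rng_use c46_5 (by omega) (by omega)

theorem cert47 (a : ℕ) (h1 : 11 ≤ a) (h2 : a + 10 ≤ 47) :
    sb (List.range (47 + 1)) 47 a = true := by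
  have e : List.range (47 + 1) = [0, 1, 2, 3, 4, 5, 6, 7, 8, 9, 10, 11, 12, 13, 14, 15, 16, 17, 18, 19, 20, 21, 22, 23, 24, 25, 26, 27, 28, 29, 30, 31, 32, 33, 34, 35, 36, 37, 38, 39, 40, 41, 42, 43, 44, 45, 46, 47] := by decide
  rw [e]
  by_cases k0 : a < 14
  · exact rng_use c47_0 (by omega) (by omega)
  by_cases k1 : a < 17
  · exact rng_use c47_1 (by omega) (by omega)
  by_cases k2 : a < 19
  · exact rng_use c47_2 (by omega) (by omega)
  by_cases k3 : a < 21
  · exact rng_use c47_3 (by omega) (by omega)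
  by_cases k4 : a < 24
  · exact rng_use c47_4 (by omega) (by omega)
  by_cases k5 : a < 28
  · exact rng_use c47_5 (by omega) (by omega)
  by_cases k6 : a < 31
  · exact rng_use c47_6 (by omega) (by omega)
  by_cases k7 : a < 33
  · exact rng_use c47_7 (by omega) (by omega)
  by_cases k8 : a < 35
  · exact rng_use c47_8 (by omega) (by omega)
  by_cases k9 : a < 36
  · exact rng_use c47_9 (by omega) (by omega)
  by_cases k10 : a < 37
  · exact rng_use c47_10 (by omega) (by omega)
  exact rng_use c47_11 (by omega) (by omega)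

theorem cert48 (a : ℕ) (h1 : 11 ≤ a) (h2 : a + 10 ≤ 48) :
    sb (List.range (48 + 1)) 48 a = true := by
  have e : List.range (48 + 1) = [0, 1, 2, 3, 4, 5, 6, 7, 8, 9, 10, 11, 12, 13, 14, 15, 16, 17, 18, 19, 20, 21, 22, 23, 24, 25, 26, 27, 28, 29, 30, 31, 32, 33, 34, 35, 36, 37, 38, 39, 40, 41, 42, 43, 44, 45, 46, 47, 48] := by decide
  rw [e]
  by_cases k0 : a < 12
  · exact rng_use c48_0 (by omega) (by omega)
  by_cases k1 : a < 13
  · exact rng_use c48_1 (by omega) (by omega)
  by_cases k2 : a < 14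
  · exact rng_use c48_2 (by omega) (by omega)
  by_cases k3 : a < 15
  · exact rng_use c48_3 (by omega) (by omega)
  by_cases k4 : a < 17
  · exact rng_use c48_4 (by omega) (by omega)
  by_cases k5 : a < 18
  · exact rng_use c48_5 (by omega) (by omega)
  by_cases k6 : a < 19
  · exact rng_use c48_6 (by omega) (by omega)
  by_cases k7 : a < 20
  · exact rng_use c48_7 (by omega) (by omega)
  by_cases k8 : a < 21
  · exact rng_use c48_8 (by omega) (by omega)
  by_cases k9 : a < 22
  · exact rng_use c48_9 (by omega) (by omega)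
  by_cases k10 : a < 23
  · exact rng_use c48_10 (by omega) (by omega)
  by_cases k11 : a < 24
  · exact rng_use c48_11 (by omega) (by omega)
  by_cases k12 : a < 26
  · exact rng_use c48_12 (by omega) (by omega)
  by_cases k13 : a < 28
  · exact rng_use c48_13 (by omega) (by omega)
  by_cases k14 : a < 30
  · exact rng_use c48_14 (by omega) (by omega)
  by_cases k15 : a < 32
  · exact rng_use c48_15 (by omega) (by omega)
  by_cases k16 : a < 33
  · exact rng_use c48_16 (by omega) (by omega)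
  by_cases k17 : a < 34
  · exact rng_use c48_17 (by omega) (by omega)
  by_cases k18 : a < 35
  · exact rng_use c48_18 (by omega) (by omega)
  by_cases k19 : a < 36
  · exact rng_use c48_19 (by omega) (by omega)
  by_cases k20 : a < 37
  · exact rng_use c48_20 (by omega) (by omega)
  by_cases k21 : a < 38
  · exact rng_use c48_21 (by omega) (by omega)
  exact rng_use c48_22 (by omega) (by omega)

theorem cert (b a : ℕ) (h39 : 39 ≤ b) (h48 : b ≤ 48) (h1 : 11 ≤ a) (h2 : a + 10 ≤ b) :
    sb (List.range (b + 1)) b a = true := by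
  interval_cases b
  · exact cert39 a h1 h2
  · exact cert40 a h1 h2
  · exact cert41 a h1 h2
  · exact cert42 a h1 h2
  · exact cert43 a h1 h2
  · exact cert44 a h1 h2
  · exact cert45 a h1 h2
  · exact cert46 a h1 h2
  · exact cert47 a h1 h2
  · exact cert48 a h1 h2

end CS

section long

variable {V : Type} [Fintype V] [DecidableEq V] {G : SimpleGraph V}

/-- **A circuit with at least fifty edges.** -/
theorem exists_long50 (h12 : ∀ (w : V) (c : G.Walk w w), c.IsCycle → 12 ≤ c.length)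
    (h3 : Three G.Adj) {x y : V} (hxy : G.Adj x y) :
    ∃ L p b, Pth G L p ∧ b ≤ L ∧ 49 ≤ b ∧ G.Adj (p 0) (p b) := by
  obtain ⟨L, p, b, a, P, hbL, h39, hb, ha1, hab, ha, hnb⟩ := exists_long h12 h3 hxy
  refine ⟨L, p, b, P, hbL, ?_, hb⟩
  by_contra hlt
  have hs := CS.cert b a h39 (by omega) ha1 hab
  have hG : CS.Good G L b p (List.range (b + 1)) := by
    refine ⟨List.length_range, fun x hx => ?_, p, P, fun i x hx => ?_⟩
    · have := List.mem_range.1 hx
      omega
    · rw [List.getElem?_eq_some_iff] at hx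
      obtain ⟨hi, hx⟩ := hx
      rw [List.getElem_range] at hx
      rw [hx]
  have hG' : CS.Good G L b p (0 :: List.map Nat.succ (List.range b)) := by
    rw [← List.range_succ_eq_map]
    exact hG
  refine CS.srch_sound h12 h3 P hbL (by omega) hnb 300 _ _ 1 ?_ ?_ hs
  · intro t ht
    rcases CS.mem_push _ ht with h | ⟨v, hv, rfl⟩
    · exact absurd h List.not_mem_nil
    · rw [List.range_succ_eq_map]
      simp only [List.mem_cons, List.not_mem_nil, or_false] at hv
      rcases hv with rfl | rfl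
      · exact hG'.rot P hbL hnb (by omega) ha
      · exact hG'.rot P hbL hnb le_rfl hb
  · intro m hm
    simp only [List.mem_cons, List.not_mem_nil, or_false] at hm
    rcases hm with rfl | rfl
    · refine ⟨0, a, by omega, by omega, by omega, ?_, ha⟩
      show (1 <<< 0) ||| (1 <<< a) = _
      rw [Nat.shiftLeft_eq, Nat.shiftLeft_eq, one_mul, one_mul]
    · refine ⟨0, b, by omega, le_rfl, by omega, ?_, hb⟩
      show (1 <<< 0) ||| (1 <<< b) = _
      rw [Nat.shiftLeft_eq, Nat.shiftLeft_eq, one_mul, one_mul]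

end long

end Pool.Agent.V11186.FV
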