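import Mathlib
import Pool.Agent.V11186.FV.Long50

/-!
# 5-flows of graphs without long circuits
-/

set_option autoImplicit false
set_option linter.unusedSectionVars false

namespace Pool.Agent.V11186.FV

open Finset Pool.Agent.TH676.Z Pool.Agent.Y335.FL Pool.Agent.Y358.IN

section main

variable {V E : Type} [Fintype V] [DecidableEq V] [Fintype E] [DecidableEq E]

/-- **Main step.** -/
theorem flow_of_ClC (hc : St_contract) (src dst : E → V) (hcl : ClC 49 src dst)
    (hbr : Br src dst ∅ ∅) : FlowOn src dst ∅ ∅ := by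
  classical
  by_contra hn
  obtain ⟨s, dd, hx, hM⟩ := exists_minC (ccC 49 (by omega)) src dst hcl hbr hn
  have h3 := threeC hc hM
  have hgi := girthC hc hM
  by_cases hl : ∀ e, s e = dd e
  · exact hM.nf (flow_of_loops hl)
  push Not at hl
  obtain ⟨e, he⟩ := hl
  let G : SimpleGraph V :=
    { Adj := Adj s dd
      symm := ⟨fun a b h => GiAux.adj_symm h⟩
      loopless := ⟨fun a h => h.1 rfl⟩ }
  have hG : ∀ a b, G.Adj a b ↔ Adj s dd a b := fun a b => Iff.rfl
  have h12 : ∀ (w : V) (c : G.Walk w w), c.IsCycle → 12 ≤ c.length :=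
    fun w c hc => Ord.cycle_len hgi G hG c hc
  have hxy : G.Adj (s e) (dd e) := ⟨he, e, Or.inl ⟨rfl, rfl⟩⟩
  obtain ⟨L, p, b, P, hbL, hb, hadj⟩ := exists_long50 h12 h3 hxy
  obtain ⟨k, rfl⟩ : ∃ k, b = k + 2 := ⟨b - 2, by omega⟩
  let v : Fin (k + 3) → V := fun i => p i.val
  have hv : Function.Injective v := by
    intro i j hij
    exact Fin.ext (P.inj _ (by omega) _ (by omega) hij)
  have hstep : ∀ i : Fin (k + 3), G.Adj (v i) (v (i + 1)) := by
    intro i
    show G.Adj (p i.val) (p (i + 1).val)
    rw [Fin.val_add_one (n := k + 2) i]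
    split_ifs with h
    · rw [h]
      exact hadj.symm
    · have h1 : i.val ≠ k + 2 := fun h' => h (Fin.ext h')
      exact P.adj _ (by omega)
  choose hne c hcj using hstep
  obtain ⟨x, hx1, hx2⟩ := circ_of_seq v c hv hcj
  have := hx x hx1
  omega

/-- a set of edges which has an even number of ends at every vertex -/
def Ev (src dst : E → V) (C : Finset E) : Prop :=
  ∀ v, Even ((C.filter (fun e => src e = v)).card + (C.filter (fun e => dst e = v)).card)

theorem ev_iff {src dst : E → V} {x : E → ZMod 2} {C : Finset E} (h : ∀ e, x e ≠ 0 ↔ e ∈ C) :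
    Cyc2 src dst x ↔ Ev src dst C := by
  have key : ∀ a : ZMod 2, a ≠ 0 → a = 1 := by decide
  have hx : ∀ e, x e = if e ∈ C then 1 else 0 := by
    intro e
    split_ifs with h1
    · exact key _ ((h e).2 h1)
    · by_contra h2
      exact h1 ((h e).1 h2)
  refine forall_congr' fun v => ?_
  rw [← ZMod.natCast_eq_zero_iff_even]
  have e1 : ∀ g : E → V, ∑ e, (if g e = v then x e else 0) =
      ((C.filter (fun e => g e = v)).card : ZMod 2) := by
    intro g
    rw [card_filter, Nat.cast_sum, ← sum_subset (subset_univ C)]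
    · refine sum_congr rfl fun e he => ?_
      rw [hx e, if_pos he]
      simp
    · intro e _ he
      rw [hx e, if_neg he]
      simp
  unfold bd2
  rw [sum_add_distrib, e1, e1, Nat.cast_add]

theorem circ_iff {src dst : E → V} {c : ℕ}
    (h : ∀ C : Finset E, C.Nonempty → Ev src dst C →
      (∀ D ⊆ C, D.Nonempty → Ev src dst D → D = C) → C.card ≤ c) : ClC c src dst := by
  classical
  rintro x ⟨h1, h2, h3⟩
  refine h (sup2 x) ?_ ((ev_iff fun e => mem_sup2.symm).1 h1) ?_
  · rw [nonempty_iff_ne_empty]
    intro h0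
    apply h2
    funext e
    by_contra he
    have : e ∈ sup2 x := mem_sup2.2 he
    rw [h0] at this
    exact notMem_empty _ this
  · intro D hD hne hev
    have hsup : ∀ e, (fun e => if e ∈ D then (1 : ZMod 2) else 0) e ≠ 0 ↔ e ∈ D := by
      intro e
      show (if e ∈ D then (1 : ZMod 2) else 0) ≠ 0 ↔ e ∈ D
      have h10 : (1 : ZMod 2) ≠ 0 := by decide
      split_ifs with h <;> simp [h, h10]
    have hs : sup2 (fun e => if e ∈ D then (1 : ZMod 2) else 0) = D := by
      ext e
      rw [mem_sup2]
      exact hsup e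
    have h4 := h3 (fun e => if e ∈ D then (1 : ZMod 2) else 0) ((ev_iff hsup).2 hev) (by
      intro h0
      obtain ⟨e, he⟩ := hne
      have := (hsup e).2 he
      rw [h0] at this
      exact this rfl) (by rw [hs]; exact hD)
    rw [← hs, h4]

end main

end Pool.Agent.V11186.FV
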