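import Mathlib

/-!
# A search for the rotations of a longest path: definitions

The functions are defined with recursors, so that the kernel evaluates them quickly.
-/

set_option autoImplicit false

namespace Pool.Agent.V11186.FV.CS

/-- add the ends of the chords which meet `S` -/
noncomputable def bs (ch : List ℕ) (S : ℕ) : ℕ → ℕ :=
  List.rec (motive := fun _ => ℕ → ℕ) (fun T => T)
    (fun m _ ih T => ih (Bool.rec (motive := fun _ => ℕ) (Nat.lor T m) T
      (Nat.beq (Nat.land S m) 0))) ch

/-- the ball of radius `n` around `S` -/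
noncomputable def ball (mask : ℕ) (ch : List ℕ) (n : ℕ) : ℕ → ℕ :=
  Nat.rec (motive := fun _ => ℕ → ℕ) (fun S => S)
    (fun _ ih S => ih (bs ch S (Nat.lor S (Nat.lor (Nat.land (Nat.shiftLeft S 1) mask)
      (Nat.shiftRight S 1))))) n

/-- the bit `v` of `S` -/
def bit (S v : ℕ) : Bool := Nat.beq (Nat.land (Nat.shiftRight S v) 1) 1

/-- the partners of `w` -/
noncomputable def part (w : ℕ) (ch : List ℕ) : List ℕ :=
  List.rec (motive := fun _ => List ℕ) []
    (fun m _ ih => Bool.rec (motive := fun _ => List ℕ) ih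
      (Nat.log2 (Nat.xor m (Nat.shiftLeft 1 w)) :: ih) (bit m w)) ch

/-- the known neighbours of `w` -/
noncomputable def nbrs (b : ℕ) (ch : List ℕ) (w : ℕ) : List ℕ :=
  List.rec (motive := fun _ => List ℕ)
    (Bool.rec (motive := fun _ => List ℕ)
      (Bool.rec (motive := fun _ => List ℕ) [w - 1] [] (Nat.beq w 0))
      ((w + 1) :: Bool.rec (motive := fun _ => List ℕ) [w - 1] [] (Nat.beq w 0))
      (Nat.ble (w + 1) b))
    (fun v _ ih => v :: ih) (part w ch)

/-- rotation of a path at `v` -/
noncomputable def rotR (v : ℕ) (l : List ℕ) : List ℕ → List ℕ :=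
  List.rec (motive := fun _ => List ℕ → List ℕ) (fun _ => [])
    (fun x xs ih acc => Bool.rec (motive := fun _ => List ℕ) (ih (x :: acc))
      (List.rec (motive := fun _ => List ℕ) (x :: xs) (fun a _ r => a :: r) acc)
      (Nat.beq x v)) l

/-- the new tasks -/
noncomputable def push (lv : ℕ) (l : List ℕ) (y : ℕ) (st : List (ℕ × List ℕ))
    (vs : List ℕ) : List (ℕ × List ℕ) :=
  List.rec (motive := fun _ => List (ℕ × List ℕ)) st
    (fun v _ ih => Bool.rec (motive := fun _ => List (ℕ × List ℕ))
      ((lv, rotR v l []) :: ih) ih (Nat.beq v y)) vs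

/-- at least three elements -/
noncomputable def three (nb : List ℕ) (A B : Bool) : Bool :=
  List.rec (motive := fun _ => Bool) B (fun _ t _ => List.rec (motive := fun _ => Bool) B
    (fun _ t _ => List.rec (motive := fun _ => Bool) B (fun _ _ _ => A) t) t) nb

/-- all bits of `A` satisfy `g` -/
noncomputable def allB (g : ℕ → Bool) (n : ℕ) : ℕ → Bool :=
  Nat.rec (motive := fun _ => ℕ → Bool) (fun A => Nat.beq A 0)
    (fun _ ih A => Bool.rec (motive := fun _ => Bool)
      (Bool.rec (motive := fun _ => Bool) false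
        (ih (Nat.xor A (Nat.shiftLeft 1 (Nat.log2 A)))) (g (Nat.log2 A))) true
      (Nat.beq A 0)) n

/-- the tasks after the expansion -/
noncomputable def expd (lv : ℕ) (l : List ℕ) (y : ℕ) (st : List (ℕ × List ℕ)) (nb : List ℕ) :
    List (ℕ × List ℕ) :=
  Nat.rec (motive := fun _ => List (ℕ × List ℕ)) st (fun k _ => push k l y st nb) lv

/-- one step of the search -/
noncomputable def body (b mask : ℕ) (ih : List (ℕ × List ℕ) → List ℕ → ℕ → Bool)
    (lv : ℕ) (l : List ℕ) (w y : ℕ) (st : List (ℕ × List ℕ)) (ch : List ℕ) (seen : ℕ) : Bool :=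
  Bool.rec (motive := fun _ => Bool)
    ((fun nb => three nb (ih (expd lv l y st nb) ch (Nat.lor seen (Nat.shiftLeft 1 w)))
      (allB (fun v => ih (expd lv l y st (v :: nb))
        (Nat.lor (Nat.shiftLeft 1 w) (Nat.shiftLeft 1 v) :: ch)
        (Nat.lor seen (Nat.shiftLeft 1 w))) 100
        (Nat.xor mask (ball mask ch 10 (Nat.shiftLeft 1 w))))) (nbrs b ch w))
    (ih st ch seen) (bit seen w)

/-- the search; `true` means that there is no solution -/
noncomputable def srch (b mask : ℕ) (f : ℕ) : List (ℕ × List ℕ) → List ℕ → ℕ → Bool :=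
  Nat.rec (motive := fun _ => List (ℕ × List ℕ) → List ℕ → ℕ → Bool) (fun _ _ _ => false)
    (fun _ ih st ch seen => List.rec (motive := fun _ => Bool) false
      (fun t st' _ => List.rec (motive := fun _ => Bool) false
        (fun w l1 _ => List.rec (motive := fun _ => Bool) false
          (fun y _ _ => body b mask ih t.1 t.2 w y st' ch seen) l1) t.2) st) f

/-- the search after the choice of the chord `0 a`; `l` is the path -/
noncomputable def sb (l : List ℕ) (b a : ℕ) : Bool :=
  srch b (2 ^ (b + 1) - 1) 300 (push 5 l 1 [] [a, b])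
    [Nat.lor (Nat.shiftLeft 1 0) (Nat.shiftLeft 1 a), Nat.lor (Nat.shiftLeft 1 0)
      (Nat.shiftLeft 1 b)] 1

/-- all values in the interval `[a, a + n)` -/
noncomputable def rng (g : ℕ → Bool) (a n : ℕ) : Bool :=
  Nat.rec (motive := fun _ => Bool) true
    (fun k ih => Bool.rec (motive := fun _ => Bool) false ih (g (a + k))) n

end Pool.Agent.V11186.FV.CS
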