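import Mathlib
import Pool.Agent.V11186.FV.Scat
import Pool.Agent.TH676.Z.MacCon

/-!
# Graphs without long circuits: contractions, and circuits of injective closed sequences
-/

set_option autoImplicit false
set_option linter.unusedSectionVars false

namespace Pool.Agent.V11186.FV

open Finset Pool.Agent.TH676.Z Pool.Agent.Y335.FL Pool.Agent.Y358.IN

section circ

variable {V E : Type} [Fintype V] [DecidableEq V] [Fintype E] [DecidableEq E]

/-- the cycle space over the field with two elements -/
def Cyc2 (src dst : E → V) (x : E → ZMod 2) : Prop := ∀ v, bd2 src dst x v = 0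

/-- the support -/
def sup2 (x : E → ZMod 2) : Finset E := univ.filter (fun e => x e ≠ 0)

theorem mem_sup2 {x : E → ZMod 2} {e : E} : e ∈ sup2 x ↔ x e ≠ 0 := by simp [sup2]

theorem sup2_inj {x y : E → ZMod 2} (h : sup2 x = sup2 y) : x = y := by
  have key : ∀ a b : ZMod 2, (a ≠ 0 ↔ b ≠ 0) → a = b := by decide
  funext e
  exact key _ _ (by rw [← mem_sup2, ← mem_sup2, h])

/-- circuits -/
def Circ (src dst : E → V) (x : E → ZMod 2) : Prop := Cyc2 src dst x ∧ x ≠ 0 ∧
  ∀ y, Cyc2 src dst y → y ≠ 0 → sup2 y ⊆ sup2 x → y = x

theorem exists_circ {src dst : E → V} : ∀ (n : ℕ) (x : E → ZMod 2), (sup2 x).card ≤ n →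
    Cyc2 src dst x → x ≠ 0 → ∃ y, Circ src dst y ∧ sup2 y ⊆ sup2 x := by
  intro n
  induction n with
  | zero =>
    intro x h _ h0
    exfalso
    apply h0
    funext e
    by_contra he
    have : e ∈ sup2 x := mem_sup2.2 he
    rw [card_eq_zero.1 (by omega : (sup2 x).card = 0)] at this
    exact notMem_empty _ this
  | succ n ih =>
    intro x h h1 h0
    by_cases hc : Circ src dst x
    · exact ⟨x, hc, Subset.refl _⟩
    · unfold Circ at hc
      push Not at hc
      obtain ⟨y, y1, y2, y3, y4⟩ := hc h1 h0
      have hlt : (sup2 y).card < (sup2 x).card :=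
        card_lt_card (Finset.ssubset_iff_subset_ne.2 ⟨y3, fun h => y4 (sup2_inj h)⟩)
      obtain ⟨z, z1, z2⟩ := ih y (by omega) y1 y2
      exact ⟨z, z1, z2.trans y3⟩

/-- all circuits have at most `c` edges -/
def ClC (c : ℕ) (src dst : E → V) : Prop := ∀ x, Circ src dst x → (sup2 x).card ≤ c

theorem ccC (c : ℕ) (hc : 1 ≤ c) : CC (V := V) (E := E) (ClC c) := by
  rintro src dst e hcl hne x ⟨h1, h2, h3⟩
  by_cases hxe : x e = 0
  · set w : E → ZMod 2 := x + Pi.single e (bd2 src dst x (src e)) with hw
    have hwd : ∀ d, d ≠ e → w d = x d := by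
      intro d hd
      rw [hw, Pi.add_apply, Pi.single_eq_of_ne hd, add_zero]
    have h4 : ∀ v, bd2 src dst w v = 0 := by
      intro v
      have k1 := h1 v
      rw [MacConx.bd2_ctr _ _ _ _ hne] at k1
      rw [hw, MacConx.bd2_add, MacConx.bd2_single]
      by_cases hv : v = dst e
      · subst hv
        rw [if_neg hne, if_pos rfl, zero_add]
        have k2 := h1 (src e)
        rw [MacConx.bd2_ctr _ _ _ _ hne, if_neg hne, if_pos rfl, add_comm] at k2
        exact k2
      · by_cases hu : v = src e
        · subst hu
          rw [if_pos rfl, if_neg (Ne.symm hne), add_zero]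
          exact MacConx.two _
        · rw [if_neg hv, if_neg hu] at k1
          rw [k1, if_neg (Ne.symm hu), if_neg (Ne.symm hv)]
          simp
    have hw0 : w ≠ 0 := by
      intro h
      apply h2
      funext d
      by_cases hd : d = e
      · rw [hd]; exact hxe
      · rw [← hwd d hd, h]
    obtain ⟨y, ⟨y1, y2, y3⟩, y4⟩ := exists_circ _ w le_rfl h4 hw0
    have hy := hcl y ⟨y1, y2, y3⟩
    have hsub : sup2 (MacConx.rho e y) ⊆ sup2 y := by
      intro d hd
      rw [mem_sup2, MacConx.rho_apply] at hd
      split_ifs at hd with h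
      · exact absurd rfl hd
      · exact mem_sup2.2 hd
    have hcyc : Cyc2 (ctr (src e) (dst e) ∘ src) (ctr (src e) (dst e) ∘ dst)
        (MacConx.rho e y) := by
      intro v
      rw [MacConx.bd2_rho _ _ _ (MacConx.loop src dst e), MacConx.bd2_ctr _ _ _ _ hne,
        y1, y1, y1]
      simp
    have hne0 : MacConx.rho e y ≠ 0 := by
      intro h
      have hyd : ∀ d, d ≠ e → y d = 0 := by
        intro d hd
        have := congrFun h d
        rw [MacConx.rho_apply, if_neg hd] at this
        exact this
      have hys : y = Pi.single e (y e) := by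
        funext d
        by_cases hd : d = e
        · subst hd
          rw [Pi.single_eq_same]
        · rw [Pi.single_eq_of_ne hd]
          exact hyd d hd
      have k1 := y1 (src e)
      rw [hys, MacConx.bd2_single, if_pos rfl, if_neg (Ne.symm hne), add_zero] at k1
      apply y2
      rw [hys]
      funext d
      by_cases hd : d = e
      · subst hd
        rw [Pi.single_eq_same]
        exact k1
      · rw [Pi.single_eq_of_ne hd]
        rfl
    have hss : sup2 (MacConx.rho e y) ⊆ sup2 x := by
      intro d hd
      have hde : d ≠ e := by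
        rintro rfl
        rw [mem_sup2, MacConx.rho_apply, if_pos rfl] at hd
        exact hd rfl
      have := y4 (hsub hd)
      rw [mem_sup2, hwd d hde] at this
      exact mem_sup2.2 this
    rw [← h3 _ hcyc hne0 hss]
    exact (card_le_card hsub).trans hy
  · have hcyc : Cyc2 (ctr (src e) (dst e) ∘ src) (ctr (src e) (dst e) ∘ dst)
        (Pi.single e 1) := by
      intro v
      rw [MacConx.bd2_single, MacConx.loop src dst e]
      exact MacConx.two _
    have hne0 : (Pi.single e (1 : ZMod 2) : E → ZMod 2) ≠ 0 := by
      intro h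
      have h5 := congrFun h e
      rw [Pi.single_eq_same] at h5
      have h6 : (1 : ZMod 2) ≠ 0 := by decide
      exact h6 h5
    have hs : sup2 (Pi.single e (1 : ZMod 2) : E → ZMod 2) ⊆ {e} := by
      intro d hd
      by_contra hde
      rw [mem_singleton] at hde
      rw [mem_sup2, Pi.single_eq_of_ne hde] at hd
      exact hd rfl
    have hss : sup2 (Pi.single e (1 : ZMod 2) : E → ZMod 2) ⊆ sup2 x := by
      intro d hd
      rw [mem_singleton.1 (hs hd)]
      exact mem_sup2.2 hxe
    rw [← h3 _ hcyc hne0 hss]
    exact (card_le_card hs).trans (by rw [card_singleton]; exact hc)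

/-- the circuit of an injective closed sequence of vertices -/
theorem circ_of_seq {src dst : E → V} {k : ℕ} (v : Fin (k + 3) → V) (c : Fin (k + 3) → E)
    (hv : Function.Injective v) (hJ : ∀ i, Jn src dst (c i) (v i) (v (i + 1))) :
    ∃ x, Circ src dst x ∧ (sup2 x).card = k + 3 := by
  have hc : Function.Injective c := by
    intro i j hij
    have h1 := hJ i
    have h2 := hJ j
    rw [← hij] at h2
    have key : v i = v j ∨ (v i = v (j + 1) ∧ v (i + 1) = v j) := by
      rcases h1 with ⟨a1, a2⟩ | ⟨a1, a2⟩ <;> rcases h2 with ⟨b1, b2⟩ | ⟨b1, b2⟩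
      · exact Or.inl (a1.symm.trans b1)
      · exact Or.inr ⟨a1.symm.trans b1, a2.symm.trans b2⟩
      · exact Or.inr ⟨a2.symm.trans b2, a1.symm.trans b1⟩
      · exact Or.inl (a2.symm.trans b2)
    rcases key with h | ⟨h, h'⟩
    · exact hv h
    · exfalso
      have e1 := hv h
      have e2 := hv h'
      rw [← e2, add_assoc] at e1
      have e3 : (1 + 1 : Fin (k + 3)) = 0 := by
        have := (left_eq_add (a := i) (b := (1 + 1 : Fin (k + 3)))).1 e1
        exact this
      have e4 := congrArg Fin.val e3
      rw [Fin.val_add, Fin.val_one, Nat.mod_eq_of_lt (by omega)] at e4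
      simp at e4
  -- the boundary of a vector supported on the sequence
  have hbd : ∀ y : E → ZMod 2, (∀ e, y e ≠ 0 → ∃ i, c i = e) → ∀ w,
      bd2 src dst y w = ∑ i, ((if v i = w then y (c i) else 0) +
        (if v (i + 1) = w then y (c i) else 0)) := by
    intro y hy w
    unfold bd2
    have h1 : ∑ e, ((if src e = w then y e else 0) + (if dst e = w then y e else 0)) =
        ∑ e ∈ univ.image c, ((if src e = w then y e else 0) + (if dst e = w then y e else 0)) := by
      refine (sum_subset (subset_univ _) fun e _ he => ?_).symm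
      have : y e = 0 := by
        by_contra h
        obtain ⟨i, hi⟩ := hy e h
        exact he (mem_image.2 ⟨i, mem_univ _, hi⟩)
      simp [this]
    rw [h1, sum_image (fun a _ b _ h => hc h)]
    refine sum_congr rfl fun i _ => ?_
    rcases hJ i with ⟨a1, a2⟩ | ⟨a1, a2⟩
    · rw [a1, a2]
    · rw [a1, a2, add_comm]
  classical
  set x : E → ZMod 2 := fun e => if e ∈ univ.image c then 1 else 0 with hx
  have hxc : ∀ i, x (c i) = 1 := fun i => by
    show (if c i ∈ univ.image c then (1 : ZMod 2) else 0) = 1
    rw [if_pos (mem_image.2 ⟨i, mem_univ _, rfl⟩)]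
  have hxs : ∀ e, x e ≠ 0 → ∃ i, c i = e := by
    intro e he
    by_contra h
    apply he
    show (if e ∈ univ.image c then (1 : ZMod 2) else 0) = 0
    rw [if_neg]
    intro h'
    obtain ⟨i, -, hi⟩ := mem_image.1 h'
    exact h ⟨i, hi⟩
  have hsup : sup2 x = univ.image c := by
    ext e
    rw [mem_sup2]
    constructor
    · intro h
      obtain ⟨i, hi⟩ := hxs e h
      exact mem_image.2 ⟨i, mem_univ _, hi⟩
    · intro h
      obtain ⟨i, -, rfl⟩ := mem_image.1 h
      rw [hxc]
      decide
  refine ⟨x, ⟨?_, ?_, ?_⟩, ?_⟩
  · intro w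
    rw [hbd x hxs w, sum_add_distrib]
    have h1 : ∑ i, (if v (i + 1) = w then x (c i) else 0) =
        ∑ i, (if v i = w then x (c i) else 0) := by
      rw [← Equiv.sum_comp (Equiv.addRight (1 : Fin (k + 3)))
        (fun i => if v i = w then x (c i) else 0)]
      refine sum_congr rfl fun i _ => ?_
      simp only [Equiv.coe_addRight, hxc]
    rw [h1]
    exact MacConx.two _
  · intro h
    have h5 := congrFun h (c 0)
    rw [hxc] at h5
    have h6 : (1 : ZMod 2) ≠ 0 := by decide
    exact h6 h5
  · intro y y1 y2 y3
    have hys : ∀ e, y e ≠ 0 → ∃ i, c i = e := by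
      intro e he
      exact hxs e (mem_sup2.1 (y3 (mem_sup2.2 he)))
    have hstep : ∀ i : Fin (k + 3), y (c (i + 1)) = y (c i) := by
      intro i
      have h1 := y1 (v (i + 1))
      rw [hbd y hys, sum_add_distrib, Finset.sum_eq_single (i + 1), Finset.sum_eq_single i,
        if_pos rfl, if_pos rfl] at h1
      · have key : ∀ a b : ZMod 2, a + b = 0 → a = b := by decide
        exact key _ _ h1
      · intro j _ hj
        rw [if_neg]
        intro h
        exact hj (add_right_cancel (hv h))
      · intro h
        exact absurd (mem_univ _) h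
      · intro j _ hj
        rw [if_neg]
        intro h
        exact hj (hv h)
      · intro h
        exact absurd (mem_univ _) h
    have hall : ∀ i : Fin (k + 3), y (c i) = y (c 0) := by
      intro i
      induction i using Fin.induction with
      | zero => rfl
      | succ i ih =>
        rw [← Fin.coeSucc_eq_succ, hstep, ih]
    have h0 : y (c 0) ≠ 0 := by
      intro h
      apply y2
      funext e
      by_contra he
      obtain ⟨i, hi⟩ := hys e he
      rw [← hi, hall i, h] at he
      exact he rfl
    apply sup2_inj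
    refine Subset.antisymm y3 fun e he => ?_
    obtain ⟨i, hi⟩ := hxs e (mem_sup2.1 he)
    rw [mem_sup2, ← hi, hall i]
    exact h0
  · rw [hsup, card_image_of_injective _ hc, card_univ, Fintype.card_fin]

end circ

end Pool.Agent.V11186.FV
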