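import Mathlib
import Pool.Agent.V11186.FV.Circ

/-!
# Long circuits in graphs of girth twelve
-/

set_option autoImplicit false
set_option linter.unusedSectionVars false

namespace Pool.Agent.V11186.FV

open Finset Pool.Agent.TH676.Z Pool.Agent.Y335.FL Pool.Agent.Y358.IN

section longest

variable {V : Type} [Fintype V] [DecidableEq V] {G : SimpleGraph V}

theorem Ch.closed (h12 : ∀ (w : V) (c : G.Walk w w), c.IsCycle → 12 ≤ c.length) {n : ℕ}
    {u v : V} (h : Ch G n u v u) (hn : n ≤ 10) : False := by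
  obtain ⟨ha, p, hl, hp⟩ := h.pv h12 hn
  have h1 := (SimpleGraph.Walk.cons_isPath_iff ha p).1 hp
  exact h1.2 p.end_mem_support

theorem Ch.cast {n m : ℕ} {u v w : V} (h : Ch G n u v w) (e : n = m) : Ch G m u v w := e ▸ h

/-- a path -/
structure Pth (G : SimpleGraph V) (L : ℕ) (p : ℕ → V) : Prop where
  adj : ∀ i < L, G.Adj (p i) (p (i + 1))
  inj : ∀ i ≤ L, ∀ j ≤ L, p i = p j → i = j

variable {L : ℕ} {p : ℕ → V}

theorem Pth.ne (P : Pth G L p) {i j : ℕ} (hi : i ≤ L) (hj : j ≤ L) (h : i ≠ j) : p i ≠ p j :=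
  fun e => h (P.inj i hi j hj e)

theorem Pth.up (P : Pth G L p) {j n : ℕ} {v w : V} (hj : j ≤ L) (h : Ch G n (p j) v w)
    (hv : v ≠ p (j - 1)) : ∀ k, k + 1 ≤ j →
      Ch G (n + (k + 1)) (p (j - (k + 1))) (p (j - k)) w := by
  intro k
  induction k with
  | zero =>
    intro hk
    have h1 := P.adj (j - 1) (by omega)
    rw [Nat.sub_add_cancel (by omega)] at h1
    exact Ch.step h1 (Ne.symm hv) h
  | succ k ih =>
    intro hk
    have h1 := P.adj (j - (k + 2)) (by omega)
    rw [show j - (k + 2) + 1 = j - (k + 1) by omega] at h1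
    exact (Ch.step h1 (P.ne (by omega) (by omega) (by omega)) (ih (by omega))).cast (by omega)

theorem Pth.up' (P : Pth G L p) {i j n : ℕ} {v w : V} (hj : j ≤ L) (hij : i < j)
    (h : Ch G n (p j) v w) (hv : v ≠ p (j - 1)) : Ch G (n + (j - i)) (p i) (p (i + 1)) w := by
  have h1 := P.up hj h hv (j - i - 1) (by omega)
  rw [show j - (j - i - 1 + 1) = i by omega, show j - (j - i - 1) = i + 1 by omega] at h1
  exact h1.cast (by omega)

theorem Pth.down (P : Pth G L p) {i n : ℕ} {v w : V} (h : Ch G n (p i) v w)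
    (hv : v ≠ p (i + 1)) : ∀ k, i + k + 1 ≤ L →
      Ch G (n + (k + 1)) (p (i + k + 1)) (p (i + k)) w := by
  intro k
  induction k with
  | zero =>
    intro hk
    exact Ch.step (P.adj i (by omega)).symm (Ne.symm hv) h
  | succ k ih =>
    intro hk
    exact (Ch.step (P.adj (i + (k + 1)) (by omega)).symm (P.ne (by omega) (by omega) (by omega))
      (ih (by omega))).cast (by omega)

theorem Pth.down' (P : Pth G L p) {i j n : ℕ} {v w : V} (hj : j ≤ L) (hij : i < j)
    (h : Ch G n (p i) v w) (hv : v ≠ p (i + 1)) : Ch G (n + (j - i)) (p j) (p (j - 1)) w := by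
  have h1 := P.down h hv (j - i - 1) (by omega)
  rw [show i + (j - i - 1) + 1 = j by omega, show i + (j - i - 1) = j - 1 by omega] at h1
  exact h1.cast (by omega)

/-- rotation -/
theorem Pth.rot (P : Pth G L p) {j : ℕ} (hj : 1 ≤ j) (hjL : j ≤ L) (h : G.Adj (p 0) (p j)) :
    Pth G L (fun i => if i < j then p (j - 1 - i) else p i) := by
  constructor
  · intro i hi
    by_cases h1 : i + 1 < j
    · simp only [h1, if_true, show i < j by omega]
      have h2 := P.adj (j - 1 - (i + 1)) (by omega)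
      rw [show j - 1 - (i + 1) + 1 = j - 1 - i by omega] at h2
      exact h2.symm
    · by_cases h2 : i < j
      · have h3 : i = j - 1 := by omega
        subst h3
        simp only [h1, h2, if_true, if_false]
        rw [Nat.sub_self, Nat.sub_add_cancel hj]
        exact h
      · simp only [h1, h2, if_false]
        exact P.adj i hi
  · intro a ha b hb hab
    by_cases h1 : a < j <;> by_cases h2 : b < j
    · simp only [h1, h2, if_true] at hab
      have := P.inj _ (by omega) _ (by omega) hab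
      omega
    · simp only [h1, h2, if_true, if_false] at hab
      have := P.inj _ (by omega) _ (by omega) hab
      omega
    · simp only [h1, h2, if_true, if_false] at hab
      have := P.inj _ (by omega) _ (by omega) hab
      omega
    · simp only [h1, h2, if_false] at hab
      exact P.inj _ ha _ hb hab

theorem Pth.card (P : Pth G L p) : L < Fintype.card V := by
  have h : Function.Injective (fun i : Fin (L + 1) => p i.val) := by
    intro a b hab
    exact Fin.ext (P.inj _ (by omega) _ (by omega) hab)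
  have := Fintype.card_le_of_injective _ h
  rw [Fintype.card_fin] at this
  omega

theorem exists_max {P : ℕ → Prop} {n N : ℕ} (hn : P n) (hN : ∀ m, P m → m ≤ N) :
    ∃ m, P m ∧ ∀ k, P k → k ≤ m := by
  classical
  refine ⟨Nat.findGreatest P N, Nat.findGreatest_spec (hN n hn) hn, fun k hk => ?_⟩
  exact Nat.le_findGreatest (hN k hk) hk

/-- the neighbours of the first vertex of a longest path -/
theorem Pth.nbr (P : Pth G L p) (hmax : ∀ K q, Pth G K q → K ≤ L) {y : V}
    (hy : G.Adj (p 0) y) : ∃ i, 1 ≤ i ∧ i ≤ L ∧ p i = y := by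
  by_contra hcon
  push Not at hcon
  have hne : ∀ i ≤ L, p i ≠ y := by
    intro i hi
    by_cases h0 : i = 0
    · subst h0
      exact hy.ne
    · exact hcon i (by omega) hi
  have : Pth G (L + 1) (fun i => if i = 0 then y else p (i - 1)) := by
    constructor
    · intro i hi
      by_cases h0 : i = 0
      · subst h0
        simpa using hy.symm
      · have h1 := P.adj (i - 1) (by omega)
        rw [Nat.sub_add_cancel (by omega)] at h1
        simpa [h0] using h1
    · intro a ha b hb hab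
      by_cases h1 : a = 0 <;> by_cases h2 : b = 0
      · omega
      · simp only [h1, h2, if_true, if_false] at hab
        exact absurd hab.symm (hne _ (by omega))
      · simp only [h1, h2, if_true, if_false] at hab
        exact absurd hab (hne _ (by omega))
      · simp only [h1, h2, if_false] at hab
        have := P.inj _ (by omega) _ (by omega) hab
        omega
  have := hmax _ _ this
  omega

/-- one of three different numbers is different from two given ones -/
theorem third {i1 i2 i3 a b : ℕ} (h12 : i1 ≠ i2) (h13 : i1 ≠ i3) (h23 : i2 ≠ i3)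
    {R : ℕ → Prop} (r1 : R i1) (r2 : R i2) (r3 : R i3) : ∃ j, R j ∧ j ≠ a ∧ j ≠ b := by
  by_cases e1 : i1 = a ∨ i1 = b
  · by_cases e2 : i2 = a ∨ i2 = b
    · exact ⟨i3, r3, by omega, by omega⟩
    · push Not at e2
      exact ⟨i2, r2, e2.1, e2.2⟩
  · push Not at e1
    exact ⟨i1, r1, e1.1, e1.2⟩

/-- a further neighbour of the first vertex of a rotated path -/
theorem Pth.chord (P : Pth G L p) (h3 : Three G.Adj) {b : ℕ}
    (hnb : ∀ q, Pth G L q → ∀ y, G.Adj (q 0) y → ∃ i, 1 ≤ i ∧ i ≤ b ∧ q i = y)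
    (hbL : b ≤ L) {t : ℕ} (ht : 2 ≤ t) (htb : t ≤ b) (h : G.Adj (p 0) (p t)) :
    ∃ j, j ≤ b ∧ j ≠ t - 1 ∧ G.Adj (p (t - 1)) (p j) ∧ j ≠ t - 2 ∧ j ≠ t := by
  have Q := P.rot (j := t) (by omega) (by omega) h
  set q : ℕ → V := fun i => if i < t then p (t - 1 - i) else p i with hq
  have q0 : q 0 = p (t - 1) := by
    show (if 0 < t then p (t - 1 - 0) else p 0) = p (t - 1)
    rw [if_pos (by omega), Nat.sub_zero]
  have key : ∀ y, G.Adj (q 0) y → ∃ j, (j ≤ b ∧ j ≠ t - 1 ∧ G.Adj (p (t - 1)) (p j)) ∧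
      p j = y := by
    intro y hy
    obtain ⟨i, i1, i2, i3⟩ := hnb q Q y hy
    have : ∃ j, j ≤ b ∧ p j = y := by
      by_cases hi : i < t
      · refine ⟨t - 1 - i, by omega, ?_⟩
        rw [← i3]
        show p (t - 1 - i) = if i < t then p (t - 1 - i) else p i
        rw [if_pos hi]
      · refine ⟨i, i2, ?_⟩
        rw [← i3]
        show p i = if i < t then p (t - 1 - i) else p i
        rw [if_neg hi]
    obtain ⟨j, j1, j2⟩ := this
    rw [q0, ← j2] at hy
    refine ⟨j, ⟨j1, ?_, hy⟩, j2⟩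
    rintro rfl
    exact hy.ne rfl
  obtain ⟨y1, y2, y3, a1, a2, a3, n1, n2, n3⟩ := h3 (q 0) (q 1) (Q.adj 0 (by omega))
  obtain ⟨j1, b1, c1⟩ := key y1 a1
  obtain ⟨j2, b2, c2⟩ := key y2 a2
  obtain ⟨j3, b3, c3⟩ := key y3 a3
  obtain ⟨j, ⟨k1, k2, k3⟩, k4, k5⟩ := third (i1 := j1) (i2 := j2) (i3 := j3) (a := t - 2) (b := t)
    (R := fun j => j ≤ b ∧ j ≠ t - 1 ∧ G.Adj (p (t - 1)) (p j))
    (fun e => n1 (by rw [← c1, ← c2, e])) (fun e => n2 (by rw [← c1, ← c3, e]))
    (fun e => n3 (by rw [← c2, ← c3, e])) b1 b2 b3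
  exact ⟨j, k1, k2, k3, k4, k5⟩

/-- a further neighbour after two rotations, inner chord -/
theorem Pth.chordA (P : Pth G L p) (h3 : Three G.Adj) {b : ℕ}
    (hnb : ∀ q, Pth G L q → ∀ y, G.Adj (q 0) y → ∃ i, 1 ≤ i ∧ i ≤ b ∧ q i = y)
    (hbL : b ≤ L) {t j : ℕ} (htb : t ≤ b) (h : G.Adj (p 0) (p t)) (hj : j + 3 ≤ t)
    (hadj : G.Adj (p (t - 1)) (p j)) :
    ∃ k, k ≤ b ∧ k ≠ j + 1 ∧ G.Adj (p (j + 1)) (p k) ∧ k ≠ j + 2 ∧ k ≠ j := by
  have Q := P.rot (j := t) (by omega) (by omega) h
  set q : ℕ → V := fun i => if i < t then p (t - 1 - i) else p i with hq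
  have qlt : ∀ i, i < t → q i = p (t - 1 - i) := fun i hi => by
    show (if i < t then p (t - 1 - i) else p i) = _
    rw [if_pos hi]
  have qge : ∀ i, ¬ i < t → q i = p i := fun i hi => by
    show (if i < t then p (t - 1 - i) else p i) = _
    rw [if_neg hi]
  have e0 : G.Adj (q 0) (q (t - 1 - j)) := by
    rw [qlt 0 (by omega), qlt _ (by omega), Nat.sub_zero, show t - 1 - (t - 1 - j) = j by omega]
    exact hadj
  obtain ⟨m, m1, m2, m3, m4, m5⟩ := Q.chord h3 hnb hbL (t := t - 1 - j) (by omega) (by omega) e0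
  rw [qlt (t - 1 - j - 1) (by omega), show t - 1 - (t - 1 - j - 1) = j + 1 by omega] at m3
  by_cases hm : m < t
  · rw [qlt m hm] at m3
    exact ⟨t - 1 - m, by omega, by omega, m3, by omega, by omega⟩
  · rw [qge m hm] at m3
    exact ⟨m, m1, by omega, m3, by omega, by omega⟩

/-- a further neighbour after two rotations, outer chord -/
theorem Pth.chordB (P : Pth G L p) (h3 : Three G.Adj) {b : ℕ}
    (hnb : ∀ q, Pth G L q → ∀ y, G.Adj (q 0) y → ∃ i, 1 ≤ i ∧ i ≤ b ∧ q i = y)
    (hbL : b ≤ L) {t i : ℕ} (ht : 1 ≤ t) (htb : t ≤ b) (h : G.Adj (p 0) (p t)) (hi : t + 2 ≤ i)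
    (hib : i ≤ b) (hadj : G.Adj (p (t - 1)) (p i)) :
    ∃ k, k ≤ b ∧ k ≠ i - 1 ∧ G.Adj (p (i - 1)) (p k) ∧ k ≠ i - 2 ∧ k ≠ i := by
  have Q := P.rot (j := t) (by omega) (by omega) h
  set q : ℕ → V := fun i => if i < t then p (t - 1 - i) else p i with hq
  have qlt : ∀ i, i < t → q i = p (t - 1 - i) := fun i hi => by
    show (if i < t then p (t - 1 - i) else p i) = _
    rw [if_pos hi]
  have qge : ∀ i, ¬ i < t → q i = p i := fun i hi => by
    show (if i < t then p (t - 1 - i) else p i) = _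
    rw [if_neg hi]
  have e0 : G.Adj (q 0) (q i) := by
    rw [qlt 0 (by omega), qge _ (by omega), Nat.sub_zero]
    exact hadj
  obtain ⟨m, m1, m2, m3, m4, m5⟩ := Q.chord h3 hnb hbL (t := i) (by omega) (by omega) e0
  rw [qge (i - 1) (by omega)] at m3
  by_cases hm : m < t
  · rw [qlt m hm] at m3
    exact ⟨t - 1 - m, by omega, by omega, m3, by omega, by omega⟩
  · rw [qge m hm] at m3
    exact ⟨m, m1, by omega, m3, by omega, by omega⟩

/-- moving along the path -/
theorem Pth.seg (P : Pth G L p) {s t n : ℕ} {v w : V} (hs : s ≤ L) (ht : t ≤ L) (hst : s ≠ t)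
    (h : Ch G n (p t) v w) (h1 : v ≠ p (t - 1)) (h2 : t + 1 ≤ L → v ≠ p (t + 1)) :
    ∃ z, (s + 1 ≤ L ∧ z = p (s + 1) ∨ z = p (s - 1)) ∧
      Ch G (n + ((s - t) + (t - s))) (p s) z w := by
  rcases lt_or_gt_of_ne hst with h' | h'
  · exact ⟨_, Or.inl ⟨by omega, rfl⟩, (P.up' ht h' h h1).cast (by omega)⟩
  · exact ⟨_, Or.inr rfl, (P.down' hs h' h (h2 (by omega))).cast (by omega)⟩

/-- closing along the path -/
theorem Pth.close (P : Pth G L p)
    (h12 : ∀ (w : V) (c : G.Walk w w), c.IsCycle → 12 ≤ c.length) {s t n : ℕ} {v : V}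
    (hs : s ≤ L) (ht : t ≤ L) (h : Ch G n (p t) v (p s)) (h1 : v ≠ p (t - 1))
    (h2 : t + 1 ≤ L → v ≠ p (t + 1)) : 11 ≤ n + ((s - t) + (t - s)) := by
  by_contra hlt
  by_cases hst : s = t
  · subst hst
    exact h.closed h12 (by omega)
  · obtain ⟨z, -, hz⟩ := P.seg hs ht hst h h1 h2
    exact hz.closed h12 (by omega)

/-- closing along the path and an edge -/
theorem Pth.close1 (P : Pth G L p)
    (h12 : ∀ (w : V) (c : G.Walk w w), c.IsCycle → 12 ≤ c.length) {s t n : ℕ} {v w : V}
    (hs : s ≤ L) (ht : t ≤ L) (h : Ch G n (p t) v w) (h1 : v ≠ p (t - 1))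
    (h2 : t + 1 ≤ L → v ≠ p (t + 1)) (hw : G.Adj w (p s)) (hwv : w ≠ v)
    (hw1 : s + 1 ≤ L → w ≠ p (s + 1))
    (hw2 : w ≠ p (s - 1)) : 10 ≤ n + ((s - t) + (t - s)) := by
  by_contra hlt
  by_cases hst : s = t
  · subst hst
    exact (Ch.step hw hwv h).closed h12 (by omega)
  · obtain ⟨z, hz', hz⟩ := P.seg hs ht hst h h1 h2
    have : w ≠ z := by
      rcases hz' with ⟨hs1, rfl⟩ | rfl
      · exact hw1 hs1
      · exact hw2
    exact (Ch.step hw this hz).closed h12 (by omega)

/-- the numerical part -/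
theorem numL {a b i j k l u : ℕ} (C1 : 11 ≤ a) (C2 : a + 10 ≤ b) (C3 : j + 12 ≤ b) (C4 : 9 ≤ j)
    (C5 : j + 8 ≤ a ∨ a + 8 ≤ j) (C7 : 9 ≤ i) (C6 : i + 12 ≤ a ∨ a + 10 ≤ i) (C8 : i + 8 ≤ b)
    (C9 : i + 6 ≤ j ∨ j + 6 ≤ i) (hu : u = i + 1 ∧ i + 12 ≤ a ∨ u + 1 = i ∧ a + 10 ≤ i)
    (D1 : 11 ≤ 0 + ((j + 1 - k) + (k - (j + 1)))) (D2 : 11 ≤ 2 + ((k - (b - 1)) + ((b - 1) - k)))
    (D3 : 11 ≤ 4 + ((0 - k) + (k - 0))) (D4 : 10 ≤ 4 + ((a - k) + (k - a)))
    (D5 : 11 ≤ 7 + ((i - k) + (k - i))) (E1 : 11 ≤ 0 + ((u - l) + (l - u)))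
    (E2 : 11 ≤ 4 + ((0 - l) + (l - 0))) (E2b : 10 ≤ 4 + ((b - l) + (l - b)))
    (E2c : 11 ≤ 2 + ((l - (a - 1)) + ((a - 1) - l))) (E3 : 11 ≤ 7 + ((j - l) + (l - j)))
    (F2 : 11 ≤ (0 + ((l - (j + 1)) + (j + 1 - l)) + 1) + ((k - u) + (u - k)))
    (hkb : k ≤ b) (hlb : l ≤ b) : 39 ≤ b := by
  have d1 : k + 11 ≤ j + 1 ∨ j + 12 ≤ k := by omega
  have d2 : k + 10 ≤ b := by omega
  have d3 : 7 ≤ k := by omega
  have d4 : k + 6 ≤ a ∨ a + 6 ≤ k := by omega
  have d5 : k + 4 ≤ i ∨ i + 4 ≤ k := by omega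
  have e1 : l + 11 ≤ u ∨ u + 11 ≤ l := by omega
  have e2 : 7 ≤ l := by omega
  have e2b : l + 6 ≤ b := by omega
  have e2c : l + 10 ≤ a ∨ a + 8 ≤ l := by omega
  have e3 : l + 4 ≤ j ∨ j + 4 ≤ l := by omega
  clear D1 D2 D3 D4 D5 E1 E2 E2b E2c E3
  by_contra hlt
  rcases C6 with C6 | C6
  · have hu' : u = i + 1 := by omega
    subst hu'
    rcases C5 with C5 | C5 <;> rcases C9 with C9 | C9 <;> rcases d1 with d1 | d1 <;>
      rcases d4 with d4 | d4 <;> rcases d5 with d5 | d5 <;> rcases e2c with e2c | e2c <;>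
      rcases e1 with e1 | e1 <;> rcases e3 with e3 | e3 <;> omega
  · have hu' : i = u + 1 := by omega
    subst hu'
    rcases C5 with C5 | C5 <;> rcases C9 with C9 | C9 <;> rcases d1 with d1 | d1 <;>
      rcases d4 with d4 | d4 <;> rcases d5 with d5 | d5 <;> rcases e2c with e2c | e2c <;>
      rcases e1 with e1 | e1 <;> rcases e3 with e3 | e3 <;> omega

/-- **A long cycle.** -/
theorem exists_long (h12 : ∀ (w : V) (c : G.Walk w w), c.IsCycle → 12 ≤ c.length)
    (h3 : Three G.Adj) {x y : V} (hxy : G.Adj x y) :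
    ∃ L p b a, Pth G L p ∧ b ≤ L ∧ 39 ≤ b ∧ G.Adj (p 0) (p b) ∧
      11 ≤ a ∧ a + 10 ≤ b ∧ G.Adj (p 0) (p a) ∧
      ∀ q, Pth G L q → ∀ y, G.Adj (q 0) y → ∃ i, 1 ≤ i ∧ i ≤ b ∧ q i = y := by
  obtain ⟨L, ⟨p0, P0⟩, hL⟩ := exists_max (P := fun L => ∃ p, Pth G L p) (n := 1)
    (N := Fintype.card V) ⟨fun i => if i = 0 then x else y, by
      constructor
      · intro i hi
        have : i = 0 := by omega
        subst this
        simpa using hxy
      · intro i hi j hj hij
        have hi' : i = 0 ∨ i = 1 := by omega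
        have hj' : j = 0 ∨ j = 1 := by omega
        rcases hi' with rfl | rfl <;> rcases hj' with rfl | rfl
        · rfl
        · exact absurd (by simpa using hij) hxy.ne
        · exact absurd (by simpa using hij.symm) hxy.ne
        · rfl⟩ (fun m ⟨p, P⟩ => P.card.le)
  have hmax : ∀ K q, Pth G K q → K ≤ L := fun K q hq => hL K ⟨q, hq⟩
  have hL1 : 1 ≤ L := hL 1 ⟨fun i => if i = 0 then x else y, by
      constructor
      · intro i hi
        have : i = 0 := by omega
        subst this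
        simpa using hxy
      · intro i hi j hj hij
        have hi' : i = 0 ∨ i = 1 := by omega
        have hj' : j = 0 ∨ j = 1 := by omega
        rcases hi' with rfl | rfl <;> rcases hj' with rfl | rfl
        · rfl
        · exact absurd (by simpa using hij) hxy.ne
        · exact absurd (by simpa using hij.symm) hxy.ne
        · rfl⟩
  obtain ⟨b, ⟨p, P, hb1, hbL, hb⟩, hbmax⟩ := exists_max
    (P := fun b => ∃ p, Pth G L p ∧ 1 ≤ b ∧ b ≤ L ∧ G.Adj (p 0) (p b)) (n := 1) (N := L)
    ⟨p0, P0, le_rfl, hL1, P0.adj 0 (by omega)⟩ (fun m ⟨p, _, _, h, _⟩ => h)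
  have hnb : ∀ q, Pth G L q → ∀ y, G.Adj (q 0) y → ∃ i, 1 ≤ i ∧ i ≤ b ∧ q i = y := by
    intro q Q y hy
    obtain ⟨i, i1, i2, i3⟩ := Q.nbr hmax hy
    exact ⟨i, i1, hbmax i ⟨q, Q, i1, i2, by rw [i3]; exact hy⟩, i3⟩
  -- the second chord of `p 0`
  obtain ⟨a, ⟨ha1, hab', ha⟩, ha2, hab⟩ : ∃ a, (1 ≤ a ∧ a ≤ b ∧ G.Adj (p 0) (p a)) ∧ a ≠ 1 ∧
      a ≠ b := by
    obtain ⟨y1, y2, y3, a1, a2, a3, n1, n2, n3⟩ := h3 (p 0) (p b) hb
    obtain ⟨i1, b1, c1, d1⟩ := hnb p P y1 a1
    obtain ⟨i2, b2, c2, d2⟩ := hnb p P y2 a2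
    obtain ⟨i3, b3, c3, d3⟩ := hnb p P y3 a3
    exact third (a := 1) (b := b)
      (R := fun i => 1 ≤ i ∧ i ≤ b ∧ G.Adj (p 0) (p i))
      (fun e => n1 (by rw [← d1, ← d2, e])) (fun e => n2 (by rw [← d1, ← d3, e]))
      (fun e => n3 (by rw [← d2, ← d3, e])) ⟨b1, c1, by rw [d1]; exact a1⟩
      ⟨b2, c2, by rw [d2]; exact a2⟩ ⟨b3, c3, by rw [d3]; exact a3⟩
  suffices hh : 39 ≤ b ∧ 11 ≤ a ∧ a + 10 ≤ b from
    ⟨L, p, b, a, P, hbL, hh.1, hb, hh.2.1, hh.2.2, ha, hnb⟩
  obtain ⟨j, hjb, hj1, hj, hj2, hj3⟩ := P.chord h3 hnb hbL (t := b) (by omega) le_rfl hb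
  obtain ⟨i, hib, hi1, hi, hi2, hi3⟩ := P.chord h3 hnb hbL (t := a) (by omega) hab' ha
  have ne := fun {s t : ℕ} (hs : s ≤ L) (ht : t ≤ L) (h : s ≠ t) => P.ne hs ht h
  -- adjacencies of consecutive vertices
  have hb' : G.Adj (p (b - 1)) (p b) := by
    have := P.adj (b - 1) (by omega)
    rwa [Nat.sub_add_cancel (by omega)] at this
  have ha' : G.Adj (p (a - 1)) (p a) := by
    have := P.adj (a - 1) (by omega)
    rwa [Nat.sub_add_cancel (by omega)] at this
  -- C1
  have C1 : 11 ≤ a := by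
    by_contra hlt
    have h1 := P.up' (by omega) (by omega : 0 < a) (Ch.one ha.symm) (ne (by omega) (by omega)
      (by omega))
    exact h1.closed h12 (by omega)
  -- C2
  have C2 : a + 10 ≤ b := by
    by_contra hlt
    have h1 := P.up' hbL (by omega : a < b) (Ch.one hb.symm) (ne (by omega) (by omega)
      (by omega))
    have h2 := Ch.step ha (ne (by omega) (by omega) (by omega)) h1
    exact h2.closed h12 (by omega)
  -- the chain `j, b - 1, b, 0`
  have K2 : Ch G 2 (p j) (p (b - 1)) (p 0) :=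
    Ch.step hj.symm (ne (by omega) hbL hj3)
      (Ch.step hb' (ne (by omega) (by omega) (by omega)) (Ch.one hb.symm))
  have C4 : 9 ≤ j := by
    by_contra hlt
    by_cases h0 : j = 0
    · rw [h0] at K2
      exact K2.closed h12 (by omega)
    · have h1 := P.up' (by omega) (by omega : 0 < j) K2 (ne (by omega) (by omega) (by omega))
      exact h1.closed h12 (by omega)
  have C3 : j + 12 ≤ b := by
    by_contra hlt
    have h1 := P.up' (by omega) (by omega : j < b - 1) (Ch.one hj)
      (ne (by omega) (by omega) (by omega))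
    exact h1.closed h12 (by omega)
  have C5 : j + 8 ≤ a ∨ a + 8 ≤ j := by
    by_contra hlt
    push Not at hlt
    rcases lt_trichotomy a j with h | h | h
    · have h1 := P.up' (by omega) h K2 (ne (by omega) (by omega) (by omega))
      have h2 := Ch.step ha (ne (by omega) (by omega) (by omega)) h1
      exact h2.closed h12 (by omega)
    · subst h
      have h2 := Ch.step ha (ne (by omega) (by omega) (by omega)) K2
      exact h2.closed h12 (by omega)
    · have h1 := P.down' (by omega) h K2 (ne (by omega) (by omega) (by omega))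
      have h2 := Ch.step ha (ne (by omega) (by omega) (by omega)) h1
      exact h2.closed h12 (by omega)
  -- the chain `i, a - 1, a, 0`
  have M2 : Ch G 2 (p i) (p (a - 1)) (p 0) :=
    Ch.step hi.symm (ne (by omega) (by omega) hi3)
      (Ch.step ha' (ne (by omega) (by omega) (by omega)) (Ch.one ha.symm))
  have C7 : 9 ≤ i := by
    by_contra hlt
    by_cases h0 : i = 0
    · rw [h0] at M2
      exact M2.closed h12 (by omega)
    · have h1 := P.up' (by omega) (by omega : 0 < i) M2 (ne (by omega) (by omega) (by omega))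
      exact h1.closed h12 (by omega)
  have C6 : i + 12 ≤ a ∨ a + 10 ≤ i := by
    by_contra hlt
    push Not at hlt
    rcases lt_or_gt_of_ne hi3 with h | h
    · have h1 := P.up' (by omega) (by omega : i < a - 1) (Ch.one hi)
        (ne (by omega) (by omega) (by omega))
      exact h1.closed h12 (by omega)
    · have h1 := P.up' (by omega) (by omega : a - 1 < i) (Ch.one hi.symm)
        (ne (by omega) (by omega) (by omega))
      exact h1.closed h12 (by omega)
  have C8 : i + 8 ≤ b := by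
    by_contra hlt
    by_cases h : i = b
    · rw [h] at M2
      have h2 := Ch.step hb (ne (by omega) (by omega) (by omega)) M2
      exact h2.closed h12 (by omega)
    · have h1 := P.down' hbL (by omega : i < b) M2 (ne (by omega) (by omega) (by omega))
      have h2 := Ch.step hb (ne (by omega) (by omega) (by omega)) h1
      exact h2.closed h12 (by omega)
  have C9 : i + 6 ≤ j ∨ j + 6 ≤ i := by
    by_contra hlt
    push Not at hlt
    have N5 : Ch G 5 (p j) (p (b - 1)) (p i) :=
      Ch.step hj.symm (ne (by omega) hbL hj3)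
        (Ch.step hb' (ne (by omega) (by omega) (by omega))
          (Ch.step hb.symm (ne (by omega) (by omega) (by omega))
            (Ch.step ha (ne (by omega) (by omega) (by omega))
              (Ch.step ha'.symm (ne (by omega) (by omega) (by omega)) (Ch.one hi)))))
    rcases lt_trichotomy i j with h | h | h
    · have h1 := P.up' (by omega) h N5 (ne (by omega) (by omega) (by omega))
      exact h1.closed h12 (by omega)
    · subst h
      exact N5.closed h12 (by omega)
    · have h1 := P.down' (by omega) h N5 (ne (by omega) (by omega) (by omega))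
      exact h1.closed h12 (by omega)
  -- the second rotations
  obtain ⟨k, hkb, hk1, hk, hk2, hk3⟩ := P.chordA h3 hnb hbL le_rfl hb (j := j) (by omega) hj
  obtain ⟨u, l, hu, hiu, hlb, hlu, hl, hl1, hl2⟩ : ∃ u l, (u = i + 1 ∧ i + 12 ≤ a ∨
      u + 1 = i ∧ a + 10 ≤ i) ∧ G.Adj (p i) (p u) ∧ l ≤ b ∧ l ≠ u ∧ G.Adj (p u) (p l) ∧
      l ≠ u + 1 ∧ l ≠ u - 1 := by
    rcases C6 with h | h
    · obtain ⟨l, l1, l2, l3, l4, l5⟩ := P.chordA h3 hnb hbL hab' ha (j := i) (by omega) hi
      exact ⟨i + 1, l, Or.inl ⟨rfl, h⟩, P.adj i (by omega), l1, l2, l3, by omega, by omega⟩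
    · obtain ⟨l, l1, l2, l3, l4, l5⟩ := P.chordB h3 hnb hbL (by omega) hab' ha (i := i)
        (by omega) hib hi
      have hadj := P.adj (i - 1) (by omega)
      rw [Nat.sub_add_cancel (by omega)] at hadj
      exact ⟨i - 1, l, Or.inr ⟨by omega, h⟩, hadj.symm, l1, l2, l3, by omega, by omega⟩
  have huL : u + 1 ≤ L ∧ 8 ≤ u := by omega
  have hjj : G.Adj (p j) (p (j + 1)) := P.adj j (by omega)
  have nj : ∀ {s t : ℕ}, s ≤ L → t ≤ L → s ≠ t → p s ≠ p t := fun hs ht h => P.ne hs ht h
  -- D1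
  have D1 := P.close h12 (s := j + 1) (t := k) (by omega) (by omega) (Ch.one hk.symm)
      (ne (by omega) (by omega) (by omega)) (fun h => ne (by omega) h (by omega))
  -- D2
  have k2 : Ch G 2 (p (b - 1)) (p j) (p k) :=
    Ch.step hj (ne (by omega) (by omega) (by omega))
      (Ch.step hjj (ne (by omega) (by omega) (by omega)) (Ch.one hk))
  have D2 := P.close h12 (s := k) (t := b - 1) (by omega) (by omega) k2
      (ne (by omega) (by omega) (by omega)) (fun h => ne (by omega) h (by omega))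
  have D2' : k ≠ b := by
    rintro rfl
    exact (Ch.step hb'.symm (ne (by omega) (by omega) (by omega)) k2).closed h12 (by omega)
  -- D3
  have K3 : Ch G 3 (p (j + 1)) (p j) (p 0) :=
    Ch.step hjj.symm (ne (by omega) (by omega) (by omega)) K2
  have R4 : Ch G 4 (p k) (p (j + 1)) (p 0) :=
    Ch.step hk.symm (ne (by omega) (by omega) (by omega)) K3
  have D3 := P.close h12 (s := 0) (t := k) (by omega) (by omega) R4
      (ne (by omega) (by omega) (by omega)) (fun h => ne (by omega) h (by omega))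
  -- D4
  have D4 := P.close1 h12 (s := a) (t := k) (by omega) (by omega) R4
      (ne (by omega) (by omega) (by omega)) (fun h => ne (by omega) h (by omega)) ha
      (ne (by omega) (by omega) (by omega)) (fun h => ne (by omega) h (by omega))
      (ne (by omega) (by omega) (by omega))
  -- D5
  have N5 : Ch G 5 (p j) (p (b - 1)) (p i) :=
    Ch.step hj.symm (ne (by omega) hbL hj3)
      (Ch.step hb' (ne (by omega) (by omega) (by omega))
        (Ch.step hb.symm (ne (by omega) (by omega) (by omega))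
          (Ch.step ha (ne (by omega) (by omega) (by omega))
            (Ch.step ha'.symm (ne (by omega) (by omega) (by omega)) (Ch.one hi)))))
  have N7 : Ch G 7 (p k) (p (j + 1)) (p i) :=
    Ch.step hk.symm (ne (by omega) (by omega) (by omega))
      (Ch.step hjj.symm (ne (by omega) (by omega) (by omega)) N5)
  have D5 := P.close h12 (s := i) (t := k) (by omega) (by omega) N7
      (ne (by omega) (by omega) (by omega)) (fun h => ne (by omega) h (by omega))
  -- E1
  have E1 := P.close h12 (s := u) (t := l) (by omega) (by omega) (Ch.one hl.symm)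
      (ne (by omega) (by omega) (by omega)) (fun h => ne (by omega) h (by omega))
  -- E2
  have S4 : Ch G 4 (p l) (p u) (p 0) :=
    Ch.step hl.symm (ne (by omega) (by omega) (by omega))
      (Ch.step hiu.symm (ne (by omega) (by omega) (by omega)) M2)
  have E2 := P.close h12 (s := 0) (t := l) (by omega) (by omega) S4
      (ne (by omega) (by omega) (by omega)) (fun h => ne (by omega) h (by omega))
  have E2b := P.close1 h12 (s := b) (t := l) (by omega) (by omega) S4
      (ne (by omega) (by omega) (by omega)) (fun h => ne (by omega) h (by omega)) hb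
      (ne (by omega) (by omega) (by omega)) (fun h => ne (by omega) h (by omega))
      (ne (by omega) (by omega) (by omega))
  have T2 : Ch G 2 (p (a - 1)) (p i) (p l) :=
    Ch.step hi (ne (by omega) (by omega) (by omega))
      (Ch.step hiu (ne (by omega) (by omega) (by omega)) (Ch.one hl))
  have E2c := P.close h12 (s := l) (t := a - 1) (by omega) (by omega) T2
      (ne (by omega) (by omega) (by omega)) (fun h => ne (by omega) h (by omega))
  -- E3
  have W7 : Ch G 7 (p l) (p u) (p j) :=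
    Ch.step hl.symm (ne (by omega) (by omega) (by omega))
      (Ch.step hiu.symm (ne (by omega) (by omega) (by omega))
        (Ch.step hi.symm (ne (by omega) (by omega) (by omega))
          (Ch.step ha' (ne (by omega) (by omega) (by omega))
            (Ch.step ha.symm (ne (by omega) (by omega) (by omega))
              (Ch.step hb (ne (by omega) (by omega) (by omega))
                (Ch.step hb'.symm (ne (by omega) (by omega) (by omega)) (Ch.one hj)))))))
  have E3 := P.close h12 (s := j) (t := l) (by omega) (by omega) W7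
      (ne (by omega) (by omega) (by omega)) (fun h => ne (by omega) h (by omega))
  -- F2
  have F2 : 11 ≤ (0 + ((l - (j + 1)) + (j + 1 - l)) + 1) + ((k - u) + (u - k)) := by
    obtain ⟨z, hz', hz⟩ := P.seg (s := l) (t := j + 1) (by omega) (by omega) (by omega)
      (Ch.one hk) (ne (by omega) (by omega) (by omega)) (fun h => ne (by omega) h (by omega))
    have huz : p u ≠ z := by
      rcases hz' with ⟨hs1, rfl⟩ | rfl
      · exact ne (by omega) hs1 (by omega)
      · exact ne (by omega) (by omega) (by omega)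
    exact P.close h12 (s := k) (t := u) (by omega) (by omega) (Ch.step hl huz hz)
      (ne (by omega) (by omega) (by omega)) (fun h => ne (by omega) h (by omega))
  clear nj huL N7 N5 T2 W7 S4 R4 K3 k2 M2 K2
  exact ⟨numL C1 C2 C3 C4 C5 C7 C6 C8 C9 hu D1 D2 D3 D4 D5 E1 E2 E2b E2c E3 F2 hkb hlb, C1, C2⟩

end longest

end Pool.Agent.V11186.FV
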