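import Mathlib
import Pool.Agent.V11186.FV.Longest
import Pool.Agent.V11186.FV.CSearch

/-!
# Soundness of the search
-/

set_option autoImplicit false
set_option linter.unusedSectionVars false

namespace Pool.Agent.V11186.FV

open Finset Pool.Agent.TH676.Z Pool.Agent.Y335.FL Pool.Agent.Y358.IN

namespace CS

theorem nbeq {a b : ℕ} : Nat.beq a b = true ↔ a = b :=
  ⟨Nat.eq_of_beq_eq_true, fun h => h ▸ Nat.beq_refl a⟩

theorem rng_spec {g : ℕ → Bool} {a : ℕ} : ∀ n, rng g a n = true → ∀ k < n, g (a + k) = true := by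
  intro n
  induction n with
  | zero => intro _ k hk; omega
  | succ n ih =>
    intro h k hk
    have h' : Bool.rec (motive := fun _ => Bool) false (rng g a n) (g (a + n)) = true := h
    cases hg : g (a + n) with
    | false => rw [hg] at h'; exact absurd h' (by simp)
    | true =>
      rw [hg] at h'
      by_cases e : k = n
      · rw [e]; exact hg
      · exact ih h' k (by omega)

theorem bit_iff {S v : ℕ} : bit S v = true ↔ S.testBit v = true := by
  unfold bit
  rw [nbeq]
  show (S >>> v) &&& 1 = 1 ↔ _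
  rw [Nat.and_one_is_mod, Nat.shiftRight_eq_div_pow, Nat.testBit_eq_decide_div_mod_eq,
    decide_eq_true_eq]

theorem three_eq (nb : List ℕ) (A B : Bool) :
    three nb A B = if 3 ≤ nb.length then A else B := by
  match nb with
  | [] => rfl
  | [_] => rfl
  | [_, _] => rfl
  | _ :: _ :: _ :: t =>
    have : 3 ≤ (t.length + 1 + 1 + 1) := by omega
    simp only [List.length_cons, this, if_true]
    rfl

theorem allB_spec {g : ℕ → Bool} : ∀ n A, allB g n A = true → ∀ v, A.testBit v = true →
    g v = true := by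
  intro n
  induction n with
  | zero =>
    intro A h v hv
    have h' : Nat.beq A 0 = true := h
    rw [nbeq] at h'
    rw [h', Nat.zero_testBit] at hv
    exact absurd hv (by simp)
  | succ n ih =>
    intro A h v hv
    have h' : Bool.rec (motive := fun _ => Bool)
      (Bool.rec (motive := fun _ => Bool) false
        (allB g n (Nat.xor A (Nat.shiftLeft 1 (Nat.log2 A)))) (g (Nat.log2 A))) true
      (Nat.beq A 0) = true := h
    cases hA : Nat.beq A 0 with
    | true =>
      rw [nbeq] at hA
      rw [hA, Nat.zero_testBit] at hv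
      exact absurd hv (by simp)
    | false =>
      rw [hA] at h'
      cases hg : g (Nat.log2 A) with
      | false => rw [hg] at h'; exact absurd h' (by simp)
      | true =>
        rw [hg] at h'
        by_cases e : v = Nat.log2 A
        · rw [e]; exact hg
        · refine ih _ h' v ?_
          show (A ^^^ (1 <<< Nat.log2 A)).testBit v = true
          rw [Nat.testBit_xor, hv, Nat.shiftLeft_eq, one_mul, Nat.testBit_two_pow,
            decide_eq_false (fun h => e h.symm)]
          rfl

theorem mem_push {lv y : ℕ} {l : List ℕ} {st : List (ℕ × List ℕ)} {t : ℕ × List ℕ} :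
    ∀ vs, t ∈ push lv l y st vs → t ∈ st ∨ ∃ v ∈ vs, t = (lv, rotR v l []) := by
  intro vs
  induction vs with
  | nil => exact fun h => Or.inl h
  | cons v vs ih =>
    intro h
    have h' : t ∈ Bool.rec (motive := fun _ => List (ℕ × List ℕ))
      ((lv, rotR v l []) :: push lv l y st vs) (push lv l y st vs) (Nat.beq v y) := h
    cases hb : Nat.beq v y with
    | true =>
      rw [hb] at h'
      rcases ih h' with h1 | ⟨v', h1, h2⟩
      · exact Or.inl h1
      · exact Or.inr ⟨v', List.mem_cons_of_mem _ h1, h2⟩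
    | false =>
      rw [hb] at h'
      rcases List.mem_cons.1 h' with h1 | h1
      · exact Or.inr ⟨v, List.mem_cons_self, h1⟩
      · rcases ih h1 with h1 | ⟨v', h1, h2⟩
        · exact Or.inl h1
        · exact Or.inr ⟨v', List.mem_cons_of_mem _ h1, h2⟩

theorem mem_expd {lv y : ℕ} {l : List ℕ} {st : List (ℕ × List ℕ)} {t : ℕ × List ℕ}
    {nb : List ℕ} (h : t ∈ expd lv l y st nb) :
    t ∈ st ∨ ∃ v ∈ nb, ∃ k, t = (k, rotR v l []) := by
  cases lv with
  | zero => exact Or.inl h
  | succ k =>
    rcases mem_push nb h with h1 | ⟨v, h1, h2⟩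
    · exact Or.inl h1
    · exact Or.inr ⟨v, h1, k, h2⟩

theorem rec_append (acc l : List ℕ) :
    List.rec (motive := fun _ => List ℕ) l (fun a _ r => a :: r) acc = acc ++ l := by
  induction acc with
  | nil => rfl
  | cons a t ih =>
    show a :: List.rec (motive := fun _ => List ℕ) l (fun a _ r => a :: r) t = a :: (t ++ l)
    rw [ih]

theorem rotR_eq (v : ℕ) (post : List ℕ) : ∀ (pre acc : List ℕ), v ∉ pre →
    rotR v (pre ++ v :: post) acc = pre.reverse ++ acc ++ v :: post := by
  intro pre
  induction pre with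
  | nil =>
    intro acc _
    show Bool.rec (motive := fun _ => List ℕ) (rotR v post (v :: acc))
      (List.rec (motive := fun _ => List ℕ) (v :: post) (fun a _ r => a :: r) acc)
      (Nat.beq v v) = _
    rw [Nat.beq_refl]
    show List.rec (motive := fun _ => List ℕ) (v :: post) (fun a _ r => a :: r) acc = _
    rw [rec_append]
    simp
  | cons x pre ih =>
    intro acc hv
    show Bool.rec (motive := fun _ => List ℕ) (rotR v (pre ++ v :: post) (x :: acc))
      (List.rec (motive := fun _ => List ℕ) (x :: (pre ++ v :: post)) (fun a _ r => a :: r) acc)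
      (Nat.beq x v) = _
    have hx : Nat.beq x v = false := by
      cases h : Nat.beq x v with
      | false => rfl
      | true =>
        rw [nbeq] at h
        exact absurd (h ▸ List.mem_cons_self) hv
    rw [hx]
    show rotR v (pre ++ v :: post) (x :: acc) = _
    rw [ih _ (fun h => hv (List.mem_cons_of_mem _ h))]
    simp

theorem mem_part {w v : ℕ} : ∀ ch, v ∈ part w ch ↔
    ∃ m ∈ ch, bit m w = true ∧ v = Nat.log2 (Nat.xor m (Nat.shiftLeft 1 w)) := by
  intro ch
  induction ch with
  | nil => simp [part]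
  | cons m ch ih =>
    have h : part w (m :: ch) = Bool.rec (motive := fun _ => List ℕ) (part w ch)
      (Nat.log2 (Nat.xor m (Nat.shiftLeft 1 w)) :: part w ch) (bit m w) := rfl
    rw [h]
    cases hb : bit m w with
    | false =>
      show v ∈ part w ch ↔ _
      rw [ih]
      constructor
      · rintro ⟨m', h1, h2⟩
        exact ⟨m', List.mem_cons_of_mem _ h1, h2⟩
      · rintro ⟨m', h1, h2, h3⟩
        rcases List.mem_cons.1 h1 with rfl | h1
        · rw [hb] at h2
          exact absurd h2 (by simp)
        · exact ⟨m', h1, h2, h3⟩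
    | true =>
      show v ∈ Nat.log2 (Nat.xor m (Nat.shiftLeft 1 w)) :: part w ch ↔ _
      rw [List.mem_cons, ih]
      constructor
      · rintro (h1 | ⟨m', h1, h2⟩)
        · exact ⟨m, List.mem_cons_self, hb, h1⟩
        · exact ⟨m', List.mem_cons_of_mem _ h1, h2⟩
      · rintro ⟨m', h1, h2, h3⟩
        rcases List.mem_cons.1 h1 with rfl | h1
        · exact Or.inl h3
        · exact Or.inr ⟨m', h1, h2, h3⟩

theorem mem_nbrs {b w v : ℕ} {ch : List ℕ} : v ∈ nbrs b ch w ↔
    v ∈ part w ch ∨ (w + 1 ≤ b ∧ v = w + 1) ∨ (w ≠ 0 ∧ v = w - 1) := by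
  have h : nbrs b ch w = part w ch ++ (Bool.rec (motive := fun _ => List ℕ)
      (Bool.rec (motive := fun _ => List ℕ) [w - 1] [] (Nat.beq w 0))
      ((w + 1) :: Bool.rec (motive := fun _ => List ℕ) [w - 1] [] (Nat.beq w 0))
      (Nat.ble (w + 1) b)) := by
    unfold nbrs
    induction part w ch with
    | nil => rfl
    | cons a t ih =>
      show a :: _ = a :: _
      rw [ih]
      rfl
  rw [h, List.mem_append]
  have h0 : ∀ v, v ∈ (Bool.rec (motive := fun _ => List ℕ) [w - 1] [] (Nat.beq w 0) : List ℕ) ↔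
      w ≠ 0 ∧ v = w - 1 := by
    intro v
    cases hw : Nat.beq w 0 with
    | true =>
      rw [nbeq] at hw
      simp [hw]
    | false =>
      have : w ≠ 0 := by
        rintro rfl
        exact absurd hw (by decide)
      simp [this]
  cases hb : Nat.ble (w + 1) b with
  | true =>
    have hb' := Nat.le_of_ble_eq_true hb
    show v ∈ part w ch ∨ v ∈ (w + 1) :: _ ↔ _
    rw [List.mem_cons, h0]
    constructor
    · rintro (h | h | h)
      · exact Or.inl h
      · exact Or.inr (Or.inl ⟨hb', h⟩)
      · exact Or.inr (Or.inr h)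
    · rintro (h | h | h)
      · exact Or.inl h
      · exact Or.inr (Or.inl h.2)
      · exact Or.inr (Or.inr h)
  | false =>
    have hb' : ¬ (w + 1 ≤ b) := fun h' => by
      rw [Nat.ble_eq_true_of_le h'] at hb
      exact absurd hb (by simp)
    show v ∈ part w ch ∨ v ∈ _ ↔ _
    rw [h0]
    constructor
    · rintro (h | h)
      · exact Or.inl h
      · exact Or.inr (Or.inr h)
    · rintro (h | h | h)
      · exact Or.inl h
      · exact absurd h.1 hb'
      · exact Or.inr h

theorem two_bits {x y : ℕ} (hxy : x ≠ y) : ((2 ^ x ||| 2 ^ y) ^^^ 2 ^ x) = 2 ^ y := by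
  apply Nat.eq_of_testBit_eq
  intro i
  rw [Nat.testBit_xor, Nat.testBit_or, Nat.testBit_two_pow, Nat.testBit_two_pow]
  by_cases h1 : x = i
  · subst h1
    simp [Ne.symm hxy]
  · simp [h1]

theorem partner {x y : ℕ} (hxy : x ≠ y) :
    Nat.log2 (Nat.xor (2 ^ x ||| 2 ^ y) (Nat.shiftLeft 1 x)) = y := by
  show Nat.log2 ((2 ^ x ||| 2 ^ y) ^^^ (1 <<< x)) = y
  rw [Nat.shiftLeft_eq, one_mul, two_bits hxy, Nat.log2_two_pow]

theorem partner' {x y : ℕ} (hxy : x ≠ y) :
    Nat.log2 (Nat.xor (2 ^ x ||| 2 ^ y) (Nat.shiftLeft 1 y)) = x := by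
  rw [Nat.lor_comm]
  exact partner hxy.symm

theorem bit_two {x y w : ℕ} : bit (2 ^ x ||| 2 ^ y) w = true ↔ w = x ∨ w = y := by
  rw [bit_iff, Nat.testBit_or, Nat.testBit_two_pow, Nat.testBit_two_pow, Bool.or_eq_true,
    decide_eq_true_eq, decide_eq_true_eq]
  constructor
  · rintro (h | h)
    · exact Or.inl h.symm
    · exact Or.inr h.symm
  · rintro (h | h)
    · exact Or.inl h.symm
    · exact Or.inr h.symm

end CS

end Pool.Agent.V11186.FV
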