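import Mathlib
import Pool.Agent.V11186.FV.CSound

/-!
# Soundness of the search, second part
-/

set_option autoImplicit false
set_option linter.unusedSectionVars false

namespace Pool.Agent.V11186.FV

open Finset Pool.Agent.TH676.Z Pool.Agent.Y335.FL Pool.Agent.Y358.IN

namespace CS

section sound

variable {V : Type} [Fintype V] [DecidableEq V] {G : SimpleGraph V} {L b : ℕ} {p : ℕ → V}

/-- a chord -/
def ChOK (G : SimpleGraph V) (p : ℕ → V) (b m : ℕ) : Prop :=
  ∃ x y, x ≤ b ∧ y ≤ b ∧ x ≠ y ∧ m = 2 ^ x ||| 2 ^ y ∧ G.Adj (p x) (p y)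

/-- the known edges -/
def KE (p : ℕ → V) (b : ℕ) (ch : List ℕ) (e : Sym2 V) : Prop :=
  (∃ i, i + 1 ≤ b ∧ e = s(p i, p (i + 1))) ∨
    ∃ m ∈ ch, ∃ x y, x ≤ b ∧ y ≤ b ∧ x ≠ y ∧ m = 2 ^ x ||| 2 ^ y ∧ e = s(p x, p y)

/-- reached by a walk of known edges -/
def Re (G : SimpleGraph V) (p : ℕ → V) (b : ℕ) (ch : List ℕ) (n u v : ℕ) : Prop :=
  ∃ W : G.Walk (p u) (p v), W.length ≤ n ∧ ∀ e ∈ W.edges, KE p b ch e

theorem Re.mono {ch : List ℕ} {n m u v : ℕ} (h : Re G p b ch n u v) (hm : n ≤ m) :
    Re G p b ch m u v := by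
  obtain ⟨W, h1, h2⟩ := h
  exact ⟨W, h1.trans hm, h2⟩

theorem Re.step {ch : List ℕ} {n u v z : ℕ} (h : Re G p b ch n u v) (ha : G.Adj (p v) (p z))
    (hk : KE p b ch s(p v, p z)) : Re G p b ch (n + 1) u z := by
  obtain ⟨W, h1, h2⟩ := h
  refine ⟨W.concat ha, by rw [SimpleGraph.Walk.length_concat]; omega, fun e he => ?_⟩
  rw [SimpleGraph.Walk.edges_concat, List.concat_eq_append, List.mem_append,
    List.mem_singleton] at he
  rcases he with he | he
  · exact h2 e he
  · rw [he]; exact hk

theorem bs_sound {Q : ℕ → Prop} {S : ℕ} : ∀ (ch : List ℕ) (T : ℕ),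
    (∀ v, T.testBit v = true → Q v) →
    (∀ m ∈ ch, (∃ x, S.testBit x = true ∧ m.testBit x = true) →
      ∀ v, m.testBit v = true → Q v) →
    ∀ v, (bs ch S T).testBit v = true → Q v := by
  intro ch
  induction ch with
  | nil => exact fun T hT _ v hv => hT v hv
  | cons m ch ih =>
    intro T hT hS v hv
    have h' : (bs ch S (Bool.rec (motive := fun _ => ℕ) (Nat.lor T m) T
      (Nat.beq (Nat.land S m) 0))).testBit v = true := hv
    refine ih _ ?_ (fun m' hm' => hS m' (List.mem_cons_of_mem _ hm')) v h'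
    intro z hz
    cases hb : Nat.beq (Nat.land S m) 0 with
    | true =>
      rw [hb] at hz
      exact hT z hz
    | false =>
      rw [hb] at hz
      have hz' : (T ||| m).testBit z = true := hz
      rw [Nat.testBit_or, Bool.or_eq_true] at hz'
      rcases hz' with h | h
      · exact hT z h
      · refine hS m List.mem_cons_self ?_ z h
        by_contra hcon
        push Not at hcon
        have : S &&& m = 0 := by
          apply Nat.eq_of_testBit_eq
          intro i
          rw [Nat.testBit_and, Nat.zero_testBit]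
          cases h1 : S.testBit i with
          | false => rfl
          | true =>
            have := hcon i h1
            simpa using this
        have h2 : Nat.beq (Nat.land S m) 0 = true := nbeq.2 this
        rw [h2] at hb
        exact absurd hb (by simp)

theorem ball_sound (P : Pth G L p) (hbL : b ≤ L) {ch : List ℕ}
    (hch : ∀ m ∈ ch, ChOK G p b m) {u : ℕ} :
    ∀ (n S r : ℕ), (∀ v, S.testBit v = true → v ≤ b ∧ Re G p b ch r u v) →
      ∀ v, (ball (2 ^ (b + 1) - 1) ch n S).testBit v = true → v ≤ b ∧ Re G p b ch (r + n) u v := by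
  intro n
  induction n with
  | zero => exact fun S r h v hv => h v hv
  | succ n ih =>
    intro S r h v hv
    have h' : (ball (2 ^ (b + 1) - 1) ch n (bs ch S (Nat.lor S (Nat.lor
      (Nat.land (Nat.shiftLeft S 1) (2 ^ (b + 1) - 1)) (Nat.shiftRight S 1))))).testBit v =
        true := hv
    have h2 := ih _ (r + 1) (fun z hz => ?_) v h'
    · rw [show r + (n + 1) = r + 1 + n by omega]
      exact h2
    · refine bs_sound (Q := fun z => z ≤ b ∧ Re G p b ch (r + 1) u z) ch _ ?_ ?_ z hz
      · intro z hz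
        have hz' : (S ||| (((S <<< 1) &&& (2 ^ (b + 1) - 1)) ||| (S >>> 1))).testBit z = true := hz
        rw [Nat.testBit_or, Nat.testBit_or, Nat.testBit_and, Nat.testBit_two_pow_sub_one,
          Nat.testBit_shiftLeft, Nat.testBit_shiftRight] at hz'
        simp only [Bool.or_eq_true, Bool.and_eq_true, decide_eq_true_eq] at hz'
        rcases hz' with hz' | ⟨⟨h1, h2⟩, h3⟩ | hz'
        · obtain ⟨k1, k2⟩ := h z hz'
          exact ⟨k1, k2.mono (by omega)⟩
        · obtain ⟨k1, k2⟩ := h (z - 1) h2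
          refine ⟨by omega, ?_⟩
          have ha := P.adj (z - 1) (by omega)
          rw [Nat.sub_add_cancel h1] at ha
          exact k2.step ha (Or.inl ⟨z - 1, by omega, by rw [Nat.sub_add_cancel h1]⟩)
        · obtain ⟨k1, k2⟩ := h (1 + z) hz'
          rw [add_comm] at k1 k2
          refine ⟨by omega, ?_⟩
          have ha := P.adj z (by omega)
          exact k2.step ha.symm (Or.inl ⟨z, by omega, Sym2.eq_swap⟩)
      · rintro m hm ⟨x, hx1, hx2⟩ z hz
        obtain ⟨x1, y1, a1, a2, a3, a4, a5⟩ := hch m hm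
        have hmx : x = x1 ∨ x = y1 := bit_two.1 (bit_iff.2 (a4 ▸ hx2))
        have hmz : z = x1 ∨ z = y1 := bit_two.1 (bit_iff.2 (a4 ▸ hz))
        obtain ⟨k1, k2⟩ := h x hx1
        rcases hmx with rfl | rfl <;> rcases hmz with rfl | rfl
        · exact ⟨a1, k2.mono (by omega)⟩
        · exact ⟨a2, k2.step a5 (Or.inr ⟨m, hm, _, _, a1, a2, a3, a4, rfl⟩)⟩
        · exact ⟨a1, k2.step a5.symm (Or.inr ⟨m, hm, _, _, a1, a2, a3, a4, Sym2.eq_swap⟩)⟩
        · exact ⟨a2, k2.mono (by omega)⟩

/-- an edge inside the ball is known -/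
theorem Re.known (h12 : ∀ (w : V) (c : G.Walk w w), c.IsCycle → 12 ≤ c.length) {ch : List ℕ}
    {u v : ℕ} (h : Re G p b ch 10 u v) (ha : G.Adj (p u) (p v)) : KE p b ch s(p u, p v) := by
  obtain ⟨W, h1, h2⟩ := h
  have k1 := W.length_bypass_le_length
  have e := Ord.uniq h12 W.bypass_isPath (Ord.edge_path ha) (by
    simp only [SimpleGraph.Walk.length_cons, SimpleGraph.Walk.length_nil]
    omega)
  apply h2
  apply W.edges_bypass_subset_edges
  rw [e]
  simp

theorem nbrs_adj (P : Pth G L p) (hbL : b ≤ L) {ch : List ℕ} (hch : ∀ m ∈ ch, ChOK G p b m)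
    {w v : ℕ} (hw : w ≤ b) (h : v ∈ nbrs b ch w) : v ≤ b ∧ G.Adj (p w) (p v) := by
  rcases mem_nbrs.1 h with h | ⟨h1, rfl⟩ | ⟨h1, rfl⟩
  · obtain ⟨m, m1, m2, m3⟩ := (mem_part ch).1 h
    obtain ⟨x, y, a1, a2, a3, rfl, a5⟩ := hch m m1
    rcases bit_two.1 m2 with rfl | rfl
    · rw [partner a3] at m3
      rw [m3]
      exact ⟨a2, a5⟩
    · rw [partner' a3] at m3
      rw [m3]
      exact ⟨a1, a5.symm⟩
  · exact ⟨h1, P.adj w (by omega)⟩
  · have ha := P.adj (w - 1) (by omega)
    rw [Nat.sub_add_cancel (by omega)] at ha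
    exact ⟨by omega, ha.symm⟩

theorem known_nbrs (P : Pth G L p) (hbL : b ≤ L) {ch : List ℕ} {w v : ℕ} (hw : w ≤ b)
    (hv : v ≤ b) (h : KE p b ch s(p w, p v)) : v ∈ nbrs b ch w := by
  rw [mem_nbrs]
  rcases h with ⟨i, hi, he⟩ | ⟨m, hm, x, y, a1, a2, a3, a4, he⟩
  · rw [Sym2.eq_iff] at he
    rcases he with ⟨e1, e2⟩ | ⟨e1, e2⟩
    · have k1 := P.inj _ (by omega) _ (by omega) e1
      have k2 := P.inj _ (by omega) _ (by omega) e2
      subst k1 k2
      exact Or.inr (Or.inl ⟨hi, rfl⟩)
    · have k1 := P.inj _ (by omega) _ (by omega) e1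
      have k2 := P.inj _ (by omega) _ (by omega) e2
      subst k1 k2
      exact Or.inr (Or.inr ⟨by omega, by omega⟩)
  · left
    rw [mem_part]
    rw [Sym2.eq_iff] at he
    rcases he with ⟨e1, e2⟩ | ⟨e1, e2⟩
    · have k1 := P.inj _ (by omega) _ (by omega) e1
      have k2 := P.inj _ (by omega) _ (by omega) e2
      subst k1 k2
      exact ⟨m, hm, by rw [a4]; exact bit_two.2 (Or.inl rfl), by rw [a4, partner a3]⟩
    · have k1 := P.inj _ (by omega) _ (by omega) e1
      have k2 := P.inj _ (by omega) _ (by omega) e2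
      subst k1 k2
      exact ⟨m, hm, by rw [a4]; exact bit_two.2 (Or.inr rfl), by rw [a4, partner' a3]⟩

/-- a rotated path -/
def Good (G : SimpleGraph V) (L b : ℕ) (p : ℕ → V) (l : List ℕ) : Prop :=
  l.length = b + 1 ∧ (∀ x ∈ l, x ≤ b) ∧
    ∃ q, Pth G L q ∧ ∀ i x, l[i]? = some x → q i = p x

theorem Good.nodup (P : Pth G L p) (hbL : b ≤ L) {l : List ℕ} (h : Good G L b p l) :
    l.Nodup := by
  obtain ⟨h1, h2, q, Q, h3⟩ := h
  rw [List.nodup_iff_injective_get]
  intro i j hij
  have e1 := h3 i.val (l.get i) (by simp)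
  have e2 := h3 j.val (l.get j) (by simp)
  have hi := i.isLt
  have hj := j.isLt
  have := Q.inj i.val (by omega) j.val (by omega) (by rw [e1, e2, hij])
  exact Fin.ext this

theorem Good.rot (P : Pth G L p) (hbL : b ≤ L)
    (hnb : ∀ q, Pth G L q → ∀ y, G.Adj (q 0) y → ∃ i, 1 ≤ i ∧ i ≤ b ∧ q i = y)
    {w v : ℕ} {l : List ℕ} (h : Good G L b p (w :: l)) (hv : v ≤ b)
    (ha : G.Adj (p w) (p v)) : Good G L b p (rotR v (w :: l) []) := by
  have hnd := h.nodup P hbL
  obtain ⟨h1, h2, q, Q, h3⟩ := h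
  have hq0 : q 0 = p w := h3 0 w (by simp)
  obtain ⟨i, i1, i2, i3⟩ := hnb q Q (p v) (by rw [hq0]; exact ha)
  have hil : i < (w :: l).length := by omega
  have e1 := h3 i ((w :: l)[i]) (List.getElem?_eq_getElem hil)
  have e2 : (w :: l)[i] = v := by
    refine P.inj _ ?_ _ (by omega) (by rw [← e1, i3])
    exact (h2 _ (List.getElem_mem hil)).trans hbL
  have hmem : v ∈ w :: l := by
    rw [← e2]
    exact List.getElem_mem hil
  obtain ⟨pre, post, e3⟩ := List.append_of_mem hmem
  have hpre : v ∉ pre := by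
    intro hvp
    rw [e3] at hnd
    have := List.nodup_append.1 hnd
    exact this.2.2 v hvp v List.mem_cons_self rfl
  rw [e3, rotR_eq v post pre [] hpre, List.append_nil]
  have hk1 : 1 ≤ pre.length := by
    rcases pre with _ | ⟨a, t⟩
    · exfalso
      simp only [List.nil_append, List.cons.injEq] at e3
      rw [e3.1] at ha
      exact ha.ne rfl
    · simp
  have hlen : pre.length + (post.length + 1) = b + 1 := by
    rw [e3] at h1
    simpa using h1
  have hqk : q pre.length = p v := h3 _ v (by rw [e3]; simp)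
  have R := Q.rot (j := pre.length) hk1 (by omega) (by rw [hq0, hqk]; exact ha)
  refine ⟨by simp; omega, ?_, _, R, ?_⟩
  · intro x hx
    apply h2 x
    rw [e3]
    simp only [List.mem_append, List.mem_reverse] at hx ⊢
    exact hx
  · intro i x hx
    by_cases hi : i < pre.length
    · simp only [hi, if_true]
      rw [List.getElem?_append_left (by simpa using hi), List.getElem?_reverse hi] at hx
      refine h3 _ x ?_
      rw [e3, List.getElem?_append_left (by omega)]
      exact hx
    · simp only [hi, if_false]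
      refine h3 _ x ?_
      rw [e3, List.getElem?_append_right (by omega)]
      rw [List.getElem?_append_right (by simp; omega), List.length_reverse] at hx
      exact hx

/-- an unknown neighbour -/
theorem Good.unknown (P : Pth G L p) (hbL : b ≤ L) (hb1 : 1 ≤ b)
    (hnb : ∀ q, Pth G L q → ∀ y, G.Adj (q 0) y → ∃ i, 1 ≤ i ∧ i ≤ b ∧ q i = y)
    (h3 : Three G.Adj) {w : ℕ} {l : List ℕ} (h : Good G L b p (w :: l)) (nb : List ℕ)
    (hlen : ¬ 3 ≤ nb.length) : ∃ v, v ≤ b ∧ v ∉ nb ∧ G.Adj (p w) (p v) := by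
  obtain ⟨k1, k2, q, Q, k3⟩ := h
  have hq0 : q 0 = p w := k3 0 w (by simp)
  have key : ∀ y, G.Adj (q 0) y → ∃ v, v ≤ b ∧ p v = y := by
    intro y hy
    obtain ⟨i, i1, i2, i3⟩ := hnb q Q y hy
    have hil : i < (w :: l).length := by omega
    have e1 := k3 i ((w :: l)[i]) (List.getElem?_eq_getElem hil)
    exact ⟨(w :: l)[i], k2 _ (List.getElem_mem hil), by rw [← e1, i3]⟩
  obtain ⟨y1, y2, y3, a1, a2, a3, n1, n2, n3⟩ := h3 (q 0) (q 1) (Q.adj 0 (by omega))
  obtain ⟨v1, b1, c1⟩ := key y1 a1
  obtain ⟨v2, b2, c2⟩ := key y2 a2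
  obtain ⟨v3, b3, c3⟩ := key y3 a3
  have m1 : v1 ≠ v2 := fun e => n1 (by rw [← c1, ← c2, e])
  have m2 : v1 ≠ v3 := fun e => n2 (by rw [← c1, ← c3, e])
  have m3 : v2 ≠ v3 := fun e => n3 (by rw [← c2, ← c3, e])
  rw [hq0, ← c1] at a1
  rw [hq0, ← c2] at a2
  rw [hq0, ← c3] at a3
  by_contra hcon
  push Not at hcon
  have d1 : v1 ∈ nb := by
    by_contra h
    exact hcon v1 b1 h a1
  have d2 : v2 ∈ nb := by
    by_contra h
    exact hcon v2 b2 h a2
  have d3 : v3 ∈ nb := by
    by_contra h
    exact hcon v3 b3 h a3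
  have hsub : ({v1, v2, v3} : Finset ℕ) ⊆ nb.toFinset := by
    intro x hx
    simp only [mem_insert, mem_singleton] at hx
    rw [List.mem_toFinset]
    rcases hx with rfl | rfl | rfl <;> assumption
  have hc : ({v1, v2, v3} : Finset ℕ).card = 3 := by
    rw [card_insert_of_notMem, card_pair m3]
    simp [m1, m2]
  have := card_le_card hsub
  have h4 := List.toFinset_card_le nb
  omega

theorem srch_sound (h12 : ∀ (w : V) (c : G.Walk w w), c.IsCycle → 12 ≤ c.length)
    (h3 : Three G.Adj) (P : Pth G L p) (hbL : b ≤ L) (hb1 : 1 ≤ b)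
    (hnb : ∀ q, Pth G L q → ∀ y, G.Adj (q 0) y → ∃ i, 1 ≤ i ∧ i ≤ b ∧ q i = y) :
    ∀ (f : ℕ) (st : List (ℕ × List ℕ)) (ch : List ℕ) (seen : ℕ),
      (∀ t ∈ st, Good G L b p t.2) → (∀ m ∈ ch, ChOK G p b m) →
      srch b (2 ^ (b + 1) - 1) f st ch seen = true → False := by
  intro f
  induction f with
  | zero => 
    intro st ch seen _ _ h
    exact absurd h (by show ¬ (false = true); simp)
  | succ f ih =>
    intro st ch seen hst hch h
    match st with
    | [] => exact absurd h (by show ¬ (false = true); simp)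
    | (lv, []) :: st' => exact absurd h (by show ¬ (false = true); simp)
    | (lv, [w]) :: st' => exact absurd h (by show ¬ (false = true); simp)
    | (lv, w :: y :: l) :: st' =>
      have hst' : ∀ t ∈ st', Good G L b p t.2 := fun t ht => hst t (List.mem_cons_of_mem _ ht)
      have hG : Good G L b p (w :: y :: l) := hst _ List.mem_cons_self
      have hw : w ≤ b := hG.2.1 w List.mem_cons_self
      have h' : Bool.rec (motive := fun _ => Bool)
        (three (nbrs b ch w) (srch b (2 ^ (b + 1) - 1) f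
          (expd lv (w :: y :: l) y st' (nbrs b ch w)) ch (Nat.lor seen (Nat.shiftLeft 1 w)))
          (allB (fun v => srch b (2 ^ (b + 1) - 1) f
            (expd lv (w :: y :: l) y st' (v :: nbrs b ch w))
            (Nat.lor (Nat.shiftLeft 1 w) (Nat.shiftLeft 1 v) :: ch)
            (Nat.lor seen (Nat.shiftLeft 1 w))) 100
            (Nat.xor (2 ^ (b + 1) - 1) (ball (2 ^ (b + 1) - 1) ch 10 (Nat.shiftLeft 1 w)))))
        (srch b (2 ^ (b + 1) - 1) f st' ch seen) (bit seen w) = true := h
      cases hs : bit seen w with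
      | true =>
        rw [hs] at h'
        exact ih st' ch seen hst' hch h'
      | false =>
        rw [hs] at h'
        have hexp : ∀ nb : List ℕ, (∀ v ∈ nb, v ≤ b ∧ G.Adj (p w) (p v)) →
            ∀ t ∈ expd lv (w :: y :: l) y st' nb, Good G L b p t.2 := by
          intro nb hn t ht
          rcases mem_expd ht with h1 | ⟨v, h1, k, rfl⟩
          · exact hst' t h1
          · exact hG.rot P hbL hnb (hn v h1).1 (hn v h1).2
        have hn0 : ∀ v ∈ nbrs b ch w, v ≤ b ∧ G.Adj (p w) (p v) :=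
          fun v hv => nbrs_adj P hbL hch hw hv
        change three _ _ _ = true at h'
        rw [three_eq] at h'
        by_cases hlen : 3 ≤ (nbrs b ch w).length
        · rw [if_pos hlen] at h'
          exact ih _ _ _ (hexp _ hn0) hch h'
        · rw [if_neg hlen] at h'
          obtain ⟨v, v1, v2, v3⟩ := hG.unknown P hbL hb1 hnb h3 _ hlen
          have hball : (ball (2 ^ (b + 1) - 1) ch 10 (Nat.shiftLeft 1 w)).testBit v = false := by
            by_contra hc
            rw [Bool.not_eq_false] at hc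
            obtain ⟨-, k⟩ := ball_sound P hbL hch (u := w) 10 (Nat.shiftLeft 1 w) 0 (by
              intro z hz
              have hz' : (1 <<< w).testBit z = true := hz
              rw [Nat.shiftLeft_eq, one_mul, Nat.testBit_two_pow, decide_eq_true_eq] at hz'
              subst hz'
              exact ⟨hw, SimpleGraph.Walk.nil, by simp, by simp⟩) v hc
            exact v2 (known_nbrs P hbL hw v1 (k.known h12 v3))
          have hv : (Nat.xor (2 ^ (b + 1) - 1)
              (ball (2 ^ (b + 1) - 1) ch 10 (Nat.shiftLeft 1 w))).testBit v = true := by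
            show ((2 ^ (b + 1) - 1) ^^^ _).testBit v = true
            rw [Nat.testBit_xor, hball, Nat.testBit_two_pow_sub_one]
            simp
            omega
          have h2 := allB_spec _ _ h' v hv
          refine ih _ _ _ (hexp _ ?_) ?_ h2
          · intro z hz
            rcases List.mem_cons.1 hz with rfl | hz
            · exact ⟨v1, v3⟩
            · exact hn0 z hz
          · intro m hm
            rcases List.mem_cons.1 hm with rfl | hm
            · refine ⟨w, v, hw, v1, fun e => v3.ne (by rw [e]), ?_, v3⟩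
              show (1 <<< w) ||| (1 <<< v) = _
              rw [Nat.shiftLeft_eq, Nat.shiftLeft_eq, one_mul, one_mul]
            · exact hch m hm

end sound

end CS

end Pool.Agent.V11186.FV
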